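import Pool.Agent.H88.T8.Ab
import Pool.Agent.H88.T7.Af

/-!
ROW Ac (project MP_78d38b_T8, about 220 lines): norm and restriction respect the local condition generated by an integer
`b` divisible exactly once by the prime.

PROOF. `q = rp w` odd, `T` the set of the places `v` of `K` above `q`, all with ramification index one. `Cond v c` is the disjunction.
res_gen: `r` satisfies `Cond w`: either `r` is trivial at `w` or `r + sc b` is (`eo_add`, `la_add`, `x + x = 0` in `ZMod 2`); `la_res0`, `eo_res0` for `r`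
resp. `r + sc b`, and `res K (sc (b : ℚ)) = sc (b : K)` (`res_int`).
nm_gen: Let `T₁ ⊆ T` be the set of the places where `c` is not trivial (so `c` agrees with `sc b`). `k = finrank + 2`. Chinese remainder theorem: `θ ∈ 𝓞 K` with
`θ - 1 ∈ v^k` for `v ∈ T₁`, `θ ∈ v^k` for `v ∈ T \ T₁` (`IsDedekindDomain.exists_forall_sub_mem_ideal`). Then `θ^2 - θ ∈ v^k` for all `v ∈ T`, so
`θ^2 - θ ∈ (q^k)` since `(q) = ∏ v` (unramified: `v.valuation K q = exp (-1)`; an element `x` with `V_v x ≤ exp (-k) = V_v (q^k)` for all `v` above `q` and `x`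
integral elsewhere satisfies `x / q^k ∈ 𝓞 K`: `V_v (x / q^k) ≤ 1` for all `v`).
`y = 1 - θ + b θ ∈ 𝓞 K`. At `v ∈ T₁`: `V_v (y - b) ≤ exp (-k)`, `V_v b = exp (-1)`, so `y = b (1 + ε)`, `V_v ε < 1`, and `sc y` agrees with `sc b` at `v`; at
`v ∈ T \ T₁`: `V_v (y - 1) < 1`, `sc y` is trivial. So `c + sc y` is trivial at all `v ∈ T`, and by `nm_eo`, `nm_la` `nm K (c + sc y)` is trivial at `w`.
Norm of `y`: let `A` be the matrix of the multiplication by `θ` on `𝓞 K` over `ℤ` (basis `RingOfIntegers.basis K`, `Algebra.leftMulMatrix`), reduced modulo `q^k`: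
`A * A = A` over `ZMod (q^k)`, a local ring (`ZMod` of a prime power: `IsLocalRing`: look for an instance or prove it: the
non-units are the multiples of `q`). `det_idem`: `N(y) = det (1 - A + b A) = b^r` modulo `q^k` for some `r ≤ finrank < k`.
So `N(y) = b^r + q^k s = b^r (1 + q s')` with `s' ` integral at `q` (`r < k`, `q^r` exactly divides `b^r`): `sc (N y)` agrees with
`r • sc b` at `w`: trivial or `sc b`. `nm K c = nm K (c + sc y) + nm K (sc y)` (`x + x = 0`), `nm_sc`, `Algebra.coe_norm_int`.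
-/

set_option autoImplicit false
set_option linter.unusedSectionVars false
open scoped Classical

open WithZero NumberField IsDedekindDomain H38RT H88T7
open H38T1 (SC sc rep eo la si Pri tp OddP LD XX XX' NS ov rp SqMod)

namespace H88T8

variable {K : Type} [Field K] [NumberField K] {v : HeightOneSpectrum (𝓞 K)}
  {w : HeightOneSpectrum (𝓞 ℚ)}

private theorem Ac_xx (x : ZMod 2) : x + x = 0 := by
  rw [← two_mul, (by decide : (2 : ZMod 2) = 0), zero_mul]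

private theorem Ac_eq {x y : ZMod 2} (h : x + y = 0) : x = y := by
  have h1 : x = (x + y) + y := by rw [add_assoc, Ac_xx, add_zero]
  rw [h1, h, zero_add]

private theorem Ac_cc {F : Type} [Field F] (c : SC F) : c + c = 0 := by
  rw [← two_nsmul]
  exact H38T1.SC.two_smul c

/-- elements near one -/
private theorem Ac_near {F : Type} [Field F] [NumberField F] {v : HeightOneSpectrum (𝓞 F)}
    (h2 : rp v ≠ 2) {x : F} (h : v.valuation F (x - 1) < 1) :
    x ≠ 0 ∧ eo v (sc x) = 0 ∧ la v (sc x) = 0 := by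
  have h1 : v.valuation F x = 1 := by
    have h3 := Valuation.map_one_add_of_lt (v.valuation F) h
    rwa [add_sub_cancel] at h3
  have h0 : x ≠ 0 := by
    rintro rfl
    rw [map_zero] at h1
    exact zero_ne_one h1
  have ho : ord (v.valuation F) x = 0 := by
    unfold ord
    rw [h1, log_one, neg_zero]
  refine ⟨h0, ?_, ?_⟩
  · rw [H38T1.eo_sc h0, ho, Int.cast_zero]
  · rw [H38T1.la_sc (H38T1.oddP_iff.2 h2) h0]
    unfold lam
    rw [ho, neg_zero, zpow_zero, mul_one]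
    refine if_pos ⟨1, ?_⟩
    rw [one_pow]
    exact h

private theorem Ac_local {q : ℕ} (hq : q.Prime) {k : ℕ} (hk : k ≠ 0) :
    IsLocalRing (ZMod (q ^ k)) := by
  have hn : NeZero (q ^ k) := ⟨pow_ne_zero k hq.ne_zero⟩
  have hF : Fact (1 < q ^ k) := ⟨Nat.one_lt_pow hk hq.one_lt⟩
  have hnt : Nontrivial (ZMod (q ^ k)) := ZMod.nontrivial _
  refine IsLocalRing.of_isUnit_or_isUnit_one_sub_self fun a => ?_
  obtain ⟨m, rfl⟩ : ∃ m : ℕ, (m : ZMod (q ^ k)) = a := ⟨a.val, ZMod.natCast_zmod_val a⟩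
  by_cases h : q ∣ m
  · right
    have h1 : IsNilpotent ((m : ℕ) : ZMod (q ^ k)) := by
      refine ⟨k, ?_⟩
      have h2 : q ^ k ∣ m ^ k := pow_dvd_pow_of_dvd h k
      rw [← Nat.cast_pow, ZMod.natCast_eq_zero_iff]
      exact h2
    exact h1.isUnit_one_sub
  · left
    rw [ZMod.isUnit_iff_coprime]
    exact (((Nat.Prime.coprime_iff_not_dvd hq).2 h).symm).pow_right k

/-- the norm of `1 - θ + b θ` for `θ` idempotent modulo `q ^ k` -/
private theorem Ac_norm {q : ℕ} (hq : q.Prime) {k : ℕ} (hk : k ≠ 0) {θ z : 𝓞 K}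
    (h : θ * θ = θ + ((q ^ k : ℕ) : 𝓞 K) * z) (b : ℤ) :
    ∃ r : ℕ, r ≤ Module.finrank ℚ K ∧
      ((q ^ k : ℕ) : ℤ) ∣ Algebra.norm ℤ (1 - θ + (b : 𝓞 K) * θ) - b ^ r := by
  have hr : Module.finrank ℚ K = Fintype.card (Module.Free.ChooseBasisIndex ℤ (𝓞 K)) := by
    rw [← NumberField.RingOfIntegers.rank, Module.finrank_eq_card_basis (Module.Free.chooseBasis ℤ (𝓞 K))]
  have hloc := Ac_local hq hk
  obtain ⟨φ, hφ⟩ : ∃ φ : Matrix (Module.Free.ChooseBasisIndex ℤ (𝓞 K))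
      (Module.Free.ChooseBasisIndex ℤ (𝓞 K)) ℤ →+* Matrix (Module.Free.ChooseBasisIndex ℤ (𝓞 K))
      (Module.Free.ChooseBasisIndex ℤ (𝓞 K)) (ZMod (q ^ k)),
      φ = (Int.castRingHom (ZMod (q ^ k))).mapMatrix := ⟨_, rfl⟩
  obtain ⟨ψ, hψ⟩ : ∃ ψ : 𝓞 K →+* Matrix (Module.Free.ChooseBasisIndex ℤ (𝓞 K))
      (Module.Free.ChooseBasisIndex ℤ (𝓞 K)) (ZMod (q ^ k)),
      ψ = φ.comp (Algebra.leftMulMatrix (Module.Free.chooseBasis ℤ (𝓞 K)) :
        𝓞 K →+* Matrix _ _ ℤ) := ⟨_, rfl⟩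
  have hq0 : ((q ^ k : ℕ) : Matrix (Module.Free.ChooseBasisIndex ℤ (𝓞 K))
      (Module.Free.ChooseBasisIndex ℤ (𝓞 K)) (ZMod (q ^ k))) = 0 := by
    rw [← map_natCast (Matrix.scalar (Module.Free.ChooseBasisIndex ℤ (𝓞 K))), ZMod.natCast_self,
      map_zero]
  have hA : ψ θ * ψ θ = ψ θ := by
    rw [← map_mul, h, map_add, map_mul, map_natCast, hq0, zero_mul, add_zero]
  obtain ⟨r, hr1, hr2⟩ := det_idem (ψ θ) hA
  refine ⟨r, by rw [hr]; exact hr1, ?_⟩
  have h1 := hr2 (b : ZMod (q ^ k))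
  have h2 : 1 - ψ θ + (b : ZMod (q ^ k)) • ψ θ = ψ (1 - θ + (b : 𝓞 K) * θ) := by
    rw [map_add, map_sub, map_one, map_mul, map_intCast, ← zsmul_eq_mul,
      Int.cast_smul_eq_zsmul (ZMod (q ^ k))]
  have h3 : (ψ (1 - θ + (b : 𝓞 K) * θ)).det =
      ((Algebra.norm ℤ (1 - θ + (b : 𝓞 K) * θ) : ℤ) : ZMod (q ^ k)) := by
    rw [Algebra.norm_eq_matrix_det (Module.Free.chooseBasis ℤ (𝓞 K)), hψ, hφ]
    exact (RingHom.map_det (Int.castRingHom (ZMod (q ^ k))) _).symm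
  rw [h2, h3] at h1
  rw [← ZMod.intCast_zmod_eq_zero_iff_dvd]
  push_cast
  rw [h1, sub_self]

/-- the class of an integer congruent to `b ^ r` -/
private theorem Ac_cls (h2 : rp w ≠ 2) {b : ℤ} (hb : (rp w : ℤ) ∣ b)
    (hb2 : ¬ (rp w : ℤ) ^ 2 ∣ b) {k r : ℕ} (hr : r < k) {N : ℤ}
    (hN : ((rp w ^ k : ℕ) : ℤ) ∣ N - b ^ r) :
    N ≠ 0 ∧ eo w (sc (N : ℚ) + r • sc (b : ℚ)) = 0 ∧ la w (sc (N : ℚ) + r • sc (b : ℚ)) = 0 := by
  have hF : Fact (rp w).Prime := ⟨H38T1.rp_prime w⟩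
  have hq : Prime ((rp w : ℕ) : ℤ) := Nat.prime_iff_prime_int.1 (H38T1.rp_prime w)
  obtain ⟨q, hqd⟩ : ∃ q : ℤ, q = ((rp w : ℕ) : ℤ) := ⟨_, rfl⟩
  rw [← hqd] at hb hb2 hq
  obtain ⟨u, rfl⟩ := hb
  obtain ⟨s, hs⟩ := hN
  have hu : ¬ q ∣ u := by
    rintro ⟨u', rfl⟩
    exact hb2 ⟨u', by ring⟩
  have hq0 : q ≠ 0 := hq.ne_zero
  have hu0 : u ≠ 0 := by
    rintro rfl
    exact hu (dvd_zero _)
  push_cast at hs
  rw [← hqd] at hs
  obtain ⟨j, rfl⟩ : ∃ j, k = r + (j + 1) := ⟨k - r - 1, by omega⟩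
  obtain ⟨m, hm⟩ : ∃ m, m = u ^ r + q ^ (j + 1) * s := ⟨_, rfl⟩
  have hNm : N = q ^ r * m := by
    rw [hm]
    have h3 : N = (q * u) ^ r + q ^ (r + (j + 1)) * s := by linarith
    rw [h3]
    ring
  have hum : ¬ q ∣ u ^ r := fun h => hu (hq.dvd_of_dvd_pow h)
  have hmq : ¬ q ∣ m := by
    intro h
    rw [hm] at h
    have h4 : q ∣ q ^ (j + 1) * s := Dvd.dvd.mul_right (dvd_pow_self q (Nat.succ_ne_zero j)) s
    exact hum ((Int.dvd_add_left h4).1 h)
  have hm0 : m ≠ 0 := by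
    rintro h
    exact hmq (by rw [h]; exact dvd_zero _)
  have hN0 : N ≠ 0 := by
    rw [hNm]
    exact mul_ne_zero (pow_ne_zero _ hq0) hm0
  have hmu : ¬ q ∣ m * u ^ r := fun h => (hq.dvd_or_dvd h).elim hmq hum
  have hmu0 : m * u ^ r ≠ 0 := mul_ne_zero hm0 (pow_ne_zero _ hu0)
  have hb0 : ((q * u : ℤ) : ℚ) ≠ 0 := by exact_mod_cast mul_ne_zero hq0 hu0
  have hNQ : (N : ℚ) ≠ 0 := by exact_mod_cast hN0
  have hqQ : ((q ^ r : ℤ) : ℚ) ≠ 0 := by exact_mod_cast pow_ne_zero r hq0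
  have hmuQ : ((m * u ^ r : ℤ) : ℚ) ≠ 0 := by exact_mod_cast hmu0
  have hcl : sc (N : ℚ) + r • sc ((q * u : ℤ) : ℚ) = sc ((m * u ^ r : ℤ) : ℚ) := by
    rw [← sc_pow hb0, ← H38T1.sc_mul hNQ (pow_ne_zero _ hb0)]
    have h5 : (N : ℚ) * ((q * u : ℤ) : ℚ) ^ r =
        ((q ^ r : ℤ) : ℚ) * ((q ^ r : ℤ) : ℚ) * ((m * u ^ r : ℤ) : ℚ) := by
      rw [hNm]
      push_cast
      ring
    rw [h5, H38T1.sc_mul (mul_ne_zero hqQ hqQ) hmuQ, (H38T1.sc_eq_zero (mul_ne_zero hqQ hqQ)).2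
      ⟨_, rfl⟩, zero_add]
  rw [hcl]
  refine ⟨hN0, ?_, ?_⟩
  · refine eo_int0 hmu0 ?_
    rw [padicValInt.eq_zero_of_not_dvd (by rw [← hqd]; exact hmu)]
    exact Even.zero
  · refine la_int0 h2 (by rw [← hqd]; exact hmu) ⟨u ^ r, ?_⟩
    rw [← hqd, hm]
    exact ⟨q ^ j * s * u ^ r, by ring⟩

theorem res_gen (h2 : rp w ≠ 2) (hvw : rp v = rp w) {b : ℤ} (hb : b ≠ 0) {r : SC ℚ}
    (h : (eo w r = 0 ∧ la w r = 0) ∨ (eo w r = eo w (sc (b : ℚ)) ∧ la w r = la w (sc (b : ℚ)))) :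
    (eo v (res K r) = 0 ∧ la v (res K r) = 0) ∨
      (eo v (res K r) = eo v (sc (b : K)) ∧ la v (res K r) = la v (sc (b : K))) := by
  have hv2 : rp v ≠ 2 := by
    rw [hvw]
    exact h2
  have hw : OddP w := H38T1.oddP_iff.2 h2
  have hv : OddP v := H38T1.oddP_iff.2 hv2
  rcases h with ⟨h3, h4⟩ | ⟨h3, h4⟩
  · exact Or.inl ⟨eo_res0 hvw h3, la_res0 hv2 hvw h3 h4⟩
  · right
    have h5 : eo w (r + sc (b : ℚ)) = 0 := by
      rw [H38T1.eo_add, h3, Ac_xx]
    have h6 : la w (r + sc (b : ℚ)) = 0 := by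
      rw [H38T1.la_add hw, h4, Ac_xx]
    have h7 := eo_res0 hvw h5
    have h8 := la_res0 hv2 hvw h5 h6
    rw [map_add, res_int hb, H38T1.eo_add] at h7
    rw [map_add, res_int hb, H38T1.la_add hv] at h8
    exact ⟨Ac_eq h7, Ac_eq h8⟩

theorem nm_gen (h2 : rp w ≠ 2)
    (he : ∀ v : HeightOneSpectrum (𝓞 K), rp v = rp w → v.asIdeal.ramificationIdx ℤ = 1) {b : ℤ}
    (hb : (rp w : ℤ) ∣ b) (hb2 : ¬ (rp w : ℤ) ^ 2 ∣ b) {c : SC K}
    (h : ∀ v : HeightOneSpectrum (𝓞 K), rp v = rp w → (eo v c = 0 ∧ la v c = 0) ∨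
      (eo v c = eo v (sc (b : K)) ∧ la v c = la v (sc (b : K)))) :
    (eo w (nm K c) = 0 ∧ la w (nm K c) = 0) ∨
      (eo w (nm K c) = eo w (sc (b : ℚ)) ∧ la w (nm K c) = la w (sc (b : ℚ))) := by
  have hw : OddP w := H38T1.oddP_iff.2 h2
  have hqp := H38T1.rp_prime w
  obtain ⟨k, hk⟩ : ∃ k, k = Module.finrank ℚ K + 2 := ⟨_, rfl⟩
  have hb0 : b ≠ 0 := by
    rintro rfl
    exact hb2 (dvd_zero _)
  have hbK : (b : K) ≠ 0 := by exact_mod_cast hb0
  have hfin : {v : HeightOneSpectrum (𝓞 K) | rp v = rp w}.Finite := by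
    have hq : ∀ q ∈ ({rp w} : Set ℕ), q.Prime := fun q hq => by
      rw [Set.mem_singleton_iff.1 hq]
      exact hqp
    have h1 : {v : HeightOneSpectrum (𝓞 K) | rp v = rp w} = ov K {rp w} := by
      ext v
      rw [H38T1.mem_ov hq]
      exact Set.mem_singleton_iff.symm
    rw [h1]
    exact H38T1.fin_ov (Set.finite_singleton _) hq
  -- the element congruent to one or zero
  obtain ⟨t, ht⟩ : ∃ t : HeightOneSpectrum (𝓞 K) → 𝓞 K, ∀ v, rp v = rp w →
      (t v = 0 ∧ eo v c = 0 ∧ la v c = 0) ∨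
      (t v = 1 ∧ eo v c = eo v (sc (b : K)) ∧ la v c = la v (sc (b : K))) := by
    have h1 : ∀ v : HeightOneSpectrum (𝓞 K), ∃ a : 𝓞 K, rp v = rp w →
        (a = 0 ∧ eo v c = 0 ∧ la v c = 0) ∨
        (a = 1 ∧ eo v c = eo v (sc (b : K)) ∧ la v c = la v (sc (b : K))) := by
      intro v
      by_cases hv : rp v = rp w
      · rcases h v hv with h3 | h3
        · exact ⟨0, fun _ => Or.inl ⟨rfl, h3⟩⟩
        · exact ⟨1, fun _ => Or.inr ⟨rfl, h3⟩⟩
      · exact ⟨0, fun h' => absurd h' hv⟩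
    choose t ht using h1
    exact ⟨t, ht⟩
  obtain ⟨θ, hθ⟩ := IsDedekindDomain.exists_forall_sub_mem_ideal (s := hfin.toFinset)
    (fun v : HeightOneSpectrum (𝓞 K) => v.asIdeal) (fun _ => k)
    (fun v _ => v.prime) (fun v _ v' _ hne h' => hne (HeightOneSpectrum.ext h')) (fun v => t v)
  have hθv : ∀ v : HeightOneSpectrum (𝓞 K), rp v = rp w →
      v.valuation K (algebraMap (𝓞 K) K (θ - t v)) ≤ exp (-(k : ℤ)) := by
    intro v hv
    rw [v.valuation_of_algebraMap, v.intValuation_le_pow_iff_mem]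
    exact hθ v (hfin.mem_toFinset.2 hv)
  have hqv : ∀ v : HeightOneSpectrum (𝓞 K), rp v = rp w →
      v.valuation K ((rp w : ℕ) : K) = exp (-1 : ℤ) := by
    intro v hv
    have h6 := H38T1.Ed_ordq v
    rw [he v hv] at h6
    have hq0 : ((rp v : ℕ) : K) ≠ 0 := Nat.cast_ne_zero.2 (H38T1.rp_prime v).ne_zero
    unfold ord at h6
    rw [← hv, ← exp_log ((Valuation.ne_zero_iff (v.valuation K)).2 hq0)]
    congr 1
    push_cast at h6
    omega
  have hqk : ∀ v : HeightOneSpectrum (𝓞 K), rp v = rp w →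
      v.valuation K ((rp w : ℕ) : K) ^ k = exp (-(k : ℤ)) := by
    intro v hv
    rw [hqv v hv, ← exp_nsmul]
    congr 1
    simp
  have hqK : ((rp w : ℕ) : K) ≠ 0 := Nat.cast_ne_zero.2 hqp.ne_zero
  -- idempotent
  obtain ⟨z, hz⟩ : ∃ z : 𝓞 K, θ * θ = θ + ((rp w ^ k : ℕ) : 𝓞 K) * z := by
    have h1 : ∀ v : HeightOneSpectrum (𝓞 K),
        v.valuation K (algebraMap (𝓞 K) K (θ * θ - θ) / ((rp w : ℕ) : K) ^ k) ≤ 1 := by
      intro v
      rw [map_div₀, map_pow]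
      by_cases hv : rp v = rp w
      · refine div_le_one_of_le₀ ?_ zero_le
        rw [hqk v hv]
        have h3 : θ * θ - θ = (θ - t v) * (θ + t v - 1) := by
          rcases ht v hv with ⟨h4, -⟩ | ⟨h4, -⟩
          · rw [h4]
            ring
          · rw [h4]
            ring
        rw [h3, map_mul, map_mul]
        exact (mul_le_of_le_one_right' (v.valuation_le_one _)).trans (hθv v hv)
      · have h3 : v.valuation K ((rp w : ℕ) : K) = 1 := by
          have h4 : ((rp w : ℕ) : 𝓞 K) ∉ v.asIdeal := fun h' => hv ((H38T1.mem_iff_eq hqp).1 h')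
          have h5 := (v.valuation_eq_one_iff_notMem (K := K) (r := ((rp w : ℕ) : 𝓞 K))).mpr h4
          rwa [map_natCast] at h5
        rw [h3, one_pow, div_one]
        exact v.valuation_le_one _
    obtain ⟨z, hz⟩ := HeightOneSpectrum.mem_integers_of_valuation_le_one K _ h1
    refine ⟨z, ?_⟩
    apply FaithfulSMul.algebraMap_injective (𝓞 K) K
    rw [eq_div_iff (pow_ne_zero _ hqK), map_sub, map_mul] at hz
    rw [map_add, map_mul, map_mul, map_natCast, Nat.cast_pow]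
    linear_combination -hz
  obtain ⟨r, hr, hN⟩ := Ac_norm hqp (k := k) (by omega) hz b
  obtain ⟨y, hy⟩ : ∃ y : 𝓞 K, y = 1 - θ + (b : 𝓞 K) * θ := ⟨_, rfl⟩
  rw [← hy] at hN
  obtain ⟨hN0, hN1, hN2⟩ := Ac_cls h2 hb hb2 (show r < k by omega) hN
  have hy0 : y ≠ 0 := by
    rintro rfl
    exact hN0 Algebra.norm_zero
  have hyK : algebraMap (𝓞 K) K y ≠ 0 := by
    intro h'
    exact hy0 (FaithfulSMul.algebraMap_injective (𝓞 K) K (h'.trans (map_zero _).symm))
  have hyK1 : algebraMap (𝓞 K) K y = 1 - algebraMap (𝓞 K) K θ + (b : K) * algebraMap (𝓞 K) K θ := by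
    rw [hy, map_add, map_sub, map_one, map_mul, map_intCast]
  have hnm : nm K (sc (algebraMap (𝓞 K) K y)) = sc ((Algebra.norm ℤ y : ℤ) : ℚ) := by
    rw [nm_sc hyK, Algebra.coe_norm_int]
  -- the class `c + sc y` is trivial above `q`
  have htr : ∀ v : HeightOneSpectrum (𝓞 K), rp v = rp w →
      eo v (c + sc (algebraMap (𝓞 K) K y)) = 0 ∧ la v (c + sc (algebraMap (𝓞 K) K y)) = 0 := by
    intro v hv
    have hv2 : rp v ≠ 2 := by
      rw [hv]
      exact h2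
    have hvo : OddP v := H38T1.oddP_iff.2 hv2
    have hb1 : v.valuation K (1 - (b : K)) ≤ 1 := by
      have h3 := v.valuation_le_one (K := K) (1 - (b : 𝓞 K))
      change v.valuation K (algebraMap (𝓞 K) K (1 - (b : 𝓞 K))) ≤ 1 at h3
      rwa [map_sub, map_one, map_intCast] at h3
    have hk1 : exp (-(k : ℤ)) < (1 : WithZero (Multiplicative ℤ)) := by
      rw [← exp_zero, exp_lt_exp]
      omega
    have h5 := hθv v hv
    rcases ht v hv with ⟨h4, h6, h7⟩ | ⟨h4, h6, h7⟩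
    · rw [h4, sub_zero] at h5
      have h8 : v.valuation K (algebraMap (𝓞 K) K y - 1) < 1 := by
        have h9 : algebraMap (𝓞 K) K y - 1 = -(algebraMap (𝓞 K) K θ * (1 - (b : K))) := by
          rw [hyK1]
          ring
        rw [h9, Valuation.map_neg, map_mul]
        exact ((mul_le_of_le_one_right' hb1).trans h5).trans_lt hk1
      obtain ⟨-, h10, h11⟩ := Ac_near hv2 h8
      rw [H38T1.eo_add, H38T1.la_add hvo, h6, h7, h10, h11]
      exact ⟨add_zero _, add_zero _⟩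
    · rw [h4, map_sub, map_one] at h5
      have hbv : v.valuation K (b : K) = exp (-1 : ℤ) := by
        obtain ⟨u, hu⟩ := hb
        have hu1 : ¬ ((rp v : ℕ) : ℤ) ∣ u := by
          rintro ⟨u', rfl⟩
          exact hb2 ⟨u', by rw [hu, hv]; ring⟩
        have hu2 : v.valuation K (u : K) = 1 := by
          have h12 : (u : 𝓞 K) ∉ v.asIdeal := fun h' => hu1 ((H38T1.mem_iff_int u).1 h')
          have h13 := (v.valuation_eq_one_iff_notMem (K := K) (r := (u : 𝓞 K))).mpr h12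
          rwa [map_intCast] at h13
        rw [hu]
        push_cast
        rw [map_mul, hu2, mul_one, hqv v hv]
      have h8 : v.valuation K (algebraMap (𝓞 K) K y / (b : K) - 1) < 1 := by
        have h9 : algebraMap (𝓞 K) K y / (b : K) - 1 =
            -((algebraMap (𝓞 K) K θ - 1) * (1 - (b : K)) / (b : K)) := by
          rw [hyK1]
          field_simp
          ring
        rw [h9, Valuation.map_neg, map_div₀, map_mul, hbv]
        refine lt_of_le_of_lt (div_le_div_of_nonneg_right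
          ((mul_le_of_le_one_right' hb1).trans h5) zero_le) ?_
        rw [← exp_sub, ← exp_zero, exp_lt_exp]
        omega
      obtain ⟨h9, h10, h11⟩ := Ac_near hv2 h8
      have h12 : sc (algebraMap (𝓞 K) K y) = sc (b : K) + sc (algebraMap (𝓞 K) K y / (b : K)) := by
        rw [← H38T1.sc_mul hbK h9]
        congr 1
        field_simp
      rw [h12, H38T1.eo_add, H38T1.la_add hvo, H38T1.eo_add, H38T1.la_add hvo, h6, h7, h10, h11,
        add_zero, add_zero]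
      exact ⟨Ac_xx _, Ac_xx _⟩
  have e1 : eo w (nm K (c + sc (algebraMap (𝓞 K) K y))) = 0 := nm_eo fun v hv => (htr v hv).1
  have e2 : la w (nm K (c + sc (algebraMap (𝓞 K) K y))) = 0 := nm_la h2 he htr
  have e3 : nm K c = nm K (c + sc (algebraMap (𝓞 K) K y)) + sc ((Algebra.norm ℤ y : ℤ) : ℚ) := by
    rw [← hnm, ← map_add, add_assoc, Ac_cc, add_zero]
  have e4 : eo w (nm K c) = eo w (sc ((Algebra.norm ℤ y : ℤ) : ℚ)) := by
    rw [e3, H38T1.eo_add, e1, zero_add]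
  have e5 : la w (nm K c) = la w (sc ((Algebra.norm ℤ y : ℤ) : ℚ)) := by
    rw [e3, H38T1.la_add hw, e2, zero_add]
  rw [e4, e5]
  rcases Nat.even_or_odd' r with ⟨j, rfl | rfl⟩
  · rw [mul_comm, mul_smul, H38T1.SC.two_smul, smul_zero, add_zero] at hN1 hN2
    exact Or.inl ⟨hN1, hN2⟩
  · rw [zsmul_two] at hN1 hN2
    rw [H38T1.eo_add] at hN1
    rw [H38T1.la_add hw] at hN2
    exact Or.inr ⟨Ac_eq hN1, Ac_eq hN2⟩

end H88T8
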