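import Pool.Agent.H88.T8.Gd

/-!
The curves in a progression (project MP_78d38b_T8; the proof of `H30T8.exists_dat8` by helper53 with the
progression kept).
-/

set_option autoImplicit false
set_option linter.unusedSectionVars false
open scoped Classical

open WithZero NumberField IsDedekindDomain H38RT H88T7 H88T8 H90T8
open H38T1 (SC sc scu scu_surj sc_mul sc_of_ne sc_surj rep rep_ne sc_rep sc_eq_zero eo la si Pri OddP
  LD XX XX' NS ov rp SqMod)

namespace H88T8

variable {K M : Type} [Field K] [NumberField K] [Field M] [NumberField M]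

theorem exists_dat8p (hodd : Odd (Module.finrank ℚ K)) (hL : BigL K M) :
    ∃ (B : Finset ℕ) (β₀ m : ℤ), 0 < β₀ ∧ 0 < m ∧ (2 : ℤ) ∣ m ∧ (3 : ℤ) ∣ m ∧ (5 : ℤ) ∣ m ∧
      (∀ q : ℕ, q.Prime → (q : ℤ) ∣ m → ∀ t : ℕ,
        ¬ (q : ℤ) ^ 2 ∣ (β₀ + m * t) * (1 - 64 * (β₀ + m * t))) ∧
      ∀ t : ℕ, Squarefree ((β₀ + m * t) * (1 - 64 * (β₀ + m * t))) → ∃ Qa Qb : Finset ℕ,
        Dat8 K B (QKm M) (E0m K M) (β₀ + m * t) Qa Qb := by
  obtain ⟨B, hB, hFB, hBp, -⟩ := H88T7.exists_B K hodd
    ({2, 3, 5} ∪ (H30T8.Fg_fin hL).toFinset.image rp) (by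
      intro q hq
      rw [Finset.mem_union, Finset.mem_image] at hq
      rcases hq with hq | ⟨v, -, rfl⟩
      · simp only [Finset.mem_insert, Finset.mem_singleton] at hq
        rcases hq with rfl | rfl | rfl
        · exact Nat.prime_two
        · exact Nat.prime_three
        · exact Nat.prime_five
      · exact H38T1.rp_prime v)
  obtain ⟨Qa, Qb, h1, h2, h3, h4, h5, h6, h7⟩ := H30T8.exists_presc hodd hL B
  obtain ⟨β₀, m, p0, pm, p2, p3, p5, pq, hp⟩ := exists_prog B Qa Qb hBp (hFB (by simp)) (hFB (by simp))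
    (hFB (by simp)) h1 (fun q hq => ⟨(h2 q hq).1, (h2 q hq).2.2⟩)
  refine ⟨B, β₀, m, p0, pm, p2, p3, p5, pq, fun t ht => ⟨Qa, Qb, ?_⟩⟩
  obtain ⟨b1, b2, b4, b5, b6⟩ := hp t
  exact
    { odd := hodd
      two := hB.two
      unr := hB.unr
      quad := by
        intro d hd v hv
        by_contra hne
        apply hv
        refine hFB (Finset.mem_union_right _ (Finset.mem_image_of_mem _ ?_))
        exact (Set.Finite.mem_toFinset _).2 ⟨d, hd, hne⟩
      exo := h6
      bo := b1
      pos := b2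
      sqf := ht
      co := b4
      pa := fun q hq => ⟨(h2 q (Finset.mem_union_left _ hq)).1, b5 q hq⟩
      pb := fun q hq => ⟨(h2 q (Finset.mem_union_right _ hq)).1, b6 q hq⟩
      na := h3
      nb := h4
      card := h5
      bal := h7 }

end H88T8
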