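import Pool.Agent.H90.T8.Ts

/-!
Pure fields of prime degree: the vectors with sum zero are a simple module (project MP_78d38b_T8,
helper88).
-/

set_option autoImplicit false
set_option linter.unusedSectionVars false
open scoped Classical

open H90T8 NumberField

namespace H88T8

/-- The permutation criterion: a set of elements of the group which fix a point and permute the other
points simply transitively. -/
theorem simple_sharp {G H I : Type*} [Group G] [MulAction G H] [Fintype H] [Fintype I]
    (hodd : Odd (Fintype.card H)) (htr : ∀ s t : H, ∃ g : G, g • s = t) (s₀ : H) (g : I → G)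
    (h0 : ∀ i, g i • s₀ = s₀)
    (h1 : ∀ s, s ≠ s₀ → ∀ t, t ≠ s₀ → ∃! i, g i • s = t) : SumZeroSimple G H := by
  intro U hU hsum hne v hv
  obtain ⟨f, hf, hf0⟩ := Submodule.exists_mem_ne_zero_of_ne_bot hne
  have hc : ∀ a : ZMod 2, a = 0 ∨ a = 1 := by decide
  obtain ⟨s, hs⟩ : ∃ s, f s = 1 := by
    by_contra hcon
    push Not at hcon
    apply hf0
    funext s
    exact (hc (f s)).resolve_right (hcon s)
  obtain ⟨γ, hγ⟩ := htr s₀ s
  have hf' := hU γ f hf
  set f' : H → ZMod 2 := fun s => f (γ • s) with hf'def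
  have hf's : f' s₀ = 1 := by
    rw [hf'def]
    simp only [hγ, hs]
  have hF : (∑ i, fun s => f' (g i • s)) ∈ U := Submodule.sum_mem _ fun i _ => hU (g i) f' hf'
  set F : H → ZMod 2 := ∑ i, fun s => f' (g i • s) with hFdef
  have hFs : ∀ s, F s = ∑ i, f' (g i • s) := fun s => by rw [hFdef, Finset.sum_apply]
  -- a second point
  obtain ⟨s₁, hs₁⟩ : ∃ s₁ : H, s₁ ≠ s₀ := by
    by_contra hcon
    push Not at hcon
    have h2 := hsum f' hf'
    rw [Fintype.sum_eq_single s₀ (fun x hx => absurd (hcon x) hx), hf's] at h2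
    exact absurd h2 (by decide)
  have hsumF : ∀ s, s ≠ s₀ → F s = 1 := by
    intro s hs
    rw [hFs]
    have h2 : ∑ i, f' (g i • s) = ∑ t ∈ Finset.univ.erase s₀, f' t := by
      refine Finset.sum_bij (fun i _ => g i • s) ?_ ?_ ?_ ?_
      · intro i _
        rw [Finset.mem_erase]
        refine ⟨fun h => hs ?_, Finset.mem_univ _⟩
        exact smul_left_cancel (g i) (h.trans (h0 i).symm)
      · intro i _ j _ hij
        have h3 : g i • s ≠ s₀ := fun h => hs (smul_left_cancel (g i) (h.trans (h0 i).symm))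
        exact (h1 s hs _ h3).unique rfl hij.symm
      · intro t ht
        obtain ⟨i, hi, -⟩ := h1 s hs t (Finset.ne_of_mem_erase ht)
        exact ⟨i, Finset.mem_univ _, hi⟩
      · intro i _
        rfl
    have h3 := Finset.add_sum_erase Finset.univ f' (Finset.mem_univ s₀)
    rw [hsum f' hf', hf's] at h3
    rw [h2]
    rcases hc (∑ t ∈ Finset.univ.erase s₀, f' t) with h4 | h4
    · rw [h4] at h3
      exact absurd h3 (by decide)
    · exact h4
  have hcard : Fintype.card I = Fintype.card H - 1 := by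
    rw [← Finset.card_univ, ← Finset.card_univ, ← Finset.card_erase_of_mem (Finset.mem_univ s₀)]
    refine Finset.card_bij (fun i _ => g i • s₁) ?_ ?_ ?_
    · intro i _
      rw [Finset.mem_erase]
      exact ⟨fun h => hs₁ (smul_left_cancel (g i) (h.trans (h0 i).symm)), Finset.mem_univ _⟩
    · intro i _ j _ hij
      have h3 : g i • s₁ ≠ s₀ := fun h => hs₁ (smul_left_cancel (g i) (h.trans (h0 i).symm))
      exact (h1 s₁ hs₁ _ h3).unique rfl hij.symm
    · intro t ht
      obtain ⟨i, hi, -⟩ := h1 s₁ hs₁ t (Finset.ne_of_mem_erase ht)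
      exact ⟨i, Finset.mem_univ _, hi⟩
  have hF0 : F s₀ = 0 := by
    rw [hFs]
    have h2 : ∑ i, f' (g i • s₀) = ∑ _i : I, (1 : ZMod 2) := Finset.sum_congr rfl fun i _ => by
      rw [h0 i, hf's]
    rw [h2, Finset.sum_const, Finset.card_univ, hcard, nsmul_eq_mul, mul_one,
      ZMod.natCast_eq_zero_iff]
    obtain ⟨k, hk⟩ := hodd
    exact ⟨k, by omega⟩
  have hFt : ∀ t : H, (fun s => (1 : ZMod 2) + if s = t then 1 else 0) ∈ U := by
    intro t
    obtain ⟨γ', hγ'⟩ := htr t s₀
    have h2 := hU γ' F hF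
    convert h2 using 1
    funext s
    by_cases hst : s = t
    · rw [hst, hγ', hF0, if_pos rfl]
      decide
    · rw [if_neg hst, add_zero, hsumF]
      intro h
      exact hst (smul_left_cancel γ' (h.trans hγ'.symm))
  have h5 : v = ∑ t, v t • (fun s => (1 : ZMod 2) + if s = t then 1 else 0) := by
    funext s
    rw [Finset.sum_apply]
    simp only [Pi.smul_apply, smul_eq_mul, mul_add, mul_one, mul_ite, mul_zero,
      Finset.sum_add_distrib, hv, zero_add]
    rw [Finset.sum_ite_eq Finset.univ s v, if_pos (Finset.mem_univ _)]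
  rw [h5]
  exact Submodule.sum_mem _ fun t _ => Submodule.smul_mem _ _ (hFt t)

/-- The fields generated by a root of a rational number, of odd prime degree. -/
theorem simple_pure {K : Type} [Field K] [NumberField K] {N : ℕ} (hN : N.Prime) (hN2 : N ≠ 2)
    (hc : Module.finrank ℚ K = N) (α : K) (a : ℚ) (hα : α ^ N = algebraMap ℚ K a)
    (hα' : ∀ q : ℚ, α ≠ algebraMap ℚ K q) : SimpleK K := by
  have hFN : Fact N.Prime := ⟨hN⟩
  have hN0 : NeZero N := ⟨hN.ne_zero⟩
  set Ω := AlgebraicClosure ℚ with hΩ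
  have hcardH : Fintype.card (K →ₐ[ℚ] Ω) = N := by rw [Ts_card, hc]
  obtain ⟨σ₀⟩ : Nonempty (K →ₐ[ℚ] Ω) := by
    rw [← Fintype.card_pos_iff, hcardH]
    exact hN.pos
  let _ : Algebra K Ω := σ₀.toRingHom.toAlgebra
  have hsc : IsScalarTower ℚ K Ω := IsScalarTower.of_algebraMap_eq (fun x => (σ₀.commutes x).symm)
  have halg : ∀ x : K, algebraMap K Ω x = σ₀ x := fun x => rfl
  have hacl : IsAlgClosure ℚ Ω := ⟨inferInstance, AlgebraicClosure.isAlgebraic ℚ⟩
  have hint : Algebra.IsAlgebraic K Ω := Algebra.IsAlgebraic.tower_top (K := ℚ) K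
  have hnorm : Normal K Ω := by
    have : IsAlgClosure K Ω := ⟨inferInstance, hint⟩
    exact IsAlgClosure.normal K Ω
  have hNΩ : NeZero (N : Ω) := ⟨by exact_mod_cast hN.ne_zero⟩
  obtain ⟨ζ, hζ⟩ := HasEnoughRootsOfUnity.exists_primitiveRoot Ω N
  have hroot : ∀ z : Ω, IsPrimitiveRoot z N → Polynomial.aeval z (Polynomial.cyclotomic N K) = 0 := by
    intro z hz
    rw [Polynomial.aeval_def, Polynomial.eval₂_eq_eval_map, Polynomial.map_cyclotomic]
    exact Polynomial.isRoot_cyclotomic_iff.2 hz
  have hdeg : (Polynomial.cyclotomic N K).natDegree = N - 1 := by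
    rw [Polynomial.natDegree_cyclotomic, Nat.totient_prime hN]
  have hζi : IsIntegral K ζ := (hint.isAlgebraic ζ).isIntegral
  have hζQ : IsIntegral ℚ ζ := ((AlgebraicClosure.isAlgebraic ℚ).isAlgebraic ζ).isIntegral
  -- the minimal polynomial of `ζ` over `K`
  have hdvd : minpoly K ζ ∣ Polynomial.cyclotomic N K := minpoly.dvd K ζ (hroot ζ hζ)
  have hd1 : Module.finrank ℚ (IntermediateField.adjoin K {ζ}) = N * (minpoly K ζ).natDegree := by
    rw [← Module.finrank_mul_finrank ℚ K (IntermediateField.adjoin K {ζ}), hc,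
      IntermediateField.adjoin.finrank hζi]
  have hd2 : N - 1 ∣ Module.finrank ℚ (IntermediateField.adjoin K {ζ}) := by
    have hfin : FiniteDimensional K (IntermediateField.adjoin K {ζ}) :=
      IntermediateField.adjoin.finiteDimensional hζi
    have hfin2 : FiniteDimensional ℚ (IntermediateField.adjoin K {ζ}) :=
      FiniteDimensional.trans ℚ K (IntermediateField.adjoin K {ζ})
    have h1 := minpoly.degree_dvd (K := ℚ) (L := IntermediateField.adjoin K {ζ})
      (x := IntermediateField.AdjoinSimple.gen K ζ) (Algebra.IsIntegral.isIntegral _)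
    have h2 := minpoly.algebraMap_eq (A := ℚ) (B := IntermediateField.adjoin K {ζ}) (B' := Ω)
      (algebraMap (IntermediateField.adjoin K {ζ}) Ω).injective
      (IntermediateField.AdjoinSimple.gen K ζ)
    rw [IntermediateField.AdjoinSimple.algebraMap_gen] at h2
    rw [← h2, ← Polynomial.cyclotomic_eq_minpoly_rat hζ hN.pos, Polynomial.natDegree_cyclotomic,
      Nat.totient_prime hN] at h1
    exact h1
  have hd3 : N - 1 ∣ (minpoly K ζ).natDegree := by
    rw [hd1] at hd2
    refine Nat.Coprime.dvd_of_dvd_mul_left ?_ hd2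
    have h1 : Nat.Coprime (N - 1) (N - 1 + 1) := by simp
    rwa [Nat.sub_add_cancel hN.one_le] at h1
  have hmin : Polynomial.cyclotomic N K = minpoly K ζ := by
    refine Polynomial.eq_of_monic_of_dvd_of_natDegree_le (minpoly.monic hζi)
      (Polynomial.cyclotomic.monic N K) hdvd ?_
    rw [hdeg]
    exact Nat.le_of_dvd (minpoly.natDegree_pos hζi) hd3
  have hirr : Irreducible (Polynomial.cyclotomic N K) := by
    rw [hmin]
    exact minpoly.irreducible hζi
  -- the automorphisms
  have hg : ∀ u : (ZMod N)ˣ, ∃ g : Ω ≃ₐ[K] Ω, g ζ = ζ ^ (u : ZMod N).val := by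
    intro u
    have hz := hζ.pow_of_coprime (u : ZMod N).val (ZMod.val_coe_unit_coprime u)
    have h1 := minpoly.eq_of_irreducible_of_monic hirr (hroot _ hz) (Polynomial.cyclotomic.monic N K)
    obtain ⟨g, hg⟩ := (Normal.minpoly_eq_iff_mem_orbit (F := K) Ω).1 (h1.symm.trans hmin)
    exact ⟨g, hg⟩
  choose g hg using hg
  -- the embeddings are determined by the image of `α`
  have hinj : ∀ σ τ : K →ₐ[ℚ] Ω, σ α = τ α → σ = τ := by
    intro σ τ h
    have htop : IntermediateField.adjoin ℚ {α} = ⊤ := by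
      have h1 := Module.finrank_mul_finrank ℚ (IntermediateField.adjoin ℚ {α}) K
      rw [hc] at h1
      rcases (Nat.dvd_prime hN).1 (Dvd.intro _ h1) with h2 | h2
      · exfalso
        have h3 := IntermediateField.finrank_eq_one_iff.1 h2
        rw [IntermediateField.adjoin_simple_eq_bot_iff] at h3
        obtain ⟨q, hq⟩ := IntermediateField.mem_bot.1 h3
        exact hα' q hq.symm
      · exact IntermediateField.eq_of_le_of_finrank_eq le_top (by
          rw [h2, IntermediateField.finrank_top', hc])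
    ext x
    have hx : x ∈ IntermediateField.adjoin ℚ {α} := by
      rw [htop]
      trivial
    induction hx using IntermediateField.adjoin_induction with
    | mem x hx =>
      rw [Set.mem_singleton_iff] at hx
      rw [hx, h]
    | algebraMap q => rw [σ.commutes, τ.commutes]
    | add x y _ _ hx hy => rw [map_add, map_add, hx, hy]
    | inv x _ hx => rw [map_inv₀, map_inv₀, hx]
    | mul x y _ _ hx hy => rw [map_mul, map_mul, hx, hy]
  have hα0 : σ₀ α ≠ 0 := by
    intro h
    have h1 : α = 0 := (map_eq_zero σ₀).1 h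
    exact hα' 0 (by rw [h1, map_zero])
  have hexp : ∀ σ : K →ₐ[ℚ] Ω, ∃ i < N, σ α = σ₀ α * ζ ^ i := by
    intro σ
    have h1 : (σ α / σ₀ α) ^ N = 1 := by
      rw [div_pow, ← map_pow, ← map_pow, hα, σ.commutes, σ₀.commutes, div_self]
      rw [← σ₀.commutes, ← hα, map_pow]
      exact pow_ne_zero _ hα0
    obtain ⟨i, hi, hi'⟩ := hζ.eq_pow_of_pow_eq_one h1
    exact ⟨i, hi, by rw [hi', mul_div_cancel₀ _ hα0]⟩
  refine simple_sharp (I := (ZMod N)ˣ) (by rw [hcardH]; exact hN.odd_of_ne_two hN2) trans_closure σ₀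
    (fun u => (g u).restrictScalars ℚ) ?_ ?_
  · intro u
    ext x
    exact (g u).commutes x
  · intro σ hσ τ hτ
    obtain ⟨i, hi, hi'⟩ := hexp σ
    obtain ⟨j, hj, hj'⟩ := hexp τ
    have hi0 : i ≠ 0 := by
      rintro rfl
      exact hσ (hinj _ _ (by rw [hi', pow_zero, mul_one]))
    have hj0 : j ≠ 0 := by
      rintro rfl
      exact hτ (hinj _ _ (by rw [hj', pow_zero, mul_one]))
    have hu : ∀ k : ℕ, k ≠ 0 → k < N → (k : ZMod N) ≠ 0 := by
      intro k hk0 hk h
      rw [ZMod.natCast_eq_zero_iff] at h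
      exact hk0 (Nat.eq_zero_of_dvd_of_lt h hk)
    have key : ∀ a b : ℕ, ζ ^ a = ζ ^ b ↔ (a : ZMod N) = b := by
      intro a b
      have h1 : IsOfFinOrder ζ := by
        rw [isOfFinOrder_iff_pow_eq_one]
        exact ⟨N, hN.pos, hζ.pow_eq_one⟩
      rw [h1.pow_eq_pow_iff_modEq, ← hζ.eq_orderOf, ZMod.natCast_eq_natCast_iff]
    have hval : ∀ u : (ZMod N)ˣ, ((g u).restrictScalars ℚ • σ = τ ↔ (u : ZMod N) * i = j) := by
      intro u
      have e1 : ((g u).restrictScalars ℚ • σ) α = σ₀ α * ζ ^ ((u : ZMod N).val * i) := by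
        change g u (σ α) = _
        rw [hi', map_mul, map_pow, hg, ← pow_mul]
        congr 1
        exact (g u).commutes α
      constructor
      · intro h
        rw [h, hj'] at e1
        have e2 := (key _ _).1 (mul_left_cancel₀ hα0 e1).symm
        rw [Nat.cast_mul, ZMod.natCast_zmod_val] at e2
        exact e2
      · intro h
        apply hinj
        rw [e1, hj']
        congr 1
        rw [key, Nat.cast_mul, ZMod.natCast_zmod_val]
        exact h
    refine ⟨Units.mk0 ((j : ZMod N) * (i : ZMod N)⁻¹) (mul_ne_zero (hu j hj0 hj)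
      (inv_ne_zero (hu i hi0 hi))), ?_, ?_⟩
    · refine (hval _).2 ?_
      rw [Units.val_mk0, inv_mul_cancel_right₀ (hu i hi0 hi)]
    · intro u h
      have h := (hval u).1 h
      ext
      rw [Units.val_mk0, ← h, mul_inv_cancel_right₀ (hu i hi0 hi)]

end H88T8
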