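import Pool.Agent.H38.T1.Tw

/-!
ROW Tq (project MP_78d38b_T8, about 90 lines, elementary): squares modulo primes. `SqMod q x` is `∃ t : ℤ, (q : ℤ) ∣ x - t ^ 2` (`Pool/Agent/H38/T1/Tw.lean`).

PROOF. `SqMod q x ↔ IsSquare (x : ZMod q)` (`ZMod.intCast_zmod_eq_zero_iff_dvd`). rec8: quadratic reciprocity `ZMod.exists_sq_eq_prime_iff_of_mod_four_eq_one`. sq_neg8:
`ZMod.exists_sq_eq_neg_one_iff` and `l` odd. sq_mul8: both squares: the product is a square; both nonsquares: `legendreSym.mul`/`quadraticChar` is multiplicative: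
`(-1) * (-1) = 1` (`legendreSym.eq_one_iff'`, `legendreSym.eq_neg_one_iff`). sq_mul8': the other direction.
-/

set_option autoImplicit false
open scoped Classical
open H38T1 (SqMod)

namespace H88T8

private theorem tq_iff {q : ℕ} (x : ℤ) : SqMod q x ↔ IsSquare (x : ZMod q) := by
  constructor
  · rintro ⟨t, ht⟩
    refine ⟨(t : ZMod q), ?_⟩
    have h1 := (ZMod.intCast_zmod_eq_zero_iff_dvd (x - t ^ 2) q).2 ht
    push_cast at h1
    rw [sub_eq_zero] at h1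
    rw [h1, pow_two]
  · rintro ⟨r, hr⟩
    obtain ⟨t, rfl⟩ := ZMod.intCast_surjective r
    refine ⟨t, ?_⟩
    rw [← ZMod.intCast_zmod_eq_zero_iff_dvd]
    push_cast
    rw [hr]
    ring

theorem rec8 {q l : ℕ} (hq : q.Prime) (hl : l.Prime) (hq2 : q ≠ 2) (hl4 : l % 4 = 1)
    (hne : q ≠ l) : SqMod q (l : ℤ) ↔ SqMod l (q : ℤ) := by
  have : Fact q.Prime := ⟨hq⟩
  have : Fact l.Prime := ⟨hl⟩
  rw [tq_iff, tq_iff, Int.cast_natCast, Int.cast_natCast]
  exact (ZMod.exists_sq_eq_prime_iff_of_mod_four_eq_one hl4 hq2).symm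

theorem sq_neg8 {l : ℕ} (hl : l.Prime) (h2 : l ≠ 2) (h : SqMod l (-1)) : l % 4 = 1 := by
  have : Fact l.Prime := ⟨hl⟩
  rw [tq_iff] at h
  push_cast at h
  rw [ZMod.exists_sq_eq_neg_one_iff] at h
  have h3 := hl.eq_two_or_odd
  omega

theorem sq_mul8 {q : ℕ} (hq : q.Prime) (h2 : q ≠ 2) {x y : ℤ} (hx : ¬ (q : ℤ) ∣ x)
    (hy : ¬ (q : ℤ) ∣ y) (h : SqMod q x ↔ SqMod q y) : SqMod q (x * y) := by
  have : Fact q.Prime := ⟨hq⟩
  rw [tq_iff, tq_iff] at h
  rw [tq_iff]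
  rw [← ZMod.intCast_zmod_eq_zero_iff_dvd] at hx hy
  by_cases hs : IsSquare (x : ZMod q)
  · rw [Int.cast_mul]
    exact hs.mul (h.1 hs)
  · have h3 : ¬ IsSquare (y : ZMod q) := fun h4 => hs (h.2 h4)
    rw [← legendreSym.eq_neg_one_iff] at hs h3
    rw [← legendreSym.eq_one_iff q (by
      rw [Int.cast_mul]
      exact mul_ne_zero hx hy), legendreSym.mul, hs, h3]
    norm_num

theorem sq_mul8' {q : ℕ} (hq : q.Prime) {x y : ℤ} (hy : ¬ (q : ℤ) ∣ y) (h : SqMod q (x * y))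
    (h' : SqMod q y) : SqMod q x := by
  have : Fact q.Prime := ⟨hq⟩
  rw [tq_iff] at h h' ⊢
  rw [← ZMod.intCast_zmod_eq_zero_iff_dvd] at hy
  rw [Int.cast_mul] at h
  have h3 : (x : ZMod q) = (x : ZMod q) * (y : ZMod q) / (y : ZMod q) := by
    rw [mul_div_assoc, div_self hy, mul_one]
  rw [h3]
  exact h.div h'

end H88T8
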