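import Mathlib

/-!
ROW Ab (project MP_78d38b_T8, about 120 lines): the determinant of an idempotent matrix over a local ring.

PROOF. Let `F = det (1 - A + X • A)` over `R[X]` (`Matrix.map` with `Polynomial.C`), so `F.eval t = det (1 - A + t • A)` (`RingHom.map_det` for `Polynomial.evalRingHom`),
`F.eval 1 = 1`. For all commutative `R`-algebras and elements `t, s`: `(1 - A + t A)(1 - A + s A) = 1 - A + t s A` because `A^2 = A`, so
`F(t) F(s) = F(t s)`; use it for `t = X`, `s = Y` in `R[X][Y]` (`Polynomial (Polynomial R)`; `F` mapped in two ways): with `F = ∑ c_i X^i`: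
`(∑ c_i X^i)(∑ c_j Y^j) = ∑ c_i X^i Y^i`. Coefficients: `c_i c_j = 0` for `i ≠ j`, `c_i^2 = c_i`. In a local ring every idempotent is `0` or `1`
(`IsLocalRing`: `c` or `1 - c` is a unit, `c (1 - c) = 0`). `∑ c_i = F.eval 1 = 1 ≠ 0`, so some `c_r = 1`, and then `c_j = c_r c_j = 0` for
`j ≠ r`: `F = X^r`; the degree of `F` is at most the size of the matrix (`Polynomial.natDegree_det_X_add_C_le`-like or expand the
determinant), so `r ≤ card n`. (Alternative: over a local ring the projection has a basis of `range A ⊕ ker A`, both free.)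
-/

set_option autoImplicit false
open scoped Classical

namespace H88T8

private lemma Ab_ev {R S : Type*} [CommRing R] [CommRing S] {n : Type*} [Fintype n] [DecidableEq n]
    (A : Matrix n n R) (f : R →+* S) (t : S) :
    ((Polynomial.X : Polynomial R) • A.map Polynomial.C + (1 - A).map Polynomial.C).det.eval₂ f t
      = (1 - A.map f + t • A.map f).det := by
  rw [← Polynomial.coe_eval₂RingHom, RingHom.map_det]
  congr 1
  ext i j
  rw [RingHom.mapMatrix_apply, Matrix.map_apply, Matrix.add_apply, Matrix.smul_apply,
    Matrix.map_apply, Matrix.map_apply, Matrix.add_apply, Matrix.smul_apply, Matrix.sub_apply,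
    Matrix.sub_apply, Matrix.map_apply, smul_eq_mul, smul_eq_mul, Polynomial.coe_eval₂RingHom,
    Polynomial.eval₂_add, Polynomial.eval₂_mul, Polynomial.eval₂_X, Polynomial.eval₂_C,
    Polynomial.eval₂_C, map_sub, Matrix.one_apply, Matrix.one_apply]
  split_ifs
  · rw [map_one]
    ring
  · rw [map_zero]
    ring

private lemma Ab_mul {S : Type*} [CommRing S] {n : Type*} [Fintype n] [DecidableEq n]
    (A : Matrix n n S) (hA : A * A = A) (t s : S) :
    (1 - A + t • A).det * (1 - A + s • A).det = (1 - A + (t * s) • A).det := by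
  rw [← Matrix.det_mul]
  congr 1
  simp only [add_mul, sub_mul, mul_add, mul_sub, one_mul, mul_one, Matrix.mul_smul,
    Matrix.smul_mul, hA, smul_smul]
  rw [mul_comm s t]
  abel

theorem det_idem {R : Type*} [CommRing R] [IsLocalRing R] {n : Type*} [Fintype n] [DecidableEq n]
    (A : Matrix n n R) (hA : A * A = A) : ∃ r : ℕ, r ≤ Fintype.card n ∧
      ∀ t : R, (1 - A + t • A).det = t ^ r := by
  obtain ⟨F, hF⟩ : ∃ F : Polynomial R, F =
      ((Polynomial.X : Polynomial R) • A.map Polynomial.C + (1 - A).map Polynomial.C).det :=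
    ⟨_, rfl⟩
  have hdeg : F.natDegree ≤ Fintype.card n := by
    rw [hF]
    exact Polynomial.natDegree_det_X_add_C_le A (1 - A)
  have hev : ∀ t : R, F.eval t = (1 - A + t • A).det := by
    intro t
    have h := Ab_ev A (RingHom.id R) t
    rw [← hF] at h
    have e : A.map (RingHom.id R) = A := by
      ext i j
      rfl
    rw [e] at h
    exact h
  -- the functional equation
  have hmul : ∀ j, F * Polynomial.C (F.coeff j) = Polynomial.C (F.coeff j) * Polynomial.X ^ j := by
    have hA' : A.map (Polynomial.C.comp Polynomial.C : R →+* Polynomial (Polynomial R)) *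
        A.map (Polynomial.C.comp Polynomial.C : R →+* Polynomial (Polynomial R)) =
        A.map (Polynomial.C.comp Polynomial.C : R →+* Polynomial (Polynomial R)) := by
      rw [← Matrix.map_mul, hA]
    have h := Ab_mul _ hA' (Polynomial.C Polynomial.X) Polynomial.X
    rw [← Ab_ev, ← Ab_ev, ← Ab_ev, ← hF] at h
    have e1 : F.eval₂ (Polynomial.C.comp Polynomial.C : R →+* Polynomial (Polynomial R))
        (Polynomial.C Polynomial.X) = Polynomial.C F := by
      rw [← Polynomial.hom_eval₂, Polynomial.eval₂_C_X]
    have e2 : F.eval₂ (Polynomial.C.comp Polynomial.C : R →+* Polynomial (Polynomial R))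
        Polynomial.X = F.map Polynomial.C := rfl
    rw [e1, e2] at h
    intro j
    have h2 := congrArg (fun p => Polynomial.coeff p j) h
    rw [Polynomial.coeff_C_mul, Polynomial.coeff_map, Polynomial.eval₂_eq_sum_range,
      Polynomial.finsetSum_coeff] at h2
    rw [h2]
    have h3 : ∀ i ∈ Finset.range (F.natDegree + 1),
        ((Polynomial.C.comp Polynomial.C : R →+* Polynomial (Polynomial R)) (F.coeff i) *
          (Polynomial.C Polynomial.X * Polynomial.X) ^ i).coeff j =
        if i = j then Polynomial.C (F.coeff i) * Polynomial.X ^ i else 0 := by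
      intro i _
      rw [mul_pow, ← Polynomial.C_pow, RingHom.comp_apply, ← mul_assoc, ← Polynomial.C_mul,
        Polynomial.coeff_C_mul, Polynomial.coeff_X_pow]
      by_cases hij : i = j
      · rw [if_pos hij, if_pos hij.symm, mul_one]
      · rw [if_neg hij, if_neg (fun h => hij h.symm), mul_zero]
    rw [Finset.sum_congr rfl h3, Finset.sum_ite_eq']
    split_ifs with hj
    · rfl
    · rw [Polynomial.coeff_eq_zero_of_natDegree_lt (by
        rw [Finset.mem_range] at hj
        omega), Polynomial.C_0, zero_mul]
  -- a unit coefficient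
  have hr : ∃ r, IsUnit (F.coeff r) := by
    by_contra hcon
    have h1 : F.eval 1 = 1 := by
      rw [hev, one_smul, sub_add_cancel, Matrix.det_one]
    rw [Polynomial.eval_eq_sum_range] at h1
    have h2 : (1 : R) ∈ IsLocalRing.maximalIdeal R := by
      rw [← h1]
      refine Ideal.sum_mem _ fun i _ => ?_
      rw [one_pow, mul_one, IsLocalRing.mem_maximalIdeal]
      exact fun hu => hcon ⟨i, hu⟩
    exact (IsLocalRing.mem_maximalIdeal _).1 h2 isUnit_one
  obtain ⟨r, hr⟩ := hr
  have hFr : F = Polynomial.X ^ r := by
    have h1 := hmul r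
    rw [mul_comm F] at h1
    exact (hr.map Polynomial.C).mul_left_cancel h1
  refine ⟨r, ?_, fun t => ?_⟩
  · rw [hFr, Polynomial.natDegree_X_pow] at hdeg
    exact hdeg
  · rw [← hev, hFr, Polynomial.eval_pow, Polynomial.eval_X]

end H88T8
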