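import Pool.Agent.H88.T8.Ag
import Pool.Agent.H88.T7.Ai

/-!
ROW Ai (project MP_78d38b_T8, about 230 lines): the functionals `Ψ` on `SC ℚ`. Modification of the proved file
`Pool/Agent/H88/T7/Ai.lean` (there one class `Δ` in place of the group `QK`).

PROOF. Everything over `ℚ`. `b₀ = sc (β : ℚ)`, `d₀ = sc (1 - 64 β : ℚ)`. Choose `q' ∈ Qb`, `q ∈ Qa` (`hD.nb`, `hD.na`) and the places `w'`, `w` above them: `eo w' b₀ = 1`,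
`eo w' d₀ = 0`, `eo w b₀ = 0`, `eo w d₀ = 1` (`eo_int7`; coprime, squarefree), `eo w' = eo w = 0` on `QK` (`hD.quad`, `hD.co`).
(2) `d ∈ QK`, `d ∈ XX (L8 ℚ ..)`: `d = 0`: its order is even at all places outside `B` (`hD.quad`) and at the places of `B` since these are not in `Sg ∪ P'`
(`hD.co`, `hS.nB`); positive: `ns_rat`. `d ∈ QK`, `d ∈ XX'`: even order everywhere, so `d = sc (± 1)`, primary at two, so `d = 0` (see the proof in `H88/T7/Ai.lean`).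
sepP8: `r ∈ XX`, `r ≠ 0, b₀`. If `r = x b₀ + y d₀ + d`, `d ∈ QK`: `eo w r = 0` (`w ∈ P`, not in `Sg ∪ P'`) gives `y = 0`; `d = r - x b₀ ∈ XX` (`sub8`, `beta_mem8`), so `d = 0` and
`r ∈ {0, b₀}`, a contradiction. So `d₀` is not in the span of `QK`, `b₀`, `r - d₀` (`QK` as a `ZMod 2`-submodule: `AddSubgroup.toZModSubmodule 2 QK`) and there is a linear
functional vanishing on this span with the value one at `d₀` (`Submodule.exists_le_ker_of_notMem`), hence at `r`. sepP8': the same with `w'`, `XX'`.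
sepF8: `Ψ = ∑ q ∈ T, c q • eo (w q)` (sum over the primes `q` dividing `β (1 - 64 β)`, `w q` the place above `q`) with `c q = ε q` for `q ∈ Q0`,
`c q' = 1 + ∑ of ε q over the q ∈ Q0 dividing β`, `c q = 1 + ∑ of ε q over the q ∈ Q0 dividing 1 - 64 β` for the chosen `q' ∈ Qb`, `q ∈ Qa`, and `c = 0` at
the other members of `Qa ∪ Qb`. It vanishes on `QK`, `sc (-1)` and on `sc p` for `p ∤ β (1 - 64 β)`; `eo (w q) (sc q) = 1`, `eo (w q) (sc q₁) = 0` for different primes;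
`Ψ b₀ = ∑ c q` over the `q ∣ β` `= 1`, `Ψ d₀ = 1`. (`H38T1.eo_add`.)
-/

set_option autoImplicit false
set_option linter.unusedSectionVars false
open scoped Classical

open WithZero NumberField IsDedekindDomain H38RT H88T7
open H38T1 (SC sc rep eo la si Pri tp OddP LD XX XX' NS ov rp SqMod)

namespace H88T8

variable {K : Type} [Field K] [NumberField K] {B : Finset ℕ} {QK : AddSubgroup (SC ℚ)}
  {E0 : Set (SC K)} {β : ℤ} {Qa Qb Pp Pp' : Finset ℕ}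

lemma Ai8_cop {p : ℕ} (hp : p.Prime) (h1 : (p : ℤ) ∣ β) (h2 : (p : ℤ) ∣ 1 - 64 * β) : False := by
  have h3 : (p : ℤ) ∣ 1 := by
    have h4 := dvd_add h2 (Dvd.dvd.mul_left h1 64)
    have h5 : 1 - 64 * β + 64 * β = 1 := by ring
    rwa [h5] at h4
  exact (Nat.prime_iff_prime_int.1 hp).not_isUnit (isUnit_of_dvd_one h3)

lemma Ai8_w (hD : Dat8 K B QK E0 β Qa Qb) : ∃ w : HeightOneSpectrum (𝓞 ℚ), rp w ∈ Qb ∧
    eo w (sc (β : ℚ)) = 1 ∧ eo w (sc ((1 - 64 * β : ℤ) : ℚ)) = 0 ∧ ∀ d ∈ QK, eo w d = 0 := by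
  obtain ⟨q, hq⟩ := hD.nb
  obtain ⟨hqp, hqd⟩ := hD.pb q hq
  obtain ⟨w, hw, -⟩ := ov_rat hqp
  have hsq : Squarefree β := hD.sqf.squarefree_of_dvd (dvd_mul_right _ _)
  have hsq' : Squarefree (1 - 64 * β) := hD.sqf.squarefree_of_dvd (dvd_mul_left _ _)
  have hwd : (rp w : ℤ) ∣ β := by rw [hw]; exact hqd
  refine ⟨w, by rw [hw]; exact hq, Ai_eo1 hsq hwd,
    Ai_eo0 hsq'.ne_zero (fun h => Ai8_cop (H38T1.rp_prime w) hwd h), fun d hd => ?_⟩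
  exact hD.quad d hd w (hD.co _ (H38T1.rp_prime w) (Dvd.dvd.mul_right hwd _))

lemma Ai8_w' (hD : Dat8 K B QK E0 β Qa Qb) : ∃ w : HeightOneSpectrum (𝓞 ℚ), rp w ∈ Qa ∧
    eo w (sc (β : ℚ)) = 0 ∧ eo w (sc ((1 - 64 * β : ℤ) : ℚ)) = 1 ∧ ∀ d ∈ QK, eo w d = 0 := by
  obtain ⟨q, hq⟩ := hD.na
  obtain ⟨hqp, hqd⟩ := hD.pa q hq
  obtain ⟨w, hw, -⟩ := ov_rat hqp
  have hsq : Squarefree β := hD.sqf.squarefree_of_dvd (dvd_mul_right _ _)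
  have hsq' : Squarefree (1 - 64 * β) := hD.sqf.squarefree_of_dvd (dvd_mul_left _ _)
  have hwd : (rp w : ℤ) ∣ 1 - 64 * β := by rw [hw]; exact hqd
  refine ⟨w, by rw [hw]; exact hq,
    Ai_eo0 hsq.ne_zero (fun h => Ai8_cop (H38T1.rp_prime w) h hwd), Ai_eo1 hsq' hwd, fun d hd => ?_⟩
  exact hD.quad d hd w (hD.co _ (H38T1.rp_prime w) (Dvd.dvd.mul_left hwd _))

lemma Ai8_memP (hD : Dat8 K B QK E0 β Qa Qb) (hS : St8 K B β Pp Pp')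
    {v : HeightOneSpectrum (𝓞 ℚ)} :
    v ∈ (L8 ℚ β Qa Qb Pp Pp').P ↔ rp v ∈ (Qa : Set ℕ) ∪ (Pp : Set ℕ) := by
  refine H38T1.mem_ov ?_
  rintro q (hq | hq)
  · exact (hD.pa q (Finset.mem_coe.1 hq)).1
  · exact (hS.tot q (Finset.mem_union_left _ (Finset.mem_coe.1 hq))).1

lemma Ai8_memP' (hD : Dat8 K B QK E0 β Qa Qb) (hS : St8 K B β Pp Pp')
    {v : HeightOneSpectrum (𝓞 ℚ)} :
    v ∈ (L8 ℚ β Qa Qb Pp Pp').P' ↔ rp v ∈ (Qb : Set ℕ) ∪ (Pp' : Set ℕ) := by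
  refine H38T1.mem_ov ?_
  rintro q (hq | hq)
  · exact (hD.pb q (Finset.mem_coe.1 hq)).1
  · exact (hS.tot q (Finset.mem_union_right _ (Finset.mem_coe.1 hq))).1

lemma Ai8_memS {v : HeightOneSpectrum (𝓞 ℚ)} :
    v ∈ (L8 ℚ β Qa Qb Pp Pp').Sg ↔ rp v ∈ Q0 β Qa Qb := by
  refine H38T1.mem_ov ?_
  rintro q hq
  exact hq.1.1

lemma Ai8_nB (hD : Dat8 K B QK E0 β Qa Qb) (hS : St8 K B β Pp Pp')
    {v : HeightOneSpectrum (𝓞 ℚ)} (hv : rp v ∈ B) : v ∉ (L8 ℚ β Qa Qb Pp Pp').Sg ∧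
      v ∉ (L8 ℚ β Qa Qb Pp Pp').P ∧ v ∉ (L8 ℚ β Qa Qb Pp Pp').P' := by
  refine ⟨fun h => ?_, fun h => ?_, fun h => ?_⟩
  · have h1 := Ai8_memS.1 h
    exact hD.co _ h1.1.1 h1.1.2 hv
  · rcases (Ai8_memP hD hS).1 h with h | h
    · obtain ⟨h1, h2⟩ := hD.pa _ (Finset.mem_coe.1 h)
      exact hD.co _ h1 (Dvd.dvd.mul_left h2 _) hv
    · exact hS.nB _ (Finset.mem_union_left _ (Finset.mem_coe.1 h)) hv
  · rcases (Ai8_memP' hD hS).1 h with h | h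
    · obtain ⟨h1, h2⟩ := hD.pb _ (Finset.mem_coe.1 h)
      exact hD.co _ h1 (Dvd.dvd.mul_right h2 _) hv
    · exact hS.nB _ (Finset.mem_union_right _ (Finset.mem_coe.1 h)) hv

lemma Ai8_XX (hD : Dat8 K B QK E0 β Qa Qb) (hS : St8 K B β Pp Pp') {d : SC ℚ} (hd : d ∈ QK)
    (h : d ∈ XX (L8 ℚ β Qa Qb Pp Pp')) : d = 0 := by
  refine ns_rat (S := ∅) ⟨fun v => ?_, fun v hv => absurd hv (Set.notMem_empty v), h.2.2.2 rfl⟩
  by_cases hv : rp v ∈ B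
  · obtain ⟨n1, n2, n3⟩ := Ai8_nB hD hS hv
    exact h.1 v n1 n3
  · exact hD.quad d hd v hv

lemma Ai8_XX' (hD : Dat8 K B QK E0 β Qa Qb) (hS : St8 K B β Pp Pp') {d : SC ℚ} (hd : d ∈ QK)
    (h : d ∈ XX' (L8 ℚ β Qa Qb Pp Pp')) : d = 0 := by
  have h1 : ∀ v, eo v d = 0 := by
    intro v
    by_cases hv : rp v ∈ B
    · obtain ⟨n1, n2, n3⟩ := Ai8_nB hD hS hv
      exact h.1 v n1 n2
    · exact hD.quad d hd v hv
  rcases Ai_unit h1 with h2 | h2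
  · exact h2
  · exfalso
    obtain ⟨v, hv, -⟩ := ov_rat Nat.prime_two
    have h3 := h.2.1 v (fun h' => H38T1.oddP_iff.1 h' hv)
    rw [h2] at h3
    exact Ai_two v hv h3

lemma Ai8_lin {b d r : SC ℚ} (H Q : AddSubgroup (SC ℚ)) (f : SC ℚ →+ ZMod 2) (fb : f b = 0)
    (fd : f d = 1) (fe : ∀ e ∈ Q, f e = 0) (fr : f r = 0) (hb : b ∈ H) (hr : r ∈ H)
    (he : ∀ e ∈ Q, e ∈ H → e = 0) (r0 : r ≠ 0) (rb : r ≠ b) :
    ∃ Ψ : SC ℚ →+ ZMod 2, (∀ e ∈ Q, Ψ e = 0) ∧ Ψ b = 0 ∧ Ψ d = 1 ∧ Ψ r = 1 := by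
  have key : r ∉ Submodule.span (ZMod 2) ({b, d} : Set (SC ℚ)) ⊔
      AddSubgroup.toZModSubmodule 2 Q := by
    intro hmem
    obtain ⟨s, hs, e, heQ, hse⟩ := Submodule.mem_sup.1 hmem
    have heQ' : e ∈ Q := heQ
    obtain ⟨x, y, hxy⟩ := Submodule.mem_span_pair.1 hs
    have e1 : ∀ (u : ZMod 2) (c : SC ℚ), f (u • c) = u * f c := by
      intro u c
      rcases Ai_z2 u with rfl | rfl
      · rw [zero_smul, map_zero, zero_mul]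
      · rw [one_smul, one_mul]
    have hf : f r = y := by
      rw [← hse, ← hxy, map_add, map_add, e1, e1, fb, fd, fe e heQ']
      ring
    rw [fr] at hf
    rw [← hf, zero_smul, add_zero] at hxy
    have hxH : x • b ∈ H := by
      rcases Ai_z2 x with rfl | rfl
      · rw [zero_smul]
        exact H.zero_mem
      · rwa [one_smul]
    have heH : e ∈ H := by
      have h1 : e = r - x • b := by rw [← hse, ← hxy]; abel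
      rw [h1]
      exact H.sub_mem hr hxH
    have he0 := he e heQ' heH
    rw [he0, add_zero, ← hxy] at hse
    rcases Ai_z2 x with rfl | rfl
    · rw [zero_smul] at hse
      exact r0 hse.symm
    · rw [one_smul] at hse
      exact rb hse.symm
  obtain ⟨g, hg, hk⟩ := Submodule.exists_le_ker_of_notMem key
  have hk1 : Submodule.span (ZMod 2) ({b, d} : Set (SC ℚ)) ≤ LinearMap.ker g := le_sup_left.trans hk
  have hk2 : AddSubgroup.toZModSubmodule 2 Q ≤ LinearMap.ker g := le_sup_right.trans hk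
  have gb : g b = 0 := LinearMap.mem_ker.1 (hk1 (Submodule.subset_span (by simp)))
  have gd : g d = 0 := LinearMap.mem_ker.1 (hk1 (Submodule.subset_span (by simp)))
  have ge : ∀ e ∈ Q, g e = 0 := by
    intro e he'
    have h1 : e ∈ AddSubgroup.toZModSubmodule 2 Q := he'
    exact LinearMap.mem_ker.1 (hk2 h1)
  have gr : g r = 1 := (Ai_z2 _).resolve_left hg
  refine ⟨f + g.toAddMonoidHom, ?_, ?_, ?_, ?_⟩
  · intro e he'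
    change f e + g e = 0
    rw [fe e he', ge e he', add_zero]
  · change f b + g b = 0
    rw [fb, gb, add_zero]
  · change f d + g d = 1
    rw [fd, gd, add_zero]
  · change f r + g r = 1
    rw [fr, gr, zero_add]

theorem sepP8 (hD : Dat8 K B QK E0 β Qa Qb) (hS : St8 K B β Pp Pp') {r : SC ℚ}
    (hr : r ∈ XX (L8 ℚ β Qa Qb Pp Pp')) (h0 : r ≠ 0) (hb : r ≠ sc (β : ℚ)) :
    ∃ Ψ : SC ℚ →+ ZMod 2, (∀ d ∈ QK, Ψ d = 0) ∧ Ψ (sc (β : ℚ)) = 0 ∧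
      Ψ (sc ((1 - 64 * β : ℤ) : ℚ)) = 1 ∧ Ψ r = 1 := by
  obtain ⟨w, hw, e1, e2, e3⟩ := Ai8_w' hD
  obtain ⟨H, hH⟩ := sub8 (dat8_rat hD) (st8_rat hS)
  have hm : ∀ c, c ∈ H ↔ c ∈ XX (L8 ℚ β Qa Qb Pp Pp') := fun c => by rw [← hH]; rfl
  obtain ⟨hwp, hwd⟩ := hD.pa _ hw
  have hwS : w ∉ (L8 ℚ β Qa Qb Pp Pp').Sg := fun h => (Ai8_memS.1 h).2.1 hw
  have hwP : w ∉ (L8 ℚ β Qa Qb Pp Pp').P' := by
    intro h
    rcases (Ai8_memP' hD hS).1 h with h | h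
    · exact Ai8_cop hwp (hD.pb _ (Finset.mem_coe.1 h)).2 hwd
    · exact hS.ndvd _ (Finset.mem_union_right _ (Finset.mem_coe.1 h))
        (Dvd.dvd.mul_left (Dvd.dvd.mul_left hwd _) _)
  exact Ai8_lin H QK (Ai_eh w) e1 e2 e3 (hr.1 w hwS hwP)
    ((hm _).2 (beta_mem8 (dat8_rat hD) (st8_rat hS))) ((hm _).2 hr)
    (fun e he h => Ai8_XX hD hS he ((hm _).1 h)) h0 hb

theorem sepP8_0 (hD : Dat8 K B QK E0 β Qa Qb) : ∃ Ψ : SC ℚ →+ ZMod 2, (∀ d ∈ QK, Ψ d = 0) ∧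
    Ψ (sc (β : ℚ)) = 0 ∧ Ψ (sc ((1 - 64 * β : ℤ) : ℚ)) = 1 := by
  obtain ⟨w, -, e1, e2, e3⟩ := Ai8_w' hD
  exact ⟨Ai_eh w, e3, e1, e2⟩

theorem sepP8' (hD : Dat8 K B QK E0 β Qa Qb) (hS : St8 K B β Pp Pp') {r : SC ℚ}
    (hr : r ∈ XX' (L8 ℚ β Qa Qb Pp Pp')) (h0 : r ≠ 0) (hd : r ≠ sc ((1 - 64 * β : ℤ) : ℚ)) :
    ∃ Ψ : SC ℚ →+ ZMod 2, (∀ d ∈ QK, Ψ d = 0) ∧ Ψ (sc (β : ℚ)) = 1 ∧
      Ψ (sc ((1 - 64 * β : ℤ) : ℚ)) = 0 ∧ Ψ r = 1 := by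
  obtain ⟨w, hw, e1, e2, e3⟩ := Ai8_w hD
  obtain ⟨H, hH⟩ := sub8' (dat8_rat hD) (st8_rat hS)
  have hm : ∀ c, c ∈ H ↔ c ∈ XX' (L8 ℚ β Qa Qb Pp Pp') := fun c => by rw [← hH]; rfl
  obtain ⟨hwp, hwd⟩ := hD.pb _ hw
  have hwS : w ∉ (L8 ℚ β Qa Qb Pp Pp').Sg := fun h => (Ai8_memS.1 h).2.2 hw
  have hwP : w ∉ (L8 ℚ β Qa Qb Pp Pp').P := by
    intro h
    rcases (Ai8_memP hD hS).1 h with h | h
    · exact Ai8_cop hwp hwd (hD.pa _ (Finset.mem_coe.1 h)).2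
    · exact hS.ndvd _ (Finset.mem_union_left _ (Finset.mem_coe.1 h))
        (Dvd.dvd.mul_left (Dvd.dvd.mul_right hwd _) _)
  obtain ⟨Ψ, h1, h2, h3, h4⟩ := Ai8_lin H QK (Ai_eh w) e2 e1 e3 (hr.1 w hwS hwP)
    ((hm _).2 (disc_mem8 (dat8_rat hD) (st8_rat hS))) ((hm _).2 hr)
    (fun e he h => Ai8_XX' hD hS he ((hm _).1 h)) h0 hd
  exact ⟨Ψ, h1, h3, h2, h4⟩

theorem sepP8'_0 (hD : Dat8 K B QK E0 β Qa Qb) : ∃ Ψ : SC ℚ →+ ZMod 2, (∀ d ∈ QK, Ψ d = 0) ∧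
    Ψ (sc (β : ℚ)) = 1 ∧ Ψ (sc ((1 - 64 * β : ℤ) : ℚ)) = 0 := by
  obtain ⟨w, -, e1, e2, e3⟩ := Ai8_w hD
  exact ⟨Ai_eh w, e3, e1, e2⟩

/-- A multiple of a functional. -/
noncomputable def Ai8_sm (x : ZMod 2) (f : SC ℚ →+ ZMod 2) : SC ℚ →+ ZMod 2 :=
  (AddMonoidHom.mulLeft x).comp f

lemma Ai8_sm_ap (x : ZMod 2) (f : SC ℚ →+ ZMod 2) (c : SC ℚ) : Ai8_sm x f c = x * f c := rfl

lemma Ai8_dbl (x : ZMod 2) : x + (1 + x) = 1 := by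
  revert x
  decide

lemma Ai8_prime {v : HeightOneSpectrum (𝓞 ℚ)} {p : ℕ} (hp : p.Prime) :
    eo v (sc (p : ℚ)) = if rp v = p then 1 else 0 := by
  have hpi : Prime (p : ℤ) := Nat.prime_iff_prime_int.1 hp
  by_cases h : rp v = p
  · rw [if_pos h]
    have h1 := Ai_eo1 (v := v) (m := (p : ℤ)) hpi.squarefree (by rw [h])
    rwa [Int.cast_natCast] at h1
  · rw [if_neg h]
    have h1 := Ai_eo0 (v := v) (m := (p : ℤ)) hpi.ne_zero (fun h' => h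
      ((Nat.prime_dvd_prime_iff_eq (H38T1.rp_prime v) hp).1 (by exact_mod_cast h')))
    rwa [Int.cast_natCast] at h1

/-- Prescribed values at the primes of `Q0`. -/
theorem sepF8 (hD : Dat8 K B QK E0 β Qa Qb) (ε : ℕ → ZMod 2) :
    ∃ Ψ : SC ℚ →+ ZMod 2, (∀ d ∈ QK, Ψ d = 0) ∧ Ψ (sc (β : ℚ)) = 1 ∧
      Ψ (sc ((1 - 64 * β : ℤ) : ℚ)) = 1 ∧ Ψ (sc (-1 : ℚ)) = 0 ∧
      ∀ q ∈ Q0 β Qa Qb, Ψ (sc (q : ℚ)) = ε q := by
  obtain ⟨w, hw, e1, e2, e3⟩ := Ai8_w hD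
  obtain ⟨w', hw', e1', e2', e3'⟩ := Ai8_w' hD
  have hu : ∀ v : HeightOneSpectrum (𝓞 ℚ), eo v (sc (-1 : ℚ)) = 0 := by
    intro v
    have h1 := Ai_eo0 (v := v) (m := -1) (by norm_num) (fun h =>
      (Nat.prime_iff_prime_int.1 (H38T1.rp_prime v)).not_isUnit (isUnit_of_dvd_unit h (by decide)))
    have h2 : ((-1 : ℤ) : ℚ) = -1 := by norm_num
    rwa [h2] at h1
  have hex : ∀ q : ℕ, ∃ v : HeightOneSpectrum (𝓞 ℚ), q.Prime → rp v = q := by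
    intro q
    by_cases hq : q.Prime
    · obtain ⟨v, hv, -⟩ := ov_rat hq
      exact ⟨v, fun _ => hv⟩
    · exact ⟨w, fun h => absurd h hq⟩
  choose pl hpl using hex
  have hne : β * (1 - 64 * β) ≠ 0 := hD.sqf.ne_zero
  obtain ⟨T, hT⟩ : ∃ T : Finset ℕ, ∀ q, q ∈ T ↔ q ∈ Q0 β Qa Qb := by
    refine ⟨(β * (1 - 64 * β)).natAbs.primeFactors.filter fun q => q ∉ Qa ∧ q ∉ Qb, fun q => ?_⟩
    rw [Finset.mem_filter, Nat.mem_primeFactors]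
    constructor
    · rintro ⟨⟨h1, h2, -⟩, h3, h4⟩
      exact ⟨⟨h1, Int.natCast_dvd.2 h2⟩, h3, h4⟩
    · rintro ⟨⟨h1, h2⟩, h3, h4⟩
      exact ⟨⟨h1, Int.natCast_dvd.1 h2, Int.natAbs_ne_zero.2 hne⟩, h3, h4⟩
  obtain ⟨Φ, hΦ⟩ : ∃ Φ : SC ℚ →+ ZMod 2, ∀ c, Φ c = ∑ q ∈ T, ε q * eo (pl q) c := by
    refine ⟨∑ q ∈ T, Ai8_sm (ε q) (Ai_eh (pl q)), fun c => ?_⟩
    rw [AddMonoidHom.finsetSum_apply]
    rfl
  have hΦQ : ∀ d ∈ QK, Φ d = 0 := by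
    intro d hd
    rw [hΦ]
    refine Finset.sum_eq_zero fun q hq => ?_
    have h1 := (hT q).1 hq
    have h2 : eo (pl q) d = 0 := hD.quad d hd _ (by
      rw [hpl q h1.1.1]
      exact hD.co q h1.1.1 h1.1.2)
    rw [h2, mul_zero]
  have hΦu : Φ (sc (-1 : ℚ)) = 0 := by
    rw [hΦ]
    refine Finset.sum_eq_zero fun q _ => ?_
    rw [hu, mul_zero]
  have hΦq : ∀ q ∈ Q0 β Qa Qb, Φ (sc (q : ℚ)) = ε q := by
    intro q hq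
    rw [hΦ, Finset.sum_eq_single q]
    · rw [Ai8_prime hq.1.1, if_pos (hpl q hq.1.1), mul_one]
    · intro q' hq' hne'
      have h1 := (hT q').1 hq'
      rw [Ai8_prime hq.1.1, if_neg (by rw [hpl q' h1.1.1]; exact hne'), mul_zero]
    · intro h
      exact absurd ((hT q).2 hq) h
  refine ⟨Φ + (Ai8_sm (1 + Φ (sc (β : ℚ))) (Ai_eh w) +
    Ai8_sm (1 + Φ (sc ((1 - 64 * β : ℤ) : ℚ))) (Ai_eh w')), ?_, ?_, ?_, ?_, ?_⟩
  · intro d hd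
    change Φ d + ((1 + Φ (sc (β : ℚ))) * eo w d +
      (1 + Φ (sc ((1 - 64 * β : ℤ) : ℚ))) * eo w' d) = 0
    rw [hΦQ d hd, e3 d hd, e3' d hd, mul_zero, mul_zero, add_zero, add_zero]
  · change Φ (sc (β : ℚ)) + ((1 + Φ (sc (β : ℚ))) * eo w (sc (β : ℚ)) +
      (1 + Φ (sc ((1 - 64 * β : ℤ) : ℚ))) * eo w' (sc (β : ℚ))) = 1
    rw [e1, e1', mul_one, mul_zero, add_zero]
    exact Ai8_dbl _
  · change Φ (sc ((1 - 64 * β : ℤ) : ℚ)) +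
      ((1 + Φ (sc (β : ℚ))) * eo w (sc ((1 - 64 * β : ℤ) : ℚ)) +
      (1 + Φ (sc ((1 - 64 * β : ℤ) : ℚ))) * eo w' (sc ((1 - 64 * β : ℤ) : ℚ))) = 1
    rw [e2, e2', mul_one, mul_zero, zero_add]
    exact Ai8_dbl _
  · change Φ (sc (-1 : ℚ)) + ((1 + Φ (sc (β : ℚ))) * eo w (sc (-1 : ℚ)) +
      (1 + Φ (sc ((1 - 64 * β : ℤ) : ℚ))) * eo w' (sc (-1 : ℚ))) = 0
    rw [hΦu, hu, hu, mul_zero, mul_zero, add_zero, add_zero]
  · intro q hq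
    change Φ (sc (q : ℚ)) + ((1 + Φ (sc (β : ℚ))) * eo w (sc (q : ℚ)) +
      (1 + Φ (sc ((1 - 64 * β : ℤ) : ℚ))) * eo w' (sc (q : ℚ))) = ε q
    have h1 : rp w ≠ q := fun h => hq.2.2 (h ▸ hw)
    have h2 : rp w' ≠ q := fun h => hq.2.1 (h ▸ hw')
    rw [hΦq q hq, Ai8_prime hq.1.1, Ai8_prime hq.1.1, if_neg h1, if_neg h2, mul_zero, mul_zero,
      add_zero, add_zero]

end H88T8
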