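import Pool.Agent.H88.T7.Aa
import Pool.Agent.H86.TL.Lz

/-!
ROW Ca (project MP_78d38b_T8): the local conditions at the multiplicative primes dividing the twisting
integer. Modification of `Mo_data`, `Mo_X`, `Mo_X'` in `Pool/Agent/H86/TL/Ly.lean` (there `K` is Galois of odd degree).
-/

set_option autoImplicit false
set_option linter.unusedSectionVars false
open scoped Classical

open WithZero NumberField IsDedekindDomain H38RT H88T7
open H38T1 (SC sc rep eo la si Pri tp OddP LD XX XX' NS ov rp SqMod)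

namespace H88T8

open H73IS

variable {K : Type} [Field K] [NumberField K]

theorem odd_int8 (v : HeightOneSpectrum (𝓞 K)) (he : v.asIdeal.ramificationIdx ℤ = 1) {x : ℤ} (hx : x ≠ 0) :
    Odd (log (Valued.v ((x : ℤ) : v.adicCompletion K))) ↔ Odd (padicValInt (rp v) x) := by
  rw [H86TL.log_int v hx, he, Nat.cast_one, one_mul, odd_neg]
  norm_cast

/-- The data at a multiplicative place with odd valuation. -/
theorem Mo_data8 {A B n u B' : ℤ} {v : HeightOneSpectrum (𝓞 K)}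
    (he : v.asIdeal.ramificationIdx ℤ = 1) (h2 : rp v ≠ 2) (hA : ¬ (rp v : ℤ) ∣ A)
    (hn : n = (rp v : ℤ) * u) (hB : B = (rp v : ℤ) * B')
    (hu : ¬ (rp v : ℤ) ∣ u * B') (hs : SqMod (rp v) (-(A * u * B'))) :
    Valued.v ((A : ℤ) : v.adicCompletion K) = 1 ∧ Valued.v ((B : ℤ) : v.adicCompletion K) < 1 ∧
    Odd (log (Valued.v ((B : ℤ) : v.adicCompletion K))) ∧
    Odd (log (Valued.v ((n : ℤ) : v.adicCompletion K))) ∧
    IsSquare (-((A : ℤ) : v.adicCompletion K) * ((B : ℤ) : v.adicCompletion K) *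
      ((n : ℤ) : v.adicCompletion K)) := by
  have hq := H38T1.rp_prime v
  have : Fact (rp v).Prime := ⟨hq⟩
  have hqZ : Prime ((rp v : ℕ) : ℤ) := Nat.prime_iff_prime_int.1 hq
  have hq0 : ((rp v : ℕ) : ℤ) ≠ 0 := hqZ.ne_zero
  have hu0 : u ≠ 0 := by
    rintro rfl
    exact hu (by rw [zero_mul]; exact dvd_zero _)
  have hB'0 : B' ≠ 0 := by
    rintro rfl
    exact hu (by rw [mul_zero]; exact dvd_zero _)
  have hu1 : ¬ (rp v : ℤ) ∣ u := fun h => hu (h.mul_right _)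
  have hB'1 : ¬ (rp v : ℤ) ∣ B' := fun h => hu (h.mul_left _)
  have hn0 : n ≠ 0 := by rw [hn]; exact mul_ne_zero hq0 hu0
  have hB0 : B ≠ 0 := by rw [hB]; exact mul_ne_zero hq0 hB'0
  have pv : ∀ y : ℤ, ¬ (rp v : ℤ) ∣ y → padicValInt (rp v) y = 0 := by
    intro y hy
    exact padicValInt.eq_zero_of_not_dvd hy
  have hself : padicValInt (rp v) ((rp v : ℕ) : ℤ) = 1 := by
    rw [padicValInt.of_nat, padicValNat_self]
  refine ⟨H86TL.val_int_one v hA, ?_, ?_, ?_, ?_⟩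
  · rw [H86TL.val_int_lt, hB]
    exact dvd_mul_right _ _
  · rw [odd_int8 v he hB0, hB, padicValInt.mul hq0 hB'0, pv _ hB'1, add_zero, hself]
    exact odd_one
  · rw [odd_int8 v he hn0, hn, padicValInt.mul hq0 hu0, pv _ hu1, add_zero, hself]
    exact odd_one
  · have h3 : ¬ (rp v : ℤ) ∣ -(A * u * B') := by
      rw [dvd_neg]
      intro h4
      rcases hqZ.dvd_or_dvd h4 with h5 | h5
      · rcases hqZ.dvd_or_dvd h5 with h6 | h6
        · exact hA h6
        · exact hu1 h6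
      · exact hB'1 h5
    have h4 := H86TL.sq_of_res h2 h3 hs
    obtain ⟨s, hs'⟩ := h4
    refine ⟨s * (((rp v : ℕ) : ℤ) : v.adicCompletion K), ?_⟩
    rw [hn, hB]
    push_cast at hs' ⊢
    linear_combination ((rp v : ℕ) : v.adicCompletion K) ^ 2 * hs'

theorem Mo_X8 {A B n u B' : ℤ} {v : HeightOneSpectrum (𝓞 K)}
    (he : v.asIdeal.ramificationIdx ℤ = 1) (h2 : rp v ≠ 2) (hB0 : B ≠ 0)
    (hA : ¬ (rp v : ℤ) ∣ A) (hn : n = (rp v : ℤ) * u) (hB : B = (rp v : ℤ) * B')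
    (hu : ¬ (rp v : ℤ) ∣ u * B') (hs : SqMod (rp v) (-(A * u * B'))) {d : K} (hd : d ≠ 0)
    (H : QPt (((A : ℤ) : v.adicCompletion K) * ((n : ℤ) : v.adicCompletion K))
      (((B : ℤ) : v.adicCompletion K) * ((n : ℤ) : v.adicCompletion K) ^ 2)
      (algebraMap K (v.adicCompletion K) d)) : (eo v (sc d) = 0 ∧ la v (sc d) = 0) ∨
    (eo v (sc d) = eo v (sc ((B : ℤ) : K)) ∧ la v (sc d) = la v (sc ((B : ℤ) : K))) := by
  obtain ⟨h3, h4, h5, h6, h7⟩ := Mo_data8 he h2 hA hn hB hu hs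
  have hdF := (map_ne_zero (algebraMap K (v.adicCompletion K))).2 hd
  rcases H86TL.loc_Mo (Pool.Agent.H10.hS_odd v (H86TL.two_notMem h2)) h3 h4 h5 h6 h7 hdF H with h | h
  · exact Or.inl (H86TL.triv_of_sq v (H86TL.oddP_of h2) hd h)
  · right
    rw [← H86TL.alg_int] at h
    exact H86TL.same_of_sq v (H86TL.oddP_of h2) (by exact_mod_cast hB0) hd h

theorem Mo_X8' {A B n u B' : ℤ} {v : HeightOneSpectrum (𝓞 K)}
    (he : v.asIdeal.ramificationIdx ℤ = 1) (h2 : rp v ≠ 2) (hB0 : B ≠ 0)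
    (hA : ¬ (rp v : ℤ) ∣ A) (hn : n = (rp v : ℤ) * u) (hB : B = (rp v : ℤ) * B')
    (hu : ¬ (rp v : ℤ) ∣ u * B') (hs : SqMod (rp v) (-(A * u * B'))) {d : K} (hd : d ≠ 0)
    (H : QPt (-2 * ((A : ℤ) : v.adicCompletion K) * ((n : ℤ) : v.adicCompletion K))
      ((((A : ℤ) : v.adicCompletion K) ^ 2 - 4 * ((B : ℤ) : v.adicCompletion K)) *
        ((n : ℤ) : v.adicCompletion K) ^ 2)
      (algebraMap K (v.adicCompletion K) d)) : (eo v (sc d) = 0 ∧ la v (sc d) = 0) ∨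
    (eo v (sc d) = eo v (sc ((-B : ℤ) : K)) ∧ la v (sc d) = la v (sc ((-B : ℤ) : K))) := by
  obtain ⟨h3, h4, h5, h6, h7⟩ := Mo_data8 he h2 hA hn hB hu hs
  have hdF := (map_ne_zero (algebraMap K (v.adicCompletion K))).2 hd
  rcases H86TL.loc_Mo' (Pool.Agent.H10.hS_odd v (H86TL.two_notMem h2)) (H86TL.v2F h2) h3 h4 h5 h6 h7 hdF H with h | h
  · exact Or.inl (H86TL.triv_of_sq v (H86TL.oddP_of h2) hd h)
  · right
    have h8 : IsSquare (algebraMap K (v.adicCompletion K) ((-B : ℤ) : K) *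
        algebraMap K (v.adicCompletion K) d) := by
      rw [H86TL.alg_int, Int.cast_neg]
      exact h
    exact H86TL.same_of_sq v (H86TL.oddP_of h2) (by
      rw [Int.cast_neg]
      exact neg_ne_zero.2 (by exact_mod_cast hB0)) hd h8

end H88T8
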