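import Pool.Agent.H88.T8.Ca
import Pool.Agent.H88.T8.Ah
import Pool.Agent.H88.T7.Cd

/-!
ROW Cd (project MP_78d38b_T8, about 230 lines): the Selmer group of the curve `y^2 = x (x^2 + n x + 16 β n^2)` is contained in `XX`. Modification
of the proved file `Pool/Agent/H88/T7/Cd.lean` (with `a = 1`; there is no `Sg` and all primes dividing `β D` are prime to `n`); the conditions at `Sg` are as
in `H86TL.loc_X` (`Pool/Agent/H86/TL/Lz.lean`).

PROOF. `b = 16 β`, `D = 1 - 64 β = 1 - 4 b`. For a place `v`: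
 * `rp v = 2`: `even_two` (`n ≡ 1 mod 4`), as in T7.
 * `rp v ∈ Qb` : `v ∈ P'`, no condition. `rp v ∈ Qa`: `rp v ∤ n` (`hn.pre`), `sq_node` with `c = -n/2`, `e = D n^2/4`: `eo = la = 0` (as in T7 for `rp v ∣ D`).
 * `rp v ∈ Q0`, dividing `β`: `hn.zb`: `n = q u`, `β = q b'`: `Mo_X8` with `A = 1`, `B = 16 β`, `B' = 16 b'` (`SqMod q (-(u * 16 b'))` from `SqMod q (-(u b'))`): `d` is trivial or
   agrees with `sc (16 β) = sc β` (`sc_mul`, `sc 16 = 0`): `tp v (sc d) (g8) = 0` by `sg_iff`.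
 * `rp v ∈ Q0`, dividing `D`: `hn.zd`: `n = q u`, `D = q d'`, `SqMod q (2 u d')`: `Mo_X8'` with `A = -2`, `B = D`, `B' = d'` (`-(A u B') = 2 u d'`): `-2 A = 4`, `A^2 - 4 B = 4 - 4 D =
   256 β`: this is the curve `QPt (4 n) (256 β n^2) d`, which is `QPt n (16 β n^2) d` after scaling (`E_dual` in `Lz.lean` is this change of form, with `a = 1`): `d` is
   trivial or agrees with `sc (-D)`: `sg_iff`.
 * `rp v ∤ 2 β D n`: `unit_X`. * `rp v ∣ n`, `rp v ∤ β D`: `hn.neu`: `Nice`; if `rp v ∈ Pp'`: `v ∈ P'`, no condition; `rp v ∈ Pp` or neutral: `D` is not a square: `P_X7`.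
 * signs as in T7.
-/

set_option autoImplicit false
set_option linter.unusedSectionVars false
open scoped Classical

open WithZero NumberField IsDedekindDomain H38RT H88T7
open H38T1 (SC sc rep eo la si Pri tp OddP LD XX XX' NS ov rp SqMod)

namespace H88T8

open H73IS

variable {K : Type} [Field K] [NumberField K] {B : Finset ℕ} {QK : AddSubgroup (SC ℚ)}
  {E0 : Set (SC K)} {β : ℤ} {Qa Qb Pp Pp' : Finset ℕ} {n : ℤ}

theorem Cd8_q (hD : Dat8 K B QK E0 β Qa Qb) {q : ℕ} (hq : q.Prime)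
    (h : (q : ℤ) ∣ β * (1 - 64 * β)) : q ∉ B ∧ q ≠ 2 := by
  have h1 := hD.co q hq h
  refine ⟨h1, ?_⟩
  intro h2
  rw [h2] at h1
  exact h1 hD.two

theorem Cd8_disc {q : ℕ} (hq : q.Prime) (h : (q : ℤ) ∣ 1 - 64 * β) : ¬ (q : ℤ) ∣ β := by
  have hqZ : Prime ((q : ℕ) : ℤ) := Nat.prime_iff_prime_int.1 hq
  intro h4
  have h6 := dvd_add h (h4.mul_left 64)
  rw [sub_add_cancel] at h6
  exact hqZ.not_isUnit (isUnit_of_dvd_one h6)

theorem Cd8_ne1 {v : HeightOneSpectrum (𝓞 K)} : ¬ (rp v : ℤ) ∣ 1 := by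
  intro h
  have hqZ : Prime ((rp v : ℕ) : ℤ) := Nat.prime_iff_prime_int.1 (H38T1.rp_prime v)
  exact hqZ.not_isUnit (isUnit_of_dvd_one h)

theorem Cd8_P (hn : Tw8 K B β Qa Qb Pp Pp' n) {v : HeightOneSpectrum (𝓞 K)}
    (hqn : (rp v : ℤ) ∣ n) (hbD : ¬ (rp v : ℤ) ∣ β * (1 - 64 * β))
    (hr : ¬ SqMod (rp v) (1 - 64 * β)) {d : K} (hd : d ≠ 0)
    (hf : FinQ K ((1 * n : ℤ) : K) ((16 * β * n ^ 2 : ℤ) : K) d) :
    eo v (sc d) = 0 ∧ (SqMod (rp v) β → la v (sc d) = 0) := by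
  have hq := H38T1.rp_prime v
  obtain ⟨⟨-, h2, hnice⟩, -⟩ := hn.neu (rp v) hq hqn hbD
  obtain ⟨he, hfd⟩ := hnice v (H38T1.rp_mem v)
  have hb : ¬ (rp v : ℤ) ∣ β := fun h => hbD (h.mul_right _)
  have hDD : ¬ (rp v : ℤ) ∣ 1 - 64 * β := fun h => hbD (h.mul_left _)
  have hb16 : ¬ (rp v : ℤ) ∣ 16 * β := Cd_16 hq h2 hb
  have e : (1 : ℤ) ^ 2 - 4 * (16 * β) = 1 - 64 * β := by ring
  have key := P_X7 (A := 1) (B := 16 * β) (n := n) he hfd h2 hb16 (by rw [e]; exact hDD)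
    (by rw [e]; exact hr) hn.sqf hqn hd (H86TL.E_form hf v)
  refine ⟨key.1, fun hs => key.2 ?_⟩
  obtain ⟨t, ht⟩ := hs
  refine ⟨4 * t, ?_⟩
  rw [show 16 * β - (4 * t) ^ 2 = 16 * (β - t ^ 2) by ring]
  exact ht.mul_left _

theorem Cd8_node (hD : Dat8 K B QK E0 β Qa Qb) (hn : Tw8 K B β Qa Qb Pp Pp' n)
    {v : HeightOneSpectrum (𝓞 K)} (hqa : rp v ∈ Qa) {d : K} (hd : d ≠ 0)
    (hf : FinQ K ((1 * n : ℤ) : K) ((16 * β * n ^ 2 : ℤ) : K) d) :
    eo v (sc d) = 0 ∧ la v (sc d) = 0 := by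
  have hq := H38T1.rp_prime v
  have hv : (rp v : ℤ) ∣ 1 - 64 * β := (hD.pa _ hqa).2
  obtain ⟨hqB, h2⟩ := Cd8_q hD hq (hv.mul_left β)
  have hqb := Cd8_disc hq hv
  have hqn : ¬ (rp v : ℤ) ∣ n := hn.pre _ (Finset.mem_union_left _ hqa)
  have he : v.asIdeal.ramificationIdx ℤ = 1 := hD.unr v hqB
  apply H86TL.triv_of_sq v (H86TL.oddP_of h2) hd
  have hdF : algebraMap K (v.adicCompletion K) d ≠ 0 := (map_ne_zero _).2 hd
  have hnV := H86TL.val_int_one v hqn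
  have haV := H86TL.val_int_one v (Cd8_ne1 (v := v))
  have h2V := H86TL.v2F h2
  have hch : CharZero (v.adicCompletion K) := Pool.Agent.H10.charZero_of_alg (K := K)
  have hDV := (H86TL.val_int_lt v _).2 hv
  have hDne : 1 - 64 * β ≠ 0 := by
    have := hD.pos
    intro h0
    omega
  have hDsq : Squarefree (1 - 64 * β) := hD.sqf.of_mul_right
  have hlog : log (Valued.v (((1 - 64 * β : ℤ)) : v.adicCompletion K)) = -1 := by
    rw [H86TL.log_int v hDne, he, H86TL.padic_sqf hq hDsq hv]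
    norm_num
  have h4V : Valued.v (4 : v.adicCompletion K) = 1 := by
    rw [show (4 : v.adicCompletion K) = 2 * 2 by norm_num, map_mul, h2V, one_mul]
  have hE : Valued.v ((((1 - 64 * β : ℤ)) : v.adicCompletion K) * ((n : ℤ) : v.adicCompletion K) ^ 2 / 4) =
      Valued.v (((1 - 64 * β : ℤ)) : v.adicCompletion K) := by
    rw [map_div₀, map_mul, map_pow, hnV, h4V, one_pow, mul_one, div_one]
  have H := H86TL.E_form hf v
  have e1 : -2 * (-(((1 : ℤ) : v.adicCompletion K) * ((n : ℤ) : v.adicCompletion K)) / 2) =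
      ((1 : ℤ) : v.adicCompletion K) * ((n : ℤ) : v.adicCompletion K) := by ring
  have e2 : (-(((1 : ℤ) : v.adicCompletion K) * ((n : ℤ) : v.adicCompletion K)) / 2) ^ 2 -
      (((1 - 64 * β : ℤ)) : v.adicCompletion K) * ((n : ℤ) : v.adicCompletion K) ^ 2 / 4 =
      ((16 * β : ℤ) : v.adicCompletion K) * ((n : ℤ) : v.adicCompletion K) ^ 2 := by
    push_cast
    ring
  rw [← e1, ← e2] at H
  refine sq_node (Pool.Agent.H10.hS_odd v (H86TL.two_notMem h2)) ?_ ?_ ?_ hdF H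
  · rw [map_div₀, Valuation.map_neg, map_mul, haV, hnV, h2V, mul_one, div_one]
  · rw [hE]
    exact hDV
  · rw [hE, hlog]
    exact ⟨-1, by norm_num⟩

theorem Cd8_two (hD : Dat8 K B QK E0 β Qa Qb) (hn : Tw8 K B β Qa Qb Pp Pp' n)
    {v : HeightOneSpectrum (𝓞 K)} (h2 : rp v = 2) {d : K} (hd : d ≠ 0)
    (hf : FinQ K ((1 * n : ℤ) : K) ((16 * β * n ^ 2 : ℤ) : K) d) : eo v (sc d) = 0 := by
  have hdF : algebraMap K (v.adicCompletion K) d ≠ 0 := (map_ne_zero _).2 hd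
  have hV2 : Valued.v (2 : v.adicCompletion K) = exp (-(v.asIdeal.ramificationIdx ℤ : ℤ)) := by
    have h3 := H86TL.val_rp v
    rw [h2] at h3
    have h4 : Valued.v (2 : v.adicCompletion K) = v.valuation K 2 := Pool.Agent.H10.valued_ofNat v 2
    rw [h4]
    exact_mod_cast h3
  have hlt : Valued.v (2 : v.adicCompletion K) < 1 := by
    have h3 := (H86TL.val_int_lt v 2).2 (by rw [h2]; exact dvd_rfl)
    exact_mod_cast h3
  have he : (0 : ℤ) < v.asIdeal.ramificationIdx ℤ := by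
    rw [hV2, ← exp_zero, exp_lt_exp] at hlt
    omega
  have hn2 : ¬ (rp v : ℤ) ∣ n := by
    rw [h2]
    intro h3
    have := hn.n4
    push_cast at h3
    omega
  have hb2 : ¬ (rp v : ℤ) ∣ β := by
    rw [h2]
    intro h3
    have := hD.bo
    push_cast at h3
    omega
  have hnV := H86TL.val_int_one v hn2
  have hbV := H86TL.val_int_one v hb2
  apply H86TL.eo_of_even v hd
  refine even_two he hV2 ?_ ?_ hdF (H86TL.qF hf v)
  · obtain ⟨m, hm⟩ : ∃ m : ℤ, 1 * n = 1 + 4 * m := by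
      have := hn.n4
      exact ⟨n / 4, by omega⟩
    rw [hm]
    push_cast
    rw [show (1 : v.adicCompletion K) + 4 * (m : v.adicCompletion K) - 1 =
      4 * (m : v.adicCompletion K) by ring, map_mul]
    exact mul_le_of_le_one_right' (H86TL.val_int_le v m)
  · push_cast
    rw [map_mul, map_mul, map_pow, hnV, hbV, one_pow, mul_one, mul_one]

/-- The conditions at the primes dividing `β` and the twisting integer. -/
theorem Cd8_zb (hD : Dat8 K B QK E0 β Qa Qb) (hn : Tw8 K B β Qa Qb Pp Pp' n)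
    {v : HeightOneSpectrum (𝓞 K)} (hv : rp v ∈ Q0 β Qa Qb) (hb : (rp v : ℤ) ∣ β) {d : K}
    (hd : d ≠ 0) (hf : FinQ K ((1 * n : ℤ) : K) ((16 * β * n ^ 2 : ℤ) : K) d) :
    tp v (sc d) (sc ((-β : ℤ) : K)) = 0 := by
  have hq := H38T1.rp_prime v
  have hqZ : Prime ((rp v : ℕ) : ℤ) := Nat.prime_iff_prime_int.1 hq
  obtain ⟨hqB, h2⟩ := Cd8_q hD hq hv.1.2
  have he : v.asIdeal.ramificationIdx ℤ = 1 := hD.unr v hqB
  have hb0 : β ≠ 0 := by
    have := hD.pos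
    omega
  obtain ⟨u, b', h3, h4, h5, t, ht⟩ := hn.zb _ hv hb
  have h16 : sc ((16 * β : ℤ) : K) = sc ((β : ℤ) : K) := by
    have hbK : ((β : ℤ) : K) ≠ 0 := Int.cast_ne_zero.2 hb0
    have h16K : (16 : K) ≠ 0 := by norm_num
    push_cast
    rw [H38T1.sc_mul h16K hbK, (H38T1.sc_eq_zero h16K).2 ⟨4, by norm_num⟩, zero_add]
  have h6 : ¬ (rp v : ℤ) ∣ u * (16 * b') := by
    rw [show u * (16 * b') = 16 * (u * b') by ring]
    exact Cd_16 hq h2 h5
  have h7 : SqMod (rp v) (-(1 * u * (16 * b'))) := by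
    refine ⟨4 * t, ?_⟩
    rw [show -(1 * u * (16 * b')) - (4 * t) ^ 2 = 16 * (-(u * b') - t ^ 2) by ring]
    exact ht.mul_left _
  have h8 : 16 * β = (rp v : ℤ) * (16 * b') := by linear_combination 16 * h4
  rcases Mo_X8 (A := 1) (B := 16 * β) (B' := 16 * b') he h2 (mul_ne_zero (by norm_num) hb0)
    Cd8_ne1 h3 h8 h6 h7 hd (H86TL.E_form hf v) with ⟨h9, h10⟩ | ⟨h9, h10⟩
  · exact H86TL.tp_zero_left v h9 h10
  · rw [h16] at h9 h10
    rw [Int.cast_neg]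
    exact H86TL.tp_same v h9 h10 (H86TL.tp_neg v (H86TL.oddP_of h2) (by exact_mod_cast hb0))

/-- The conditions at the primes dividing `1 - 64 β` and the twisting integer. -/
theorem Cd8_zd (hD : Dat8 K B QK E0 β Qa Qb) (hn : Tw8 K B β Qa Qb Pp Pp' n)
    {v : HeightOneSpectrum (𝓞 K)} (hv : rp v ∈ Q0 β Qa Qb) (hb : (rp v : ℤ) ∣ 1 - 64 * β) {d : K}
    (hd : d ≠ 0) (hf : FinQ K ((1 * n : ℤ) : K) ((16 * β * n ^ 2 : ℤ) : K) d) :
    tp v (sc d) (sc ((1 - 64 * β : ℤ) : K)) = 0 := by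
  have hq := H38T1.rp_prime v
  have hqZ : Prime ((rp v : ℕ) : ℤ) := Nat.prime_iff_prime_int.1 hq
  obtain ⟨hqB, h2⟩ := Cd8_q hD hq hv.1.2
  have he : v.asIdeal.ramificationIdx ℤ = 1 := hD.unr v hqB
  have hD0 : 1 - 64 * β ≠ 0 := by
    have := hD.pos
    omega
  obtain ⟨u, d', h3, h4, h5, hs⟩ := hn.zd _ hv hb
  have e : (1 : ℤ) ^ 2 - 4 * (16 * β) = 1 - 64 * β := by ring
  have ha : ¬ (rp v : ℤ) ∣ -2 * 1 := by
    intro h6
    rw [mul_one, Int.dvd_neg] at h6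
    have h7 : rp v ∣ 2 := by exact_mod_cast h6
    exact h2 ((Nat.prime_dvd_prime_iff_eq hq Nat.prime_two).1 h7)
  have h8 : SqMod (rp v) (-(-2 * 1 * u * d')) := by
    rw [show -(-2 * 1 * u * d') = 2 * u * d' by ring]
    exact hs
  have key := Mo_X8' (A := -2 * 1) (B := 1 ^ 2 - 4 * (16 * β)) (B' := d') he h2
    (by rw [e]; exact hD0) ha h3 (by rw [e]; exact h4) h5 h8 hd (H86TL.E_dual hf v)
  rw [e] at key
  rcases key with ⟨h9, h10⟩ | ⟨h9, h10⟩
  · exact H86TL.tp_zero_left v h9 h10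
  · refine H86TL.tp_same v h9 h10 ?_
    have h11 := H86TL.tp_neg (K := K) v (H86TL.oddP_of h2) (x := ((-(1 - 64 * β) : ℤ) : K)) (by
      exact_mod_cast neg_ne_zero.2 hD0)
    rw [← Int.cast_neg, neg_neg] at h11
    exact h11

theorem loc_X8 (hD : Dat8 K B QK E0 β Qa Qb) (hS : St8 K B β Pp Pp')
    (hn : Tw8 K B β Qa Qb Pp Pp' n) {d : K} (hd : d ≠ 0)
    (hf : FinQ K ((1 * n : ℤ) : K) ((16 * β * n ^ 2 : ℤ) : K) d)
    (hi : InfQ K ((1 * n : ℤ) : K) ((16 * β * n ^ 2 : ℤ) : K) d) :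
    sc d ∈ XX (L8 K β Qa Qb Pp Pp') := by
  refine ⟨?_, ?_, ?_, ?_⟩
  · intro v hv hv'
    have hq := H38T1.rp_prime v
    have hqZ : Prime ((rp v : ℕ) : ℤ) := Nat.prime_iff_prime_int.1 hq
    have hv0 : rp v ∉ Q0 β Qa Qb := fun h => hv (H86TL.ov_of_rp h)
    have hv1 : rp v ∉ (Qb : Set ℕ) ∪ (Pp' : Set ℕ) := fun h => hv' (H86TL.ov_of_rp h)
    have hvb : rp v ∉ Qb := fun h => hv1 (Or.inl (Finset.mem_coe.2 h))
    by_cases h2 : rp v = 2
    · exact Cd8_two hD hn h2 hd hf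
    · by_cases hva : rp v ∈ Qa
      · exact (Cd8_node hD hn hva hd hf).1
      · have hbD : ¬ (rp v : ℤ) ∣ β * (1 - 64 * β) := fun h => hv0 ⟨⟨hq, h⟩, hva, hvb⟩
        have hb : ¬ (rp v : ℤ) ∣ β := fun h => hbD (h.mul_right _)
        by_cases hqn : (rp v : ℤ) ∣ n
        · have hP' : rp v ∉ Pp' := fun h => hv1 (Or.inr (Finset.mem_coe.2 h))
          have hr : ¬ SqMod (rp v) (1 - 64 * β) := by
            by_cases hP : rp v ∈ Pp
            · exact (hS.sq _ hP).2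
            · exact ((hn.neu _ hq hqn hbD).2 hP hP').2
          exact (Cd8_P hn hqn hbD hr hd hf).1
        · exact H86TL.unit_X (Cd_16 hq h2 hb) hqn hd (H86TL.E_form hf v)
  · intro v hv
    have hq := H38T1.rp_prime v
    have hqZ : Prime ((rp v : ℕ) : ℤ) := Nat.prime_iff_prime_int.1 hq
    have hS0 : rp v ∈ Q0 β Qa Qb := H86TL.rp_of_ov (fun q hq => hq.1.1) hv
    change tp v (sc d) (g8 K β v) = 0
    unfold g8
    by_cases hb : (rp v : ℤ) ∣ β
    · rw [if_pos hb]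
      exact Cd8_zb hD hn hS0 hb hd hf
    · rw [if_neg hb]
      exact Cd8_zd hD hn hS0 ((hqZ.dvd_or_dvd hS0.1.2).resolve_left hb) hd hf
  · intro v hv
    have hq := H38T1.rp_prime v
    have hP : rp v ∈ (Qa : Set ℕ) ∪ (Pp : Set ℕ) := by
      refine H86TL.rp_of_ov (fun q hq' => ?_) hv
      rcases hq' with h | h
      · exact (hD.pa q (Finset.mem_coe.1 h)).1
      · exact (hS.tot q (Finset.mem_union_left _ (Finset.mem_coe.1 h))).1
    rcases hP with h | h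
    · exact (Cd8_node hD hn (Finset.mem_coe.1 h) hd hf).2
    · have h' : rp v ∈ Pp := Finset.mem_coe.1 h
      have hqn : (rp v : ℤ) ∣ n := hn.mem _ (Finset.mem_union_left _ h')
      have hbD : ¬ (rp v : ℤ) ∣ β * (1 - 64 * β) := fun h3 =>
        hS.ndvd _ (Finset.mem_union_left _ h') (h3.mul_left 2)
      exact (Cd8_P hn hqn hbD (hS.sq _ h').2 hd hf).2 (hS.sq _ h').1
  · intro _ w
    apply H86TL.si_of_inf ?_ hd hi
    left
    have hn0 : n ≠ 0 := hn.sqf.ne_zero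
    have hn2 : 0 < n ^ 2 := by positivity
    have hpos := hD.pos
    have h3 : n ^ 2 < 64 * β * n ^ 2 := by nlinarith
    calc (1 * n) ^ 2 = n ^ 2 := by ring
      _ < 64 * β * n ^ 2 := h3
      _ = 4 * (16 * β * n ^ 2) := by ring

end H88T8
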