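import Pool.Agent.H88.T8.Ca
import Pool.Agent.H88.T8.Ah
import Pool.Agent.H88.T7.Ce

/-!
ROW Ce (project MP_78d38b_T8, about 260 lines): the Selmer group of the isogenous curve `y^2 = x (x^2 - 2 n x + (1 - 64 β) n^2)` is contained in
`XX'`. Modification of the proved file `Pool/Agent/H88/T7/Ce.lean` (with `a = 1`; there is no `Sg` and all primes dividing `β D` are prime to `n`); the conditions at
`Sg` are as in `H86TL.loc_X'` (`Pool/Agent/H86/TL/Lz.lean`).

PROOF. `b = 16 β`, `D = 1 - 64 β = 1 - 4 b`. For a place `v`: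
 * `rp v = 2`: primary, `loc_two'` as in T7.
 * `rp v ∈ Qa`: `v ∈ P`, no condition. `rp v ∈ Qb`: `rp v ∤ n` (`hn.pre`): `sq_node` with `c = n`, `e = 64 β n^2`: `eo = la = 0` (as in T7 for `rp v ∣ β`).
 * `rp v ∈ Q0`, dividing `D` (then `rp v ∤ β`, `g8 = sc D`): `hn.zd`: `n = q u`, `D = q d'`, `SqMod q (2 u d')`: `Mo_X8` with `A = -2`, `B = D`, `B' = d'`: `d` is trivial or agrees with `sc D`.
 * `rp v ∈ Q0`, dividing `β` (`g8 = sc (-β)`): `hn.zb`: `Mo_X8'` with `A = 1`, `B = 16 β`, `B' = 16 b'` (`E'_form2` in `Lz.lean`): `d` is trivial or agrees with `sc (-16 β) = sc (-β)`.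
 * `rp v ∤ 2 β D n`: `unit_X`. * `rp v ∣ n`, `rp v ∤ β D`: `hn.neu`: `Nice`; if `rp v ∈ Pp`: `v ∈ P`, no condition; `rp v ∈ Pp'` or neutral: `β` is not a square modulo
   `rp v`: `P_X7` with `A = -2`, `B = D` as in T7.
-/

set_option autoImplicit false
set_option linter.unusedSectionVars false
open scoped Classical

open WithZero NumberField IsDedekindDomain H38RT H88T7
open H38T1 (SC sc rep eo la si Pri tp OddP LD XX XX' NS ov rp SqMod)

namespace H88T8

open H73IS

variable {K : Type} [Field K] [NumberField K] {B : Finset ℕ} {QK : AddSubgroup (SC ℚ)}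
  {E0 : Set (SC K)} {β : ℤ} {Qa Qb Pp Pp' : Finset ℕ} {n : ℤ}

theorem Ce8_ne (hD : Dat8 K B QK E0 β Qa Qb) : β ≠ 0 ∧ 1 - 64 * β ≠ 0 := by
  constructor
  · intro h
    have := hD.bo
    rw [h] at this
    norm_num at this
  · intro h
    omega

/-- The places above the prime divisors of `β` which do not divide `n`. -/
theorem Ce8_node (hD : Dat8 K B QK E0 β Qa Qb) {d : K}
    (hd : d ≠ 0) (hf : FinQ K ((-2 * (1 * n) : ℤ) : K) (((1 - 64 * β) * n ^ 2 : ℤ) : K) d)
    {v : HeightOneSpectrum (𝓞 K)} (hv : (rp v : ℤ) ∣ β) (hdn : ¬ (rp v : ℤ) ∣ n) :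
    eo v (sc d) = 0 ∧ la v (sc d) = 0 := by
  have hq := H38T1.rp_prime v
  have hqZ : Prime ((rp v : ℕ) : ℤ) := Nat.prime_iff_prime_int.1 hq
  have h2 : rp v ≠ 2 := by
    intro h
    rw [h] at hv
    have := hD.bo
    push_cast at hv
    omega
  obtain ⟨hb0, -⟩ := Ce8_ne hD
  have hdan : ¬ (rp v : ℤ) ∣ 1 * n := by
    rw [one_mul]
    exact hdn
  have hdu : ¬ (rp v : ℤ) ∣ 64 * n ^ 2 := by
    intro h
    rcases hqZ.dvd_or_dvd h with h | h
    · exact Ce_pow_two hq h2 6 (by norm_num; exact h)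
    · exact hdn (hqZ.dvd_of_dvd_pow h)
  have he : v.asIdeal.ramificationIdx ℤ = 1 := hD.unr v (hD.co _ hq (hv.mul_right _))
  have hsq : Squarefree β := hD.sqf.squarefree_of_dvd (dvd_mul_right _ _)
  have hcast : ((64 * β * n ^ 2 : ℤ) : v.adicCompletion K) =
      ((64 * n ^ 2 : ℤ) : v.adicCompletion K) * ((β : ℤ) : v.adicCompletion K) := by
    push_cast
    ring
  have heo : log (Valued.v ((64 * β * n ^ 2 : ℤ) : v.adicCompletion K)) = -1 := by
    rw [hcast, map_mul, H86TL.val_int_one v hdu, one_mul, H86TL.log_int v hb0, he,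
      H86TL.padic_sqf hq hsq hv]
    norm_num
  have h1 : IsSquare (algebraMap K (v.adicCompletion K) d) := by
    refine sq_node (V := (Valued.v : Valuation (v.adicCompletion K) (WithZero (Multiplicative ℤ))))
      (c := ((1 * n : ℤ) : v.adicCompletion K)) (e := ((64 * β * n ^ 2 : ℤ) : v.adicCompletion K))
      (Pool.Agent.H10.hS_odd v (H86TL.two_notMem h2)) (H86TL.val_int_one v hdan)
      ((H86TL.val_int_lt v _).2 ?_) ?_ ((map_ne_zero (algebraMap K (v.adicCompletion K))).2 hd) ?_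
    · exact (hv.mul_left 64).mul_right _
    · rw [heo]
      exact ⟨-1, by norm_num⟩
    · have h3 := H86TL.qF hf v
      convert h3 using 1
      · push_cast
        ring
      · push_cast
        ring
  exact H86TL.triv_of_sq v (H86TL.oddP_of h2) hd h1

theorem Ce8_pri (hD : Dat8 K B QK E0 β Qa Qb) (hn : Tw8 K B β Qa Qb Pp Pp' n) {d : K}
    (hd : d ≠ 0) (hf : FinQ K ((-2 * (1 * n) : ℤ) : K) (((1 - 64 * β) * n ^ 2 : ℤ) : K) d)
    {v : HeightOneSpectrum (𝓞 K)} (h2 : rp v = 2) : Pri v (sc d) := by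
  obtain ⟨hb0, hD0⟩ := Ce8_ne hD
  have hn0 := hn.sqf.ne_zero
  have hch : CharZero (v.adicCompletion K) := Pool.Agent.H10.charZero_of_alg (K := K)
  have hlt : Valued.v (2 : v.adicCompletion K) < 1 := by
    have h3 := (H86TL.val_int_lt v 2).2 (by rw [h2]; exact dvd_rfl)
    exact_mod_cast h3
  refine H86TL.pri_of v (H86TL.two_mem h2) hd ?_
  refine H86TL.loc_two' (A := ((1 * n : ℤ) : v.adicCompletion K))
    (B := ((16 * β * n ^ 2 : ℤ) : v.adicCompletion K)) two_ne_zero hlt ?_ ?_ ?_ ?_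
    ((map_ne_zero (algebraMap K (v.adicCompletion K))).2 hd) ?_
  · obtain ⟨m, hm⟩ : ∃ m : ℤ, 1 * n = 1 + 4 * m := by
      refine ⟨n / 4, ?_⟩
      have h3 := hn.n4
      omega
    rw [hm]
    push_cast
    rw [add_sub_cancel_left, map_mul]
    exact mul_le_of_le_one_right' (H86TL.val_int_le v m)
  · exact H86TL.ne_zero_int v (mul_ne_zero (mul_ne_zero (by norm_num) hb0) (pow_ne_zero 2 hn0))
  · have h3 : ((16 * β * n ^ 2 : ℤ) : v.adicCompletion K) =
        16 * ((β * n ^ 2 : ℤ) : v.adicCompletion K) := by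
      push_cast
      ring
    rw [h3, map_mul]
    exact mul_le_of_le_one_right' (H86TL.val_int_le v _)
  · have h5 : (1 * n) ^ 2 - 4 * (16 * β * n ^ 2) ≠ 0 := by
      rw [show (1 * n) ^ 2 - 4 * (16 * β * n ^ 2) = (1 - 64 * β) * n ^ 2 by ring]
      exact mul_ne_zero hD0 (pow_ne_zero 2 hn0)
    have h6 := H86TL.ne_zero_int v h5
    push_cast at h6 ⊢
    exact h6
  · have h3 := H86TL.qF hf v
    convert h3 using 1
    · push_cast
      ring
    · push_cast
      ring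

theorem loc_X8' (hD : Dat8 K B QK E0 β Qa Qb) (hS : St8 K B β Pp Pp')
    (hn : Tw8 K B β Qa Qb Pp Pp' n) {d : K} (hd : d ≠ 0)
    (hf : FinQ K ((-2 * (1 * n) : ℤ) : K) (((1 - 64 * β) * n ^ 2 : ℤ) : K) d)
    (hi : InfQ K ((-2 * (1 * n) : ℤ) : K) (((1 - 64 * β) * n ^ 2 : ℤ) : K) d) :
    sc d ∈ XX' (L8 K β Qa Qb Pp Pp') := by
  obtain ⟨hb0, hD0⟩ := Ce8_ne hD
  have E' : ∀ v : HeightOneSpectrum (𝓞 K),
      QPt ((((-2 : ℤ) : ℤ) : v.adicCompletion K) * ((n : ℤ) : v.adicCompletion K))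
      ((((1 - 64 * β : ℤ) : ℤ) : v.adicCompletion K) * ((n : ℤ) : v.adicCompletion K) ^ 2)
      (algebraMap K (v.adicCompletion K) d) := by
    intro v
    have h1 := H86TL.qF hf v
    convert h1 using 1
    · push_cast
      ring
    · push_cast
      ring
  have hprS : ∀ q ∈ Pp ∪ Pp', q.Prime := fun q hq => (hS.tot q hq).1
  have hQ0 : ∀ q ∈ Q0 β Qa Qb, q.Prime := fun q hq => hq.1.1
  have hP : ∀ q ∈ ((Qa : Set ℕ) ∪ (Pp : Set ℕ)), q.Prime := by
    rintro q (hq | hq)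
    · exact (hD.pa q (Finset.mem_coe.1 hq)).1
    · exact hprS q (Finset.mem_union_left _ (Finset.mem_coe.1 hq))
  have hP' : ∀ q ∈ ((Qb : Set ℕ) ∪ (Pp' : Set ℕ)), q.Prime := by
    rintro q (hq | hq)
    · exact (hD.pb q (Finset.mem_coe.1 hq)).1
    · exact hprS q (Finset.mem_union_right _ (Finset.mem_coe.1 hq))
  -- the places dividing `n`
  have hX : ∀ v : HeightOneSpectrum (𝓞 K), rp v ≠ 2 → (rp v : ℤ) ∣ n →
      ¬ (rp v : ℤ) ∣ β * (1 - 64 * β) → ¬ SqMod (rp v) β →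
      eo v (sc d) = 0 ∧ (SqMod (rp v) (1 - 64 * β) → la v (sc d) = 0) := by
    intro v h2 hvn hbD hnb
    have hq := H38T1.rp_prime v
    have hqZ : Prime ((rp v : ℕ) : ℤ) := Nat.prime_iff_prime_int.1 hq
    obtain ⟨hnice, -⟩ := hn.neu _ hq hvn hbD
    obtain ⟨he, hf'⟩ := hnice.2.2 v (H38T1.rp_mem v)
    have e1 : (-2 : ℤ) ^ 2 - 4 * (1 - 64 * β) = (-2 * 1) ^ 2 - 4 * (1 ^ 2 - 64 * β) := by ring
    refine P_X7 he hf' h2 (fun h => hbD (h.mul_left _)) ?_ ?_ hn.sqf hvn hd (E' v)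
    · intro h
      rw [show (-2 : ℤ) ^ 2 - 4 * (1 - 64 * β) = 2 ^ 8 * β by ring] at h
      rcases hqZ.dvd_or_dvd h with h | h
      · exact Ce_pow_two hq h2 8 h
      · exact hbD (h.mul_right _)
    · rw [e1]
      exact Ce_sq hq h2 hnb
  refine ⟨?_, ?_, ?_, ?_, ?_⟩
  · intro v hvS hvP
    have hq := H38T1.rp_prime v
    have hvS' : rp v ∉ Q0 β Qa Qb := fun h => hvS ((H38T1.mem_ov hQ0).2 h)
    have hvP' : rp v ∉ ((Qa : Set ℕ) ∪ (Pp : Set ℕ)) := fun h => hvP ((H38T1.mem_ov hP).2 h)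
    have hva : rp v ∉ Qa := fun h => hvP' (Or.inl (Finset.mem_coe.2 h))
    have hvp : rp v ∉ Pp := fun h => hvP' (Or.inr (Finset.mem_coe.2 h))
    by_cases h2 : rp v = 2
    · refine H38T1.pri_eo ?_ (Ce8_pri hD hn hd hf h2)
      rw [H38T1.oddP_iff]
      exact fun h => h h2
    · by_cases hbD : (rp v : ℤ) ∣ β * (1 - 64 * β)
      · have hvb : rp v ∈ Qb := by
          by_contra hcon
          exact hvS' ⟨⟨hq, hbD⟩, hva, hcon⟩
        exact (Ce8_node hD hd hf (hD.pb _ hvb).2 (hn.pre _ (Finset.mem_union_right _ hvb))).1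
      · by_cases hvn : (rp v : ℤ) ∣ n
        · have hnb : ¬ SqMod (rp v) β := by
            by_cases h3 : rp v ∈ Pp'
            · exact (hS.sq' _ h3).1
            · exact ((hn.neu _ hq hvn hbD).2 hvp h3).1
          exact (hX v h2 hvn hbD hnb).1
        · exact H86TL.unit_X (fun h => hbD (h.mul_left _)) hvn hd (E' v)
  · intro v hv
    exact Ce8_pri hD hn hd hf (H86TL.rp_of_not_oddP hv)
  · intro v hv
    have hq := H38T1.rp_prime v
    have hqZ : Prime ((rp v : ℕ) : ℤ) := Nat.prime_iff_prime_int.1 hq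
    have hvS : rp v ∈ Q0 β Qa Qb := (H38T1.mem_ov hQ0).1 hv
    have hbD : (rp v : ℤ) ∣ β * (1 - 64 * β) := hvS.1.2
    have h2 : rp v ≠ 2 := by
      intro h
      have h3 := hD.co _ hq hbD
      rw [h] at h3
      exact h3 hD.two
    have he : v.asIdeal.ramificationIdx ℤ = 1 := hD.unr v (hD.co _ hq hbD)
    change (eo v (sc d) = 0 ∧ la v (sc d) = 0) ∨
      (eo v (sc d) = eo v (g8 K β v) ∧ la v (sc d) = la v (g8 K β v))
    by_cases hb : (rp v : ℤ) ∣ β
    · have hg : g8 K β v = sc ((-(16 * β) : ℤ) : K) := by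
        unfold g8
        rw [if_pos hb]
        have e1 : ((-(16 * β) : ℤ) : K) = ((4 : K) * 4) * ((-β : ℤ) : K) := by
          push_cast
          ring
        have e2 : ((-β : ℤ) : K) ≠ 0 := by
          exact_mod_cast neg_ne_zero.2 hb0
        have e3 : (4 : K) * 4 ≠ 0 := by norm_num
        rw [e1, H38T1.sc_mul e3 e2, (H38T1.sc_eq_zero e3).2 ⟨4, rfl⟩, zero_add]
      rw [hg]
      obtain ⟨u, b', h3, h4, h5, h6⟩ := hn.zb _ hvS hb
      refine Mo_X8' (A := 1) (B := 16 * β) (n := n) (u := u) (B' := 16 * b') he h2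
        (mul_ne_zero (by norm_num) hb0) ?_ h3 ?_ ?_ ?_ hd ?_
      · intro h
        exact hqZ.not_isUnit (isUnit_of_dvd_one h)
      · rw [h4]
        ring
      · intro h
        rw [show u * (16 * b') = 2 ^ 4 * (u * b') by ring] at h
        rcases hqZ.dvd_or_dvd h with h | h
        · exact Ce_pow_two hq h2 4 h
        · exact h5 h
      · obtain ⟨t, ht⟩ := h6
        refine ⟨4 * t, ?_⟩
        rw [show -(1 * u * (16 * b')) - (4 * t) ^ 2 = 16 * (-(u * b') - t ^ 2) by ring]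
        exact ht.mul_left _
      · have h1 := H86TL.qF hf v
        convert h1 using 1
        · push_cast
          ring
        · push_cast
          ring
    · have hdv : (rp v : ℤ) ∣ 1 - 64 * β := (hqZ.dvd_or_dvd hbD).resolve_left hb
      have hg : g8 K β v = sc ((1 - 64 * β : ℤ) : K) := by
        unfold g8
        rw [if_neg hb]
      rw [hg]
      obtain ⟨u, d', h3, h4, h5, h6⟩ := hn.zd _ hvS hdv
      refine Mo_X8 (A := -2) (B := 1 - 64 * β) (n := n) (u := u) (B' := d') he h2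
        hD0 ?_ h3 h4 h5 ?_ hd (E' v)
      · intro h
        rw [Int.dvd_neg] at h
        exact Ce_pow_two hq h2 1 (by rw [pow_one]; exact h)
      · rw [show -(-2 * u * d') = 2 * u * d' by ring]
        exact h6
  · intro v hv
    have hq := H38T1.rp_prime v
    rcases (H38T1.mem_ov hP').1 hv with h | h
    · have hvb : rp v ∈ Qb := Finset.mem_coe.1 h
      exact (Ce8_node hD hd hf (hD.pb _ hvb).2 (hn.pre _ (Finset.mem_union_right _ hvb))).2
    · have h3 : rp v ∈ Pp' := Finset.mem_coe.1 h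
      have h4 : rp v ∈ Pp ∪ Pp' := Finset.mem_union_right _ h3
      have hvn := hn.mem _ h4
      have h2 : rp v ≠ 2 := (hS.tot _ h4).2.1
      have hbD : ¬ (rp v : ℤ) ∣ β * (1 - 64 * β) := fun h => hS.ndvd _ h4 (h.mul_left 2)
      exact (hX v h2 hvn hbD (hS.sq' _ h3).1).2 (hS.sq' _ h3).2
  · intro h
    have h1 : (false : Bool) = true := h
    exact absurd h1 (by decide)

end H88T8
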