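import Pool.Agent.H88.T8.Cd
import Pool.Agent.H88.T8.Ce
import Pool.Agent.H88.T7.Cf

/-!
ROW Cf (project MP_78d38b_T8, about 90 lines): the conclusion for a state with minimal groups. Modification of the proved file
`Pool/Agent/H88/T7/Cf.lean` (`a = 1`, `loc_X8`, `loc_X8'` in place of `loc_X7`, `loc_X7'`; `1 ^ 2 - 4 * (16 * β) = 1 - 64 * β`).
-/

set_option autoImplicit false
set_option linter.unusedSectionVars false
open scoped Classical

open WithZero NumberField IsDedekindDomain H38RT H88T7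
open H38T1 (SC sc rep eo la si Pri tp OddP LD XX XX' NS ov rp SqMod)

namespace H88T8

variable {K : Type} [Field K] [NumberField K] {B : Finset ℕ} {QK : AddSubgroup (SC ℚ)}
  {E0 : Set (SC K)} {β : ℤ} {Qa Qb Pp Pp' : Finset ℕ} {n : ℤ}

theorem both8 (hD : Dat8 K B QK E0 β Qa Qb) (hS : St8 K B β Pp Pp')
    (hn : Tw8 K B β Qa Qb Pp Pp' n) (hX : XX (L8 K β Qa Qb Pp Pp') ⊆ {0, sc (β : K)})
    (hX' : XX' (L8 K β Qa Qb Pp Pp') ⊆ {0, sc ((1 - 64 * β : ℤ) : K)}) :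
    H38T1.Both K 1 (16 * β) n := by
  have hb0 : β ≠ 0 := by
    intro h
    have := hD.bo
    rw [h] at this
    norm_num at this
  have hD0 : 1 - 64 * β ≠ 0 := by
    have := hD.pos
    intro h
    omega
  have hn0 := hn.sqf.ne_zero
  have hnK : (n : K) ≠ 0 := Int.cast_ne_zero.2 hn0
  have hbK : ((β : ℤ) : K) ≠ 0 := Int.cast_ne_zero.2 hb0
  have hDK : ((1 - 64 * β : ℤ) : K) ≠ 0 := Int.cast_ne_zero.2 hD0
  have e1 : ((16 * β * n ^ 2 : ℤ) : K) = ((β : ℤ) : K) * (4 * (n : K)) ^ 2 := by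
    push_cast; ring
  have e2 : (((1 - 64 * β) * n ^ 2 : ℤ) : K) = ((1 - 64 * β : ℤ) : K) * (n : K) ^ 2 := by
    push_cast; ring
  have e3 : ((1 * n : ℤ) : K) ^ 2 - 4 * ((16 * β * n ^ 2 : ℤ) : K) =
      (((1 - 64 * β) * n ^ 2 : ℤ) : K) := by
    push_cast; ring
  have e4 : -2 * ((1 * n : ℤ) : K) = ((-2 * (1 * n) : ℤ) : K) := by push_cast; ring
  have e5 : ((1 ^ 2 - 4 * (16 * β)) * n ^ 2 : ℤ) = (1 - 64 * β) * n ^ 2 := by ring
  have hfin := H38T1.concl (K := K) (A := ((1 * n : ℤ) : K)) (B := ((16 * β * n ^ 2 : ℤ) : K))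
    (by
      rw [e1]
      exact mul_ne_zero hbK (pow_ne_zero 2 (mul_ne_zero (by norm_num) hnK)))
    (by rw [e3, e2]; exact mul_ne_zero hDK (pow_ne_zero 2 hnK))
    (fun d hd hf hi => by
      rw [e1]
      exact Cf_sq_or hd hbK (hX (loc_X8 hD hS hn hd hf hi)))
    (fun d hd hf hi => by
      rw [e3] at hf hi ⊢
      rw [e4] at hf hi
      rw [e2]
      exact Cf_sq_or hd hDK (hX' (loc_X8' hD hS hn hd hf hi)))
  rw [e3, e4] at hfin
  unfold H38T1.Both
  rw [e5]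
  exact hfin

end H88T8
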