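import Pool.Agent.H88.T7.Fm
import Pool.Agent.H88.T7.Ga

/-!
Definitions for the project MP_78d38b_T8 (fields of odd degree with simple sum-zero module); no row.
The curve is `y^2 = x (x^2 + x + 16 β)`, `D = 1 - 64 β`.
-/

set_option autoImplicit false
set_option linter.unusedSectionVars false
open scoped Classical

open WithZero NumberField IsDedekindDomain H38RT H88T7
open H38T1 (SC sc scu scu_surj sc_mul sc_of_ne sc_surj rep rep_ne sc_rep sc_eq_zero eo la si Pri OddP LD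
  XX XX' NS ov rp SqMod)

namespace H88T8

/-- The odd prime `p` splits completely in `K`. -/
def Tot (K : Type) [Field K] [NumberField K] (p : ℕ) : Prop :=
  p.Prime ∧ p ≠ 2 ∧ ∀ v : HeightOneSpectrum (𝓞 K), (p : 𝓞 K) ∈ v.asIdeal →
    v.asIdeal.ramificationIdx ℤ = 1 ∧ v.asIdeal.inertiaDeg ℤ = 1

/-- The primes dividing `β (1 - 64 β)` outside the prescribed sets. -/
def Q0 (β : ℤ) (Qa Qb : Finset ℕ) : Set ℕ :=
  {q | q ∈ pd (β * (1 - 64 * β)) ∧ q ∉ Qa ∧ q ∉ Qb}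

/-- The generators of the local conditions of the second group at the primes of `Q0`. -/
noncomputable def g8 (K : Type) [Field K] [NumberField K] (β : ℤ) (v : HeightOneSpectrum (𝓞 K)) :
    SC K :=
  if (rp v : ℤ) ∣ β then sc ((-β : ℤ) : K) else sc ((1 - 64 * β : ℤ) : K)

/-- The local data: `Qa`, `Qb` prescribed primes dividing `1 - 64 β`, `β`. -/
noncomputable def L8 (K : Type) [Field K] [NumberField K] (β : ℤ) (Qa Qb Pp Pp' : Finset ℕ) :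
    LD K where
  Sg := ov K (Q0 β Qa Qb)
  g := g8 K β
  P := ov K ((Qa : Set ℕ) ∪ (Pp : Set ℕ))
  P' := ov K ((Qb : Set ℕ) ∪ (Pp' : Set ℕ))
  τ := false

/-- The curve, the bad primes `B`, the quadratic classes `QK`, the exotic classes `E0` and the
prescribed primes. -/
structure Dat8 (K : Type) [Field K] [NumberField K] (B : Finset ℕ) (QK : AddSubgroup (SC ℚ))
    (E0 : Set (SC K)) (β : ℤ) (Qa Qb : Finset ℕ) : Prop where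
  odd : Odd (Module.finrank ℚ K)
  two : 2 ∈ B
  unr : ∀ v : HeightOneSpectrum (𝓞 K), rp v ∉ B → v.asIdeal.ramificationIdx ℤ = 1
  quad : ∀ d ∈ QK, ∀ v : HeightOneSpectrum (𝓞 ℚ), rp v ∉ B → eo v d = 0
  exo : ∀ u ∈ E0, u ≠ 0 → (∃ v ∈ ov K (Qa : Set ℕ), la v u = 1) ∧ ∃ v ∈ ov K (Qb : Set ℕ), la v u = 1
  bo : β % 2 = 1
  pos : 0 < β
  sqf : Squarefree (β * (1 - 64 * β))
  co : ∀ q : ℕ, q.Prime → (q : ℤ) ∣ β * (1 - 64 * β) → q ∉ B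
  pa : ∀ q ∈ Qa, q.Prime ∧ (q : ℤ) ∣ 1 - 64 * β
  pb : ∀ q ∈ Qb, q.Prime ∧ (q : ℤ) ∣ β
  na : Qa.Nonempty
  nb : Qb.Nonempty
  card : Qa.card = Qb.card
  bal : (ov K (Qb : Set ℕ)).ncard + InfinitePlace.nrComplexPlaces K = (ov K (Qa : Set ℕ)).ncard

/-- A state of the algorithm: totally split primes outside `B` not dividing `2 β (1 - 64 β)`. -/
structure St8 (K : Type) [Field K] [NumberField K] (B : Finset ℕ) (β : ℤ) (Pp Pp' : Finset ℕ) :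
    Prop where
  dj : Disjoint Pp Pp'
  tot : ∀ p ∈ Pp ∪ Pp', Tot K p
  ndvd : ∀ p ∈ Pp ∪ Pp', ¬ (p : ℤ) ∣ 2 * (β * (1 - 64 * β))
  nB : ∀ p ∈ Pp ∪ Pp', p ∉ B
  sq : ∀ p ∈ Pp, SqMod p β ∧ ¬ SqMod p (1 - 64 * β)
  sq' : ∀ p ∈ Pp', ¬ SqMod p β ∧ SqMod p (1 - 64 * β)

/-- The conditions on the twisting integer. -/
structure Tw8 (K : Type) [Field K] [NumberField K] (B : Finset ℕ) (β : ℤ)
    (Qa Qb Pp Pp' : Finset ℕ) (n : ℤ) : Prop where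
  sqf : Squarefree n
  n4 : n % 4 = 1
  pre : ∀ q ∈ Qa ∪ Qb, ¬ (q : ℤ) ∣ n
  mem : ∀ p ∈ Pp ∪ Pp', (p : ℤ) ∣ n
  zb : ∀ q ∈ Q0 β Qa Qb, (q : ℤ) ∣ β → ∃ u b' : ℤ, n = q * u ∧ β = q * b' ∧
    ¬ (q : ℤ) ∣ u * b' ∧ SqMod q (-(u * b'))
  zd : ∀ q ∈ Q0 β Qa Qb, (q : ℤ) ∣ 1 - 64 * β → ∃ u d' : ℤ, n = q * u ∧ 1 - 64 * β = q * d' ∧
    ¬ (q : ℤ) ∣ u * d' ∧ SqMod q (2 * u * d')
  neu : ∀ p : ℕ, p.Prime → (p : ℤ) ∣ n → ¬ (p : ℤ) ∣ β * (1 - 64 * β) → Nice K p ∧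
    (p ∉ Pp → p ∉ Pp' → ¬ SqMod p β ∧ ¬ SqMod p (1 - 64 * β))

/-- The primes given by the density theorem and the counting lemma. -/
structure Adm8 (K : Type) [Field K] [NumberField K] (QK : AddSubgroup (SC ℚ)) (E0 : Set (SC K)) :
    Prop where
  cR : ∀ (R : Finset (SC ℚ)) (Ψ : SC ℚ →+ ZMod 2), (∀ d ∈ QK, Ψ d = 0) →
    {p : ℕ | Tot K p ∧ ∀ r ∈ R, ∀ v ∈ ov K {p}, la v (res K r) = Ψ r}.Infinite
  cA : ∀ w : SC K, nm K w = 0 → w ∉ E0 → ∀ (R : Finset (SC ℚ)) (Ψ : SC ℚ →+ ZMod 2),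
    (∀ d ∈ QK, Ψ d = 0) → {p : ℕ | Tot K p ∧ (∀ r ∈ R, ∀ v ∈ ov K {p}, la v (res K r) = Ψ r) ∧
      ∃ v ∈ ov K {p}, la v w = 1}.Infinite
  cB : ∀ X : AddSubgroup (SC K), (X : Set (SC K)).Finite → (∀ x ∈ X, nm K x = 0) →
    (∀ x ∈ X, x ∈ E0 → x = 0) → 2 ^ (Module.finrank ℚ K - 1) ≤ (X : Set (SC K)).ncard →
    ∀ (R : Finset (SC ℚ)) (Ψ : SC ℚ →+ ZMod 2), (∀ d ∈ QK, Ψ d = 0) →
    {p : ℕ | Tot K p ∧ (∀ r ∈ R, ∀ v ∈ ov K {p}, la v (res K r) = Ψ r) ∧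
      ∀ f : HeightOneSpectrum (𝓞 K) → ZMod 2, ∑ᶠ v ∈ ov K {p}, f v = 0 →
        ∃ x ∈ X, ∀ v ∈ ov K {p}, la v x = f v}.Infinite

/-- The norm-zero parts of both groups. -/
def XW8 (K : Type) [Field K] [NumberField K] (β : ℤ) (Qa Qb Pp Pp' : Finset ℕ) : Set (SC K) :=
  {c | c ∈ XX (L8 K β Qa Qb Pp Pp') ∧ nm K c = 0}

/-- All places of the local conditions. -/
noncomputable def PP8 (K : Type) [Field K] [NumberField K] (β : ℤ) (Qa Qb Pp Pp' : Finset ℕ) :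
    Set (HeightOneSpectrum (𝓞 K)) :=
  (L8 K β Qa Qb Pp Pp').Sg ∪ (L8 K β Qa Qb Pp Pp').P ∪ (L8 K β Qa Qb Pp Pp').P'

end H88T8
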