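import Pool.Agent.H88.T8.Ag
import Pool.Agent.H88.T7.Mb

/-!
ROW Mb (project MP_78d38b_T8, about 230 lines): cardinalities of the groups of a state. Modification of the proved file
`Pool/Agent/H88/T7/Mb.lean`.

PROOF. numK: `gw7` (`H88/T7/Gw.lean`) for `L8` (`good8`; `hN` with `PP8 = Sg ∪ P ∪ P'`), `τ = false`: `|XX'| 2^(r₂ + #P') = |XX| 2^#P`. `#P' = |ov K Qb| + N |Pp'|`,
`#P = |ov K Qa| + N |Pp|` (disjoint unions: a prime of `Qb` divides `β`, `hS.ndvd`; `tot_card` for each `p`, induction over the finset or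
`Set.ncard` of a finite disjoint union), and `|ov K Qb| + r₂ = |ov K Qa|` (`hD.bal`): cancel `2^|ov K Qa|`.
numQ: the same for `ℚ`: `dat8_rat`, `st8_rat`, `NS ⊆ {0}` by `ns_rat`, finrank one.
split8: `(r, c) ↦ res r + c` is a bijection `XX(ℚ) × XW8 → XX(K)` (`res_X8`, `nm_X8`, `nm_res hD.odd`, `sub8`), as `split7`.
pow8: as `pow7`. two_le8, card_X8', eq_X8', rat_X8': as `two_le`, `card_XX'`, `eq_XX'`, `rat_XX'` (`res_X8'`, `res_inj`).
-/

set_option autoImplicit false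
set_option linter.unusedSectionVars false
open scoped Classical

open WithZero NumberField IsDedekindDomain H38RT H88T7
open H38T1 (SC sc rep eo la si Pri tp OddP LD XX XX' NS ov rp SqMod)

namespace H88T8

variable {K : Type} [Field K] [NumberField K] {B : Finset ℕ} {QK : AddSubgroup (SC ℚ)}
  {E0 : Set (SC K)} {β : ℤ} {Qa Qb Pp Pp' : Finset ℕ}

private lemma Mb_pow {F : Type} [Field F] (H : AddSubgroup (SC F)) (hf : (H : Set (SC F)).Finite) :
    ∃ x : ℕ, (H : Set (SC F)).ncard = 2 ^ x := by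
  have : Finite (AddSubgroup.toZModSubmodule 2 H : Submodule (ZMod 2) (SC F)) := hf.to_subtype
  refine ⟨Module.finrank (ZMod 2) (AddSubgroup.toZModSubmodule 2 H : Submodule (ZMod 2) (SC F)), ?_⟩
  have h1 := Module.natCard_eq_pow_finrank (K := ZMod 2)
    (V := (AddSubgroup.toZModSubmodule 2 H : Submodule (ZMod 2) (SC F)))
  rw [Nat.card_zmod] at h1
  rw [← h1]
  exact (Nat.card_coe_set_eq (H : Set (SC F))).symm

private lemma Mb_disc (hD : Dat8 K B QK E0 β Qa Qb) : (1 - 64 * β : ℤ) ≠ 0 := by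
  have := hD.pos
  omega

private lemma Mb_cnt {Q : Set ℕ} (hQ : ∀ q ∈ Q, q.Prime) (hf : (ov K Q).Finite) (P : Finset ℕ)
    (hP : ∀ p ∈ P, Tot K p ∧ p ∉ Q) :
    (ov K (Q ∪ (P : Set ℕ))).Finite ∧
      (ov K (Q ∪ (P : Set ℕ))).ncard = (ov K Q).ncard + Module.finrank ℚ K * P.card := by
  induction P using Finset.induction_on with
  | empty =>
    rw [Finset.coe_empty, Set.union_empty, Finset.card_empty, mul_zero, add_zero]
    exact ⟨hf, rfl⟩
  | insert p P hp ih =>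
    obtain ⟨h1, h2⟩ := ih (fun q hq => hP q (Finset.mem_insert_of_mem hq))
    obtain ⟨hT, hpQ⟩ := hP p (Finset.mem_insert_self p P)
    have hc := tot_card hT
    have hN : 0 < Module.finrank ℚ K := Module.finrank_pos
    have hfp : (ov K {p}).Finite := Set.finite_of_ncard_pos (by rw [hc]; exact hN)
    have hu : ov K (Q ∪ ((insert p P : Finset ℕ) : Set ℕ)) =
        ov K (Q ∪ (P : Set ℕ)) ∪ ov K {p} := by
      ext v
      constructor
      · rintro ⟨q, hq, hv⟩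
        rcases hq with hq | hq
        · exact Or.inl ⟨q, Or.inl hq, hv⟩
        · rcases Finset.mem_insert.1 (Finset.mem_coe.1 hq) with rfl | hq
          · exact Or.inr ⟨q, Set.mem_singleton q, hv⟩
          · exact Or.inl ⟨q, Or.inr (Finset.mem_coe.2 hq), hv⟩
      · rintro (⟨q, hq, hv⟩ | ⟨q, hq, hv⟩)
        · rcases hq with hq | hq
          · exact ⟨q, Or.inl hq, hv⟩
          · exact ⟨q, Or.inr (Finset.mem_coe.2 (Finset.mem_insert_of_mem (Finset.mem_coe.1 hq))), hv⟩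
        · rw [Set.mem_singleton_iff] at hq
          rw [hq] at hv
          exact ⟨p, Or.inr (Finset.mem_coe.2 (Finset.mem_insert_self p P)), hv⟩
    have hd : Disjoint (ov K (Q ∪ (P : Set ℕ))) (ov K {p}) := by
      rw [Set.disjoint_left]
      rintro v ⟨q, hq, hv⟩ ⟨q', hq', hv'⟩
      rw [Set.mem_singleton_iff] at hq'
      rw [hq'] at hv'
      have hqp : q.Prime := by
        rcases hq with hq | hq
        · exact hQ q hq
        · exact (hP q (Finset.mem_insert_of_mem (Finset.mem_coe.1 hq))).1.1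
      have e1 := (H38T1.mem_iff_eq hqp).1 hv
      have e2 := (H38T1.mem_iff_eq hT.1).1 hv'
      have e3 : q = p := e1.symm.trans e2
      rw [e3] at hq
      rcases hq with hq | hq
      · exact hpQ hq
      · exact hp (Finset.mem_coe.1 hq)
    rw [hu]
    refine ⟨h1.union hfp, ?_⟩
    rw [Set.ncard_union_eq hd h1 hfp, h2, hc, Finset.card_insert_of_notMem hp]
    ring

private lemma Mb_P (hD : Dat8 K B QK E0 β Qa Qb) (hS : St8 K B β Pp Pp') :
    (L8 K β Qa Qb Pp Pp').P.ncard = (ov K (Qa : Set ℕ)).ncard + Module.finrank ℚ K * Pp.card := by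
  have hf : (ov K (Qa : Set ℕ)).Finite := by
    refine (good8 hD hS).finP.subset ?_
    rintro v ⟨q, hq, hv⟩
    exact ⟨q, Or.inl hq, hv⟩
  refine (Mb_cnt (fun q hq => (hD.pa q (Finset.mem_coe.1 hq)).1) hf Pp fun p hp => ?_).2
  have hp' := Finset.mem_union_left Pp' hp
  refine ⟨hS.tot p hp', fun h => hS.ndvd p hp' ?_⟩
  exact Dvd.dvd.mul_left (Dvd.dvd.mul_left (hD.pa p (Finset.mem_coe.1 h)).2 _) _

private lemma Mb_P' (hD : Dat8 K B QK E0 β Qa Qb) (hS : St8 K B β Pp Pp') :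
    (L8 K β Qa Qb Pp Pp').P'.ncard = (ov K (Qb : Set ℕ)).ncard + Module.finrank ℚ K * Pp'.card := by
  have hf : (ov K (Qb : Set ℕ)).Finite := by
    refine (good8 hD hS).finP'.subset ?_
    rintro v ⟨q, hq, hv⟩
    exact ⟨q, Or.inl hq, hv⟩
  refine (Mb_cnt (fun q hq => (hD.pb q (Finset.mem_coe.1 hq)).1) hf Pp' fun p hp => ?_).2
  have hp' := Finset.mem_union_right Pp hp
  refine ⟨hS.tot p hp', fun h => hS.ndvd p hp' ?_⟩
  exact Dvd.dvd.mul_left (Dvd.dvd.mul_right (hD.pb p (Finset.mem_coe.1 h)).2 _) _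

theorem numK (hD : Dat8 K B QK E0 β Qa Qb) (hS : St8 K B β Pp Pp')
    (hN : NS (PP8 K β Qa Qb Pp Pp') ⊆ {(0 : SC K)}) :
    (XX' (L8 K β Qa Qb Pp Pp')).ncard * 2 ^ (Module.finrank ℚ K * Pp'.card) =
      (XX (L8 K β Qa Qb Pp Pp')).ncard * 2 ^ (Module.finrank ℚ K * Pp.card) := by
  have h1 := gw7 (good8 hD hS) hN
  have hτ : (L8 K β Qa Qb Pp Pp').τ = false := rfl
  rw [hτ, if_neg Bool.false_ne_true, Nat.add_zero, Mb_P hD hS, Mb_P' hD hS, ← hD.bal] at h1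
  obtain ⟨N, hNe⟩ : ∃ N : ℕ, N = Module.finrank ℚ K := ⟨_, rfl⟩
  rw [← hNe] at h1 ⊢
  obtain ⟨x, hx⟩ : ∃ x : ℕ, x = (ov K (Qb : Set ℕ)).ncard + InfinitePlace.nrComplexPlaces K :=
    ⟨_, rfl⟩
  have e1 : InfinitePlace.nrComplexPlaces K + ((ov K (Qb : Set ℕ)).ncard + N * Pp'.card) =
      x + N * Pp'.card := by rw [hx]; ring
  rw [e1, ← hx, pow_add, pow_add] at h1
  have h2 : 0 < 2 ^ x := pow_pos two_pos x
  apply Nat.eq_of_mul_eq_mul_left h2
  calc 2 ^ x * ((XX' (L8 K β Qa Qb Pp Pp')).ncard * 2 ^ (N * Pp'.card))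
      = (XX' (L8 K β Qa Qb Pp Pp')).ncard * (2 ^ x * 2 ^ (N * Pp'.card)) := by ring
    _ = (XX (L8 K β Qa Qb Pp Pp')).ncard * (2 ^ x * 2 ^ (N * Pp.card)) := h1
    _ = 2 ^ x * ((XX (L8 K β Qa Qb Pp Pp')).ncard * 2 ^ (N * Pp.card)) := by ring

theorem numQ (hD : Dat8 K B QK E0 β Qa Qb) (hS : St8 K B β Pp Pp') :
    (XX' (L8 ℚ β Qa Qb Pp Pp')).ncard * 2 ^ Pp'.card =
      (XX (L8 ℚ β Qa Qb Pp Pp')).ncard * 2 ^ Pp.card := by
  have h1 := numK (dat8_rat hD) (st8_rat hS) (fun c hc => Set.mem_singleton_iff.2 (ns_rat hc))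
  rw [Module.finrank_self, one_mul, one_mul] at h1
  exact h1

theorem split8 (hD : Dat8 K B QK E0 β Qa Qb) (hS : St8 K B β Pp Pp') :
    (XX (L8 K β Qa Qb Pp Pp')).ncard =
      (XX (L8 ℚ β Qa Qb Pp Pp')).ncard * (XW8 K β Qa Qb Pp Pp').ncard := by
  obtain ⟨H, hH⟩ := sub8 hD hS
  have him : XX (L8 K β Qa Qb Pp Pp') =
      (fun x : SC ℚ × SC K => res K x.1 + x.2) ''
        (XX (L8 ℚ β Qa Qb Pp Pp') ×ˢ XW8 K β Qa Qb Pp Pp') := by
    ext c
    constructor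
    · intro hc
      refine ⟨(nm K c, c - res K (nm K c)), ⟨nm_X8 hD hS hc, ?_, ?_⟩, ?_⟩
      · have h1 : res K (nm K c) ∈ XX (L8 K β Qa Qb Pp Pp') := res_X8 hD hS (nm_X8 hD hS hc)
        rw [← hH] at hc h1 ⊢
        exact H.sub_mem hc h1
      · show nm K (c - res K (nm K c)) = 0
        rw [map_sub, nm_res hD.odd, sub_self]
      · show res K (nm K c) + (c - res K (nm K c)) = c
        rw [add_sub_cancel]
    · rintro ⟨⟨r, d⟩, ⟨hr, hd, _⟩, rfl⟩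
      have h1 : res K r ∈ XX (L8 K β Qa Qb Pp Pp') := res_X8 hD hS hr
      show res K r + d ∈ XX (L8 K β Qa Qb Pp Pp')
      have h2 : d ∈ XX (L8 K β Qa Qb Pp Pp') := hd
      rw [← hH] at h1 h2 ⊢
      exact H.add_mem h1 h2
  have hinj : Set.InjOn (fun x : SC ℚ × SC K => res K x.1 + x.2)
      (XX (L8 ℚ β Qa Qb Pp Pp') ×ˢ XW8 K β Qa Qb Pp Pp') := by
    rintro ⟨r, d⟩ ⟨_, _, hd⟩ ⟨r', d'⟩ ⟨_, _, hd'⟩ h
    have h0 : res K r + d = res K r' + d' := h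
    have h1 := congrArg (nm K) h0
    have e1 : nm K d = 0 := hd
    have e2 : nm K d' = 0 := hd'
    rw [map_add, map_add, nm_res hD.odd, nm_res hD.odd, e1, e2, add_zero, add_zero] at h1
    subst h1
    have h2 := add_left_cancel h0
    rw [h2]
  rw [him, hinj.ncard_image, Set.ncard_prod]

theorem pow8 (hD : Dat8 K B QK E0 β Qa Qb) (hS : St8 K B β Pp Pp') :
    (∃ x : ℕ, (XX (L8 ℚ β Qa Qb Pp Pp')).ncard = 2 ^ x) ∧
      ∃ w : ℕ, (XW8 K β Qa Qb Pp Pp').ncard = 2 ^ w := by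
  constructor
  · obtain ⟨H, hH⟩ := sub8 (dat8_rat hD) (st8_rat hS)
    have hf := fin8 (dat8_rat hD) (st8_rat hS)
    rw [← hH] at hf ⊢
    exact Mb_pow H hf
  · obtain ⟨H, hH⟩ := sub8 hD hS
    have hf := fin8 hD hS
    have h1 : XW8 K β Qa Qb Pp Pp' = ((H ⊓ (nm K).ker : AddSubgroup (SC K)) : Set (SC K)) := by
      ext c
      rw [AddSubgroup.coe_inf, hH]
      rfl
    have hf' : (XW8 K β Qa Qb Pp Pp').Finite := hf.subset (fun c hc => hc.1)
    rw [h1] at hf' ⊢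
    exact Mb_pow _ hf'

theorem two_le8 (hD : Dat8 K B QK E0 β Qa Qb) (hS : St8 K B β Pp Pp') :
    2 ≤ (XX (L8 ℚ β Qa Qb Pp Pp')).ncard := by
  have hf := fin8 (dat8_rat hD) (st8_rat hS)
  have hb := beta_mem8 (dat8_rat hD) (st8_rat hS)
  have hn := (ne8 (dat8_rat hD)).1
  obtain ⟨H, hH⟩ := sub8 (dat8_rat hD) (st8_rat hS)
  have h0 : (0 : SC ℚ) ∈ XX (L8 ℚ β Qa Qb Pp Pp') := by
    rw [← hH]
    exact H.zero_mem
  have hs : ({(0 : SC ℚ), sc (β : ℚ)} : Set (SC ℚ)) ⊆ XX (L8 ℚ β Qa Qb Pp Pp') := by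
    rintro x (rfl | hx)
    · exact h0
    · rw [Set.mem_singleton_iff] at hx
      rw [hx]
      exact hb
  have h2 := Set.ncard_le_ncard hs hf
  rwa [Set.ncard_pair hn.symm] at h2

private lemma Mb_pair (hD : Dat8 K B QK E0 β Qa Qb) (hS : St8 K B β Pp Pp') :
    ({0, sc ((1 - 64 * β : ℤ) : K)} : Set (SC K)) ⊆ XX' (L8 K β Qa Qb Pp Pp') := by
  obtain ⟨H, hH⟩ := sub8' hD hS
  have h0 : (0 : SC K) ∈ XX' (L8 K β Qa Qb Pp Pp') := by
    rw [← hH]
    exact H.zero_mem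
  rintro x (rfl | hx)
  · exact h0
  · rw [Set.mem_singleton_iff] at hx
    rw [hx]
    exact disc_mem8 hD hS

theorem card_X8' (hD : Dat8 K B QK E0 β Qa Qb) (hS : St8 K B β Pp Pp')
    (h : XX' (L8 K β Qa Qb Pp Pp') ⊆ {0, sc ((1 - 64 * β : ℤ) : K)}) :
    (XX' (L8 K β Qa Qb Pp Pp')).ncard = 2 := by
  rw [Set.Subset.antisymm h (Mb_pair hD hS)]
  exact Set.ncard_pair (ne8 hD).2.1.symm

theorem eq_X8' (hD : Dat8 K B QK E0 β Qa Qb) (hS : St8 K B β Pp Pp')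
    (h : (XX' (L8 K β Qa Qb Pp Pp')).ncard = 2) :
    XX' (L8 K β Qa Qb Pp Pp') ⊆ {0, sc ((1 - 64 * β : ℤ) : K)} := by
  have h1 := Set.eq_of_subset_of_ncard_le (Mb_pair hD hS)
    (by rw [h, Set.ncard_pair (ne8 hD).2.1.symm]) (fin8' hD hS)
  rw [← h1]

theorem rat_X8' (hD : Dat8 K B QK E0 β Qa Qb) (hS : St8 K B β Pp Pp')
    (h : XX' (L8 K β Qa Qb Pp Pp') ⊆ {0, sc ((1 - 64 * β : ℤ) : K)}) :
    XX' (L8 ℚ β Qa Qb Pp Pp') ⊆ {0, sc ((1 - 64 * β : ℤ) : ℚ)} := by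
  intro r hr
  have h1 := h (res_X8' hD hS hr)
  rcases h1 with h1 | h1
  · left
    exact res_inj hD.odd (h1.trans (map_zero (res K)).symm)
  · right
    rw [Set.mem_singleton_iff] at h1 ⊢
    rw [← res_int (Mb_disc hD)] at h1
    exact res_inj hD.odd h1

end H88T8
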