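import Pool.Agent.H88.T8.Fo
import Pool.Agent.H90.T8.Ad
import Pool.Agent.H90.T8.P3
import Pool.Agent.H88.T7.Gb
import Pool.Agent.H88.T8.Gc
import Pool.Agent.H88.T8.Sv

/-!
Assembly of the project MP_78d38b_T8 (helper88).
-/

set_option autoImplicit false
set_option linter.unusedSectionVars false
open scoped Classical

open WithZero NumberField IsDedekindDomain H38RT H88T7 H90T8
open H38T1 (SC sc rep eo la si Pri tp OddP LD XX XX' NS ov rp SqMod)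

namespace H88T8

variable {K : Type} [Field K] [NumberField K]

theorem main8 (hodd : Odd (Module.finrank ℚ K)) (hS : SimpleK K) {S : Set ℤ}
    (hS' : ∀ β : ℤ, 0 < β → (∃ (n : ℤ) (D : Set ℕ), GoodT K 1 (16 * β) n D) → 16 * β ∈ S) :
    ∃ c : ℝ, 0 < c ∧ ∃ X₀ : ℝ, ∀ X : ℝ, X₀ ≤ X →
      c * X ≤ {b : ℤ | 0 < b ∧ (b : ℝ) ≤ X ∧ b ∈ S}.ncard := by
  obtain ⟨M, _, _, hL, -⟩ := exists_bigL K ∅ ∅
  obtain ⟨B, β₀, m, h0, hm, h2, h3, h5, hq, hD⟩ := exists_dat8p hodd hL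
  have hA := adm8 hodd hL hS
  refine dens8 h0 hm (k := 16) (by norm_num) h2 h3 h5 (fun q hq1 hq2 t ht => hq q hq1 hq2 t ?_)
    fun t ht => ?_
  · rw [pow_two]
    exact ht
  · obtain ⟨Qa, Qb, hD'⟩ := hD t ht
    obtain ⟨Pp, Pp', hSt, -, hX, hX'⟩ := algo8 hD' hA 0
    exact hS' _ hD'.pos (good_of8 hD' hA.toAdm8 hSt hX hX')

end H88T8
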