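import Pool.Agent.H88.T8.Sv
import Pool.Agent.H88.T7.Fn
import Pool.Agent.H38.T1.Fy

/-!
Assembly of the project MP_78d38b_T8, fields inside Galois extensions of odd degree (helper88).
-/

set_option autoImplicit false
set_option linter.unusedSectionVars false
open scoped Classical

open NumberField

namespace H88T8

theorem good_galois {β : ℤ} (h1 : 1 < β) (ho : β % 2 = 1) (hs : Squarefree β)
    {K K₀ : Type} [Field K] [NumberField K] [Field K₀] [NumberField K₀] [IsGalois ℚ K₀]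
    (h₀ : Odd (Module.finrank ℚ K₀)) (φ : K →+* K₀) :
    ∃ (n : ℤ) (D : Set ℕ), H88T7.GoodT K 1 (16 * β) n D := by
  have nb : ¬ IsSquare (16 * β) := by
    rintro ⟨r, hr⟩
    have h2 : ((4 : ℤ)) ^ 2 ∣ r ^ 2 := ⟨β, by rw [pow_two r, ← hr]; norm_num⟩
    obtain ⟨t, rfl⟩ := (Int.pow_dvd_pow_iff two_ne_zero).1 h2
    have h3 : β = t * t := by
      have : (16 : ℤ) * β = 16 * (t * t) := by rw [hr]; ring
      exact mul_left_cancel₀ (by norm_num) this
    have h4 := hs t ⟨1, by rw [h3]; ring⟩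
    rcases Int.isUnit_iff.1 h4 with rfl | rfl <;> omega
  have hD0 : (1 : ℤ) ^ 2 - 4 * (16 * β) < 0 := by omega
  have nD : ¬ IsSquare ((1 : ℤ) ^ 2 - 4 * (16 * β)) := fun h => not_lt.2 h.nonneg hD0
  have nbD : ¬ IsSquare (16 * β * ((1 : ℤ) ^ 2 - 4 * (16 * β))) := fun h =>
    not_lt.2 h.nonneg (mul_neg_of_pos_of_neg (by omega) hD0)
  obtain ⟨a', b', j, J, hab', -, hJ, n, hn, H⟩ := H38T1.final_gen (a := 1) (b := 16 * β) (by norm_num)
    ⟨0, β, by norm_num, ho⟩ nb nD nbD ∅ (by simp) (by simp) K₀ h₀ 0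
  exact ⟨n, H38T1.Fs a' b' J, hn, H38T1.free_one a' b' J, fun d hd => hd.sqf,
    fun d hd d' hd' => by
      obtain ⟨d'', s, hs, he, hf⟩ := H38T1.free_mul hab' hd hd'
      exact ⟨d'', hf, s, hs, he⟩,
    H38T1.fs_inf hab' (S := ∅) (by simp) hJ, fun d hd => H d hd K (Or.inl ⟨φ⟩)⟩

/-- A positive proportion of the integers is obtained from the fields in Galois extensions of odd degree. -/
theorem prop_galois {K K₀ : Type} [Field K] [NumberField K] [Field K₀] [NumberField K₀]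
    [IsGalois ℚ K₀] (h₀ : Odd (Module.finrank ℚ K₀)) (φ : K →+* K₀) {S : Set ℤ}
    (hS : ∀ β : ℤ, 0 < β → (∃ (n : ℤ) (D : Set ℕ), H88T7.GoodT K 1 (16 * β) n D) → 16 * β ∈ S) :
    ∃ c : ℝ, 0 < c ∧ ∃ X₀ : ℝ, ∀ X : ℝ, X₀ ≤ X →
      c * X ≤ {b : ℤ | 0 < b ∧ (b : ℝ) ≤ X ∧ b ∈ S}.ncard := by
  refine dens8 (β₀ := 11) (M := 30) (k := 16) (by norm_num) (by norm_num) (by norm_num) (by norm_num)
    (by norm_num) (by norm_num) ?_ ?_
  · intro q hq hqM t h
    have h1 : (q : ℤ) ∣ (11 + 30 * t) * (1 - 64 * (11 + 30 * t)) := (dvd_mul_right _ _).trans h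
    have h2 : (q : ℕ) ∣ 30 := by exact_mod_cast hqM
    have h3 : q ∈ Nat.primeFactors 30 := Nat.mem_primeFactors.2 ⟨hq, h2, by norm_num⟩
    have h4 : Nat.primeFactors 30 = {2, 3, 5} := by
      decide +kernel
    rw [h4] at h3
    simp only [Finset.mem_insert, Finset.mem_singleton] at h3
    rcases h3 with rfl | rfl | rfl
    · rcases (Nat.prime_iff_prime_int.1 Nat.prime_two).dvd_or_dvd h1 with h5 | h5 <;>
        · push_cast at h5
          omega
    · rcases (Nat.prime_iff_prime_int.1 Nat.prime_three).dvd_or_dvd h1 with h5 | h5 <;>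
        · push_cast at h5
          omega
    · rcases (Nat.prime_iff_prime_int.1 Nat.prime_five).dvd_or_dvd h1 with h5 | h5 <;>
        · push_cast at h5
          omega
  · intro t ht
    refine hS _ (by omega) (good_galois (by omega) (by omega) (ht.of_mul_left) h₀ φ)

end H88T8
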