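import Pool.Agent.H30.T8.Fg

/-!
The progression of the good integers (project MP_78d38b_T8); the proof of `H30T8.exists_beta` by helper50
with the progression kept.
-/

set_option autoImplicit false
open scoped Classical

namespace H88T8

open H30T8

theorem exists_prog (B Qa Qb : Finset ℕ) (hB : ∀ q ∈ B, q.Prime) (h2 : 2 ∈ B) (h3 : 3 ∈ B)
    (h5 : 5 ∈ B) (hd : Disjoint Qa Qb) (hQ : ∀ q ∈ Qa ∪ Qb, q.Prime ∧ q ∉ B) :
    ∃ β₁ m : ℤ, 0 < β₁ ∧ 0 < m ∧ (2 : ℤ) ∣ m ∧ (3 : ℤ) ∣ m ∧ (5 : ℤ) ∣ m ∧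
      (∀ q : ℕ, q.Prime → (q : ℤ) ∣ m → ∀ t : ℕ,
        ¬ (q : ℤ) ^ 2 ∣ (β₁ + m * t) * (1 - 64 * (β₁ + m * t))) ∧
      ∀ t : ℕ, (β₁ + m * t) % 2 = 1 ∧ 0 < β₁ + m * t ∧
        (∀ q : ℕ, q.Prime → (q : ℤ) ∣ (β₁ + m * t) * (1 - 64 * (β₁ + m * t)) → q ∉ B) ∧
        (∀ q ∈ Qa, (q : ℤ) ∣ 1 - 64 * (β₁ + m * t)) ∧ ∀ q ∈ Qb, (q : ℤ) ∣ β₁ + m * t := by
  set P : Finset ℕ := B ∪ (Qa ∪ Qb) with hP
  have hPp : ∀ q ∈ P, q.Prime := by
    intro q hq
    rcases Finset.mem_union.1 hq with h | h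
    · exact hB q h
    · exact (hQ q h).1
  set s : ℕ → ℤ := fun q => if q ∈ B then (q : ℤ) else (q : ℤ) ^ 2 with hs
  have hsB : ∀ q, q ∈ B → s q = q := fun q hq => by simp [hs, hq]
  have hsN : ∀ q, q ∉ B → s q = (q : ℤ) ^ 2 := fun q hq => by simp [hs, hq]
  -- the residues
  have hr : ∀ q : ℕ, ∃ r : ℤ, (q ∈ P → q = 2 → s q ∣ r - 1 ∧ s q = 2) ∧
      (q ∈ P → q ∈ B → q ≠ 2 → s q ∣ 64 * r + 1) ∧
      (q ∈ Qa → s q ∣ 64 * r - (1 + q)) ∧ (q ∈ Qb → s q ∣ r - q) := by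
    intro q
    by_cases e2 : q = 2
    · refine ⟨1, fun _ _ => ⟨by simp, by rw [e2, hsB 2 h2]; norm_num⟩, fun _ _ h => absurd e2 h,
        fun h => ?_, fun h => ?_⟩
      · exact absurd (e2 ▸ h2) (hQ q (Finset.mem_union_left _ h)).2
      · exact absurd (e2 ▸ h2) (hQ q (Finset.mem_union_right _ h)).2
    · by_cases hqB : q ∈ B
      · obtain ⟨r, hr⟩ := Ff_res (hB q hqB) e2 (-1) 1
        refine ⟨r, fun _ h => absurd h e2, fun _ _ _ => ?_, fun h => ?_, fun h => ?_⟩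
        · rw [hsB q hqB]
          simpa using hr
        · exact absurd hqB (hQ q (Finset.mem_union_left _ h)).2
        · exact absurd hqB (hQ q (Finset.mem_union_right _ h)).2
      · by_cases ha : q ∈ Qa
        · obtain ⟨r, hr⟩ := Ff_res (hQ q (Finset.mem_union_left _ ha)).1 e2 (1 + q) 2
          refine ⟨r, fun _ h => absurd h e2, fun _ h => absurd h hqB, fun _ => ?_, fun h => ?_⟩
          · rw [hsN q hqB]
            exact hr
          · exact absurd h (Finset.disjoint_left.1 hd ha)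
        · refine ⟨q, fun _ h => absurd h e2, fun _ h => absurd h hqB, fun h => absurd h ha,
            fun _ => by simp⟩
  choose r hr1 hr2 hr3 hr4 using hr
  obtain ⟨β₀, hβ₀⟩ := Ff_crt P s r (by
    intro i hi j hj hij
    have h1 : IsCoprime (i : ℤ) (j : ℤ) :=
      Nat.isCoprime_iff_coprime.2 ((Nat.coprime_primes (hPp i hi) (hPp j hj)).2 hij)
    simp only [hs]
    split_ifs
    · exact h1
    · exact h1.pow_right
    · exact h1.pow_left
    · exact h1.pow)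
  set M : ℤ := ∏ q ∈ P, s q with hM
  have hMd : ∀ q ∈ P, s q ∣ M := fun q hq => Finset.dvd_prod_of_mem s hq
  have hMpos : 0 < M := Finset.prod_pos (fun q hq => by
    have : (0 : ℤ) < q := by exact_mod_cast (hPp q hq).pos
    simp only [hs]
    split_ifs
    · exact this
    · exact pow_pos this 2)
  have hBP : ∀ q ∈ B, q ∈ P := fun q hq => Finset.mem_union_left _ hq
  have haP : ∀ q ∈ Qa, q ∈ P := fun q hq => Finset.mem_union_right _ (Finset.mem_union_left _ hq)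
  have hbP : ∀ q ∈ Qb, q ∈ P := fun q hq => Finset.mem_union_right _ (Finset.mem_union_right _ hq)
  have hb : ∀ (t : ℤ) (q : ℕ), q ∈ P → s q ∣ β₀ + M * t - r q := by
    intro t q hq
    have : β₀ + M * t - r q = (β₀ - r q) + M * t := by ring
    rw [this]
    exact dvd_add (hβ₀ q hq) ((hMd q hq).mul_right t)
  have hodd : ∀ t : ℤ, (2 : ℤ) ∣ β₀ + M * t - 1 := by
    intro t
    obtain ⟨e1, e2⟩ := hr1 2 (hBP 2 h2) rfl
    have h1 := hb t 2 (hBP 2 h2)
    rw [e2] at e1 h1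
    have : β₀ + M * t - 1 = (β₀ + M * t - r 2) + (r 2 - 1) := by ring
    rw [this]
    exact dvd_add h1 e1
  have hBn : ∀ (t : ℤ) (q : ℕ), q ∈ B →
      ¬ (q : ℤ) ∣ (β₀ + M * t) * (1 - 64 * (β₀ + M * t)) := by
    intro t q hq hdv
    have hp : Prime (q : ℤ) := Nat.prime_iff_prime_int.1 (hB q hq)
    by_cases e2 : q = 2
    · subst e2
      have h1 := hodd t
      rcases hp.dvd_or_dvd hdv with h | h
      · push_cast at h
        omega
      · push_cast at h
        omega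
    · have h1 := hb t q (hBP q hq)
      have h4 := hr2 q (hBP q hq) hq e2
      rw [hsB q hq] at h1 h4
      have h6 : (q : ℤ) ∣ 64 * (β₀ + M * t) + 1 := by
        have : 64 * (β₀ + M * t) + 1 = 64 * (β₀ + M * t - r q) + (64 * r q + 1) := by ring
        rw [this]
        exact dvd_add (h1.mul_left _) h4
      rcases hp.dvd_or_dvd hdv with h | h
      · have h7 : (q : ℤ) ∣ 1 := by
          have : (1 : ℤ) = (64 * (β₀ + M * t) + 1) - 64 * (β₀ + M * t) := by ring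
          rw [this]
          exact dvd_sub h6 (h.mul_left _)
        exact hp.not_isUnit (isUnit_of_dvd_one h7)
      · have h7 : (q : ℤ) ∣ 2 := by
          have : (2 : ℤ) = (64 * (β₀ + M * t) + 1) + (1 - 64 * (β₀ + M * t)) := by ring
          rw [this]
          exact dvd_add h6 h
        have h8 : q ∣ 2 := by exact_mod_cast h7
        exact e2 ((Nat.prime_dvd_prime_iff_eq (hB q hq) Nat.prime_two).1 h8)
  have hQa' : ∀ (t : ℤ) (q : ℕ), q ∈ Qa → (q : ℤ) ^ 2 ∣ (1 - 64 * (β₀ + M * t)) + q := by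
    intro t q hq
    have hnB := (hQ q (Finset.mem_union_left _ hq)).2
    have h1 := hb t q (haP q hq)
    have h4 := hr3 q hq
    rw [hsN q hnB] at h1 h4
    have : (1 - 64 * (β₀ + M * t)) + q = (-64) * (β₀ + M * t - r q) - (64 * r q - (1 + q)) := by
      ring
    rw [this]
    exact dvd_sub (h1.mul_left _) h4
  have hQb' : ∀ (t : ℤ) (q : ℕ), q ∈ Qb → (q : ℤ) ^ 2 ∣ (β₀ + M * t) - q := by
    intro t q hq
    have hnB := (hQ q (Finset.mem_union_right _ hq)).2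
    have h1 := hb t q (hbP q hq)
    have h4 := hr4 q hq
    rw [hsN q hnB] at h1 h4
    have : (β₀ + M * t) - q = (β₀ + M * t - r q) + (r q - q) := by ring
    rw [this]
    exact dvd_add h1 h4
  have hsq : ∀ q : ℕ, q.Prime → ¬ (q : ℤ) ^ 2 ∣ (q : ℤ) := by
    intro q hq h
    have h1 : q ^ 2 ∣ q := by exact_mod_cast h
    have h4 := Nat.le_of_dvd hq.pos h1
    nlinarith [hq.two_le]
  have hQa : ∀ (t : ℤ) (q : ℕ), q ∈ Qa → (q : ℤ) ∣ 1 - 64 * (β₀ + M * t) := by
    intro t q hq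
    have h1 := (dvd_pow_self (q : ℤ) two_ne_zero).trans (hQa' t q hq)
    exact (dvd_add_left (dvd_refl (q : ℤ))).1 h1
  have hQb : ∀ (t : ℤ) (q : ℕ), q ∈ Qb → (q : ℤ) ∣ β₀ + M * t := by
    intro t q hq
    have h1 := (dvd_pow_self (q : ℤ) two_ne_zero).trans (hQb' t q hq)
    exact (dvd_sub_left (dvd_refl (q : ℤ))).1 h1
  have hsf : ∀ q : ℕ, q.Prime → (q : ℤ) ∣ M → ∀ t : ℕ,
      ¬ (q : ℤ) ^ 2 ∣ (β₀ + M * t) * (1 - 64 * (β₀ + M * t)) := by
    intro q hq hqM t hdv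
    have hp : Prime (q : ℤ) := Nat.prime_iff_prime_int.1 hq
    obtain ⟨q', hq', hdq⟩ := (hp.dvd_finsetProd_iff s).1 hqM
    have hqq : q ∣ q' := by
      have h1 : (q : ℤ) ∣ (q' : ℤ) := by
        simp only [hs] at hdq
        split_ifs at hdq
        · exact hdq
        · exact hp.dvd_of_dvd_pow hdq
      exact_mod_cast h1
    have e : q = q' := (Nat.prime_dvd_prime_iff_eq hq (hPp q' hq')).1 hqq
    subst e
    rcases Finset.mem_union.1 hq' with h | h
    · exact hBn t q h ((dvd_pow_self (q : ℤ) two_ne_zero).trans hdv)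
    · rcases Finset.mem_union.1 h with h | h
      · have h1 := hQa t q h
        have h4 : ¬ (q : ℤ) ∣ β₀ + M * t := by
          intro h5
          have h6 : (q : ℤ) ∣ 1 := by
            have : (1 : ℤ) = (1 - 64 * (β₀ + M * t)) + 64 * (β₀ + M * t) := by ring
            rw [this]
            exact dvd_add h1 (h5.mul_left _)
          exact hp.not_isUnit (isUnit_of_dvd_one h6)
        have h7 : (q : ℤ) ^ 2 ∣ 1 - 64 * (β₀ + M * t) := by
          refine IsCoprime.dvd_of_dvd_mul_left ?_ hdv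
          exact ((Prime.coprime_iff_not_dvd hp).2 h4).pow_left
        exact hsq q hq ((dvd_add_right h7).1 (hQa' t q h))
      · have h1 := hQb t q h
        have h4 : ¬ (q : ℤ) ∣ 1 - 64 * (β₀ + M * t) := by
          intro h5
          have h6 : (q : ℤ) ∣ 1 := by
            have : (1 : ℤ) = (1 - 64 * (β₀ + M * t)) + 64 * (β₀ + M * t) := by ring
            rw [this]
            exact dvd_add h5 (h1.mul_left _)
          exact hp.not_isUnit (isUnit_of_dvd_one h6)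
        have h7 : (q : ℤ) ^ 2 ∣ β₀ + M * t := by
          refine IsCoprime.dvd_of_dvd_mul_right ?_ hdv
          exact ((Prime.coprime_iff_not_dvd hp).2 h4).pow_left
        exact hsq q hq ((dvd_sub_right h7).1 (hQb' t q h))
  have hd2 : (2 : ℤ) ∣ M := by
    have := hMd 2 (hBP 2 h2)
    rwa [hsB 2 h2] at this
  have hd3 : (3 : ℤ) ∣ M := by
    have := hMd 3 (hBP 3 h3)
    rwa [hsB 3 h3] at this
  have hd5 : (5 : ℤ) ∣ M := by
    have := hMd 5 (hBP 5 h5)
    rwa [hsB 5 h5] at this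
  obtain ⟨t₁, ht₁⟩ : ∃ t₁ : ℕ, (t₁ : ℤ) = |β₀| + 1 := ⟨(|β₀| + 1).toNat, by
    rw [Int.toNat_of_nonneg]
    positivity⟩
  have hpos : 0 < β₀ + M * t₁ := by
    have h4 : -β₀ ≤ |β₀| := neg_le_abs β₀
    have h6 : (t₁ : ℤ) ≤ M * t₁ := by nlinarith [Int.natCast_nonneg t₁]
    linarith
  have he : ∀ t : ℕ, β₀ + M * t₁ + M * t = β₀ + M * ((t₁ + t : ℕ) : ℤ) := by
    intro t
    push_cast
    ring
  refine ⟨β₀ + M * t₁, M, hpos, hMpos, hd2, hd3, hd5, fun q hq hqM t => ?_, fun t => ⟨?_, ?_, ?_, ?_, ?_⟩⟩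
  · rw [he]
    exact hsf q hq hqM (t₁ + t)
  · rw [he]
    have := hodd ((t₁ + t : ℕ) : ℤ)
    omega
  · positivity
  · intro q _ hdv hqB
    rw [he] at hdv
    exact hBn _ q hqB hdv
  · intro q hq
    rw [he]
    exact hQa _ q hq
  · intro q hq
    rw [he]
    exact hQb _ q hq

end H88T8
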