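import Pool.Agent.H88.T8.Ga
import Pool.Agent.H88.T8.Gb
import Pool.Agent.H88.T8.Pu

/-!
Quadratic twists of elliptic curves over the rationals with a rational point of order two, whose
Tate-Shafarevich groups have trivial two-primary part over a given number field of odd degree (for
example any cubic or quintic field) and finite two-primary part over all number fields inside an
infinite extension of it.
-/

set_option autoImplicit false
open scoped Classical

namespace H88T8Park

open NumberField WeierstrassCurve Pool.Agent.H10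

/-- The two-primary part of the Tate-Shafarevich group of `W` over `L` is finite: the everywhere
locally trivial continuous cocycles `f` for which `2 ^ m f` is a coboundary for some `m` fall into
finitely many classes modulo coboundaries. -/
def TwoPartFinite (L : Type) [Field L] [NumberField L] (W : WeierstrassCurve L) : Prop :=
  ∃ S : Set ((AlgebraicClosure L ≃ₐ[L] AlgebraicClosure L) →
      (W.baseChange (AlgebraicClosure L)).toAffine.Point), S.Finite ∧
    ∀ f : (AlgebraicClosure L ≃ₐ[L] AlgebraicClosure L) →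
        (W.baseChange (AlgebraicClosure L)).toAffine.Point,
      IsCocycle L W f → IsLocTriv L W f → (∃ m : ℕ, IsCobound L W (fun σ => (2 ^ m) • f σ)) →
      ∃ g ∈ S, IsCobound L W (fun σ => f σ - g σ)

/-- The curve `y^2 = x (x^2 + a n x + b n^2)` over `K`, the quadratic twist by `n` of the curve
`y^2 = x (x^2 + a x + b)`. -/
def twist (K : Type) [Field K] (a b n : ℤ) : WeierstrassCurve K :=
  ⟨0, ((a * n : ℤ) : K), 0, ((b * n ^ 2 : ℤ) : K), 0⟩

/-- `M` is an extension of infinite degree of the rationals, generated by square roots of natural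
numbers, which embeds in `ℚ_p` for every prime `p` in `P`. -/
def InfiniteMultiquadratic (P : Finset ℕ) (M : IntermediateField ℚ (AlgebraicClosure ℚ)) : Prop :=
  ¬ FiniteDimensional ℚ M ∧ (∃ D : Set ℕ, M =
    IntermediateField.adjoin ℚ {x | ∃ d ∈ D, x ^ 2 = (d : AlgebraicClosure ℚ)}) ∧
    ∀ (p : ℕ) [Fact p.Prime], p ∈ P → Nonempty (M →+* ℚ_[p])

/-- `L` is contained in a compositum of `K` and `M`. -/
def Inside (K L : Type) [Field K] [NumberField K] [Field L] [NumberField L]
    (M : IntermediateField ℚ (AlgebraicClosure ℚ)) : Prop :=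
  ∃ (i : K →ₐ[ℚ] AlgebraicClosure ℚ) (j : L →ₐ[ℚ] AlgebraicClosure ℚ),
    j.fieldRange ≤ i.fieldRange ⊔ M

/-- Over `K` the curve has finitely many points and its Tate-Shafarevich group has trivial
two-primary part; over the (infinite) compositum of `K` and `M` the curve still has finitely many
points, and over every number field `L` in this compositum its Tate-Shafarevich group has finite
two-primary part. -/
def Controlled (K : Type) [Field K] [NumberField K]
    (M : IntermediateField ℚ (AlgebraicClosure ℚ)) (a b n : ℤ) : Prop :=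
  Finite (twist K a b n).toAffine.Point ∧ Sha2Trivial K (twist K a b n) ∧
    (∀ i : K →ₐ[ℚ] AlgebraicClosure ℚ, Finite (twist (i.fieldRange ⊔ M :
      IntermediateField ℚ (AlgebraicClosure ℚ)) a b n).toAffine.Point) ∧
    ∀ (L : Type) [Field L] [NumberField L], Inside K L M → TwoPartFinite L (twist L a b n)

theorem twist_dual (K : Type) [Field K] (a b n : ℤ) : twist K (-2 * a) (a ^ 2 - 4 * b) n =
    ⟨0, ((-2 * (a * n) : ℤ) : K), 0, (((a ^ 2 - 4 * b) * n ^ 2 : ℤ) : K), 0⟩ := by
  unfold twist
  rw [mul_assoc]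

theorem fin_of_le {E E' : IntermediateField ℚ (AlgebraicClosure ℚ)} (h : E ≤ E') (A B : ℤ)
    (hf : Finite (⟨0, (A : E'), 0, (B : E'), 0⟩ : WeierstrassCurve E').toAffine.Point) :
    Finite (⟨0, (A : E), 0, (B : E), 0⟩ : WeierstrassCurve E).toAffine.Point := by
  have e : (⟨0, (A : E), 0, (B : E), 0⟩ : WeierstrassCurve E).map
      (IntermediateField.inclusion h : E →+* E') = ⟨0, (A : E'), 0, (B : E'), 0⟩ := by
    simp only [WeierstrassCurve.map, map_zero, map_intCast]
  exact Finite.of_injective _ (pm_injective (IntermediateField.inclusion h : E →+* E') e)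

theorem controlled_of {K F : Type} [Field K] [NumberField K] [Field F] [NumberField F]
    {M : IntermediateField ℚ (AlgebraicClosure ℚ)} {a b n : ℤ} (φ : K →+* F)
    (hK : H38T1.Both K a b n) (hF : H38T1.FinAll F M a b n) :
    Controlled K M a b n ∧ Controlled K M (-2 * a) (a ^ 2 - 4 * b) n := by
  obtain ⟨hF1, hF2⟩ := hF
  have hext : ∀ i : K →ₐ[ℚ] AlgebraicClosure ℚ, ∃ i' : F →ₐ[ℚ] AlgebraicClosure ℚ,
      i.fieldRange ≤ i'.fieldRange := by
    intro i
    let _ : Algebra K F := φ.toAlgebra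
    let _ : Algebra K (AlgebraicClosure ℚ) := (i : K →+* AlgebraicClosure ℚ).toAlgebra
    have hsc : IsScalarTower ℚ K F := IsScalarTower.of_algebraMap_eq' (RingHom.ext_rat _ _)
    have halg : Algebra.IsAlgebraic K F := Algebra.IsAlgebraic.tower_top (K := ℚ) K
    let ψ : F →ₐ[K] AlgebraicClosure ℚ := IsAlgClosed.lift
    have hψ : ∀ x : K, ψ (φ x) = i x := fun x => ψ.commutes x
    refine ⟨(ψ : F →+* AlgebraicClosure ℚ).toRatAlgHom, ?_⟩
    rintro _ ⟨x, rfl⟩
    exact ⟨φ x, hψ x⟩
  have hL : ∀ (L : Type) [Field L] [NumberField L], Inside K L M → H38T1.FinBoth L a b n := by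
    rintro L _ _ ⟨i, j, hij⟩
    obtain ⟨i', hi'⟩ := hext i
    exact hF2 L i' j (hij.trans (sup_le_sup_right hi' _))
  refine ⟨⟨hK.1.2, hK.1.1, fun i => ?_, fun L _ _ h => (hL L h).1.1⟩, ?_⟩
  · obtain ⟨i', hi'⟩ := hext i
    exact fin_of_le (sup_le_sup_right hi' M) _ _ (hF1 i' _ rfl).1
  unfold Controlled
  rw [twist_dual]
  refine ⟨hK.2.2, hK.2.1, fun i => ?_, fun L _ _ h => ?_⟩
  · rw [twist_dual]
    obtain ⟨i', hi'⟩ := hext i
    exact fin_of_le (sup_le_sup_right hi' M) _ _ (hF1 i' _ rfl).2
  · rw [twist_dual]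
    exact (hL L h).2.1

/-- The absolute Galois group of the rationals acts on the embeddings of `K` through a group
containing all even permutations. -/
def Generic (K : Type) [Field K] [NumberField K] : Prop :=
  ∀ τ ∈ alternatingGroup (K →ₐ[ℚ] AlgebraicClosure ℚ),
    ∃ g : AlgebraicClosure ℚ ≃ₐ[ℚ] AlgebraicClosure ℚ,
      ∀ σ : K →ₐ[ℚ] AlgebraicClosure ℚ,
        (g : AlgebraicClosure ℚ →ₐ[ℚ] AlgebraicClosure ℚ).comp σ = τ σ

theorem of_good {K : Type} [Field K] [NumberField K] {a b n : ℤ} {D : Set ℕ}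
    (hb : b ≠ 0) (hD : a ^ 2 - 4 * b ≠ 0) (hG : H88T7.GoodT K a b n D) (P : Finset ℕ) :
    ∃ M : IntermediateField ℚ (AlgebraicClosure ℚ), InfiniteMultiquadratic P M ∧
      {n : ℤ | Squarefree n ∧ Controlled K M a b n ∧
        Controlled K M (-2 * a) (a ^ 2 - 4 * b) n}.Infinite := by
  have hn0 : n ≠ 0 := hG.sqn.ne_zero
  obtain ⟨l, l', hlp, hlp', hne, hl, hl'⟩ := H38T1.two_primes
    (c := 2 * (b * (a ^ 2 - 4 * b))) (mul_ne_zero two_ne_zero (mul_ne_zero hb hD))
  have : Fact l.Prime := ⟨hlp⟩
  have : Fact l'.Prime := ⟨hlp'⟩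
  set Q : Finset ℕ := insert l (insert l' P) with hQ
  have hQl : l ∈ Q := Finset.mem_insert_self _ _
  have hQl' : l' ∈ Q := Finset.mem_insert_of_mem (Finset.mem_insert_self _ _)
  refine ⟨H38T1.Mf (H88T7.Dp D Q), ⟨H38T1.Mf_inf (H88T7.dp_inf hG.inf hG.sq hG.mul Q)
    (fun d hd => hG.sq d hd.1), ⟨H88T7.Dp D Q, rfl⟩, fun p _ hp => H38T1.embed_padic
    fun d hd => hd.2 p (Finset.mem_insert_of_mem (Finset.mem_insert_of_mem hp))⟩, ?_⟩
  have hinj : Set.InjOn (fun d : ℕ => n * (d : ℤ)) {d : ℕ | d ∈ D ∧ IsCoprime n (d : ℤ)} := by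
    intro d _ d' _ hdd
    have := mul_left_cancel₀ hn0 hdd
    exact_mod_cast this
  refine ((H88T7.cop_inf hG.inf hG.sq hG.mul hn0).image hinj).mono ?_
  rintro _ ⟨d, ⟨hd, hc⟩, rfl⟩
  exact ⟨(squarefree_mul_iff).2 ⟨hc.isRelPrime, hG.sqn, Int.squarefree_natCast.2 (hG.sq d hd)⟩,
    controlled_of (RingHom.id K) (hG.both d hd) (H88T7.ctl7 hb hD hn0 hG.one hG.sq hG.mul hne hl hl'
      hQl hQl' hG.both hd)⟩

/-- The functions with values in `ZMod 2` and sum zero on the set of embeddings of `K` form a simple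
Galois module: a Galois stable subspace of them is zero or contains all of them. -/
def SimpleSum (K : Type) [Field K] [NumberField K] : Prop :=
  ∀ U : Submodule (ZMod 2) ((K →ₐ[ℚ] AlgebraicClosure ℚ) → ZMod 2),
    (∀ g : AlgebraicClosure ℚ ≃ₐ[ℚ] AlgebraicClosure ℚ, ∀ u ∈ U,
      (fun σ => u ((g : AlgebraicClosure ℚ →ₐ[ℚ] AlgebraicClosure ℚ).comp σ)) ∈ U) →
    (∀ u ∈ U, ∑ σ, u σ = 0) →
    U = ⊥ ∨ ∀ u : (K →ₐ[ℚ] AlgebraicClosure ℚ) → ZMod 2, ∑ σ, u σ = 0 → u ∈ U

/-- The fields of the theorem: `K` is contained in a Galois extension of the rationals of odd degree;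
or the degree of `K` is a prime `N` such that two is a primitive root modulo `N` (for example `3`,
`5`, `11`, `13`, `19`, `29`) or such that `K` is generated by an `N`-th root of a rational number; or
the Galois group contains all even permutations of the embeddings; or, more generally than in the
last three cases, the functions with sum zero form a simple module. -/
def Covered (K : Type) [Field K] [NumberField K] : Prop :=
  (∃ (K₀ : Type) (_ : Field K₀) (_ : NumberField K₀), IsGalois ℚ K₀ ∧ Odd (Module.finrank ℚ K₀) ∧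
    Nonempty (K →+* K₀)) ∨
  ((Module.finrank ℚ K).Prime ∧ (orderOf (2 : ZMod (Module.finrank ℚ K)) = Module.finrank ℚ K - 1 ∨
    ∃ (α : K) (a : ℚ), α ^ Module.finrank ℚ K = (a : K) ∧ ∀ q : ℚ, α ≠ (q : K))) ∨
  Generic K ∨ SimpleSum K

theorem simple_of {K : Type} [Field K] [NumberField K] (h : SimpleSum K) : H90T8.SimpleK K := by
  intro U hU hs hne
  exact (h U hU hs).resolve_left hne

/-- Let `K` be a number field of odd degree satisfying the condition `Covered` (for example any
cubic or quintic field). For a positive proportion of the positive integers `b` the elliptic curve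
`E : y^2 = x (x^2 + x + b)` has the following property: for every finite set `P` of primes there are
an infinite multiquadratic field `M` in which the primes of `P` split completely and infinitely many
squarefree integers `n` such that the twists by `n` of `E` and of the isogenous curve
`E' : y^2 = x (x^2 - 2 x + 1 - 4 b)` are controlled. -/
theorem result (K : Type) [Field K] [NumberField K] (hodd : Odd (Module.finrank ℚ K))
    (hK : Covered K) : ∃ c : ℝ, 0 < c ∧ ∃ X₀ : ℝ, ∀ X : ℝ, X₀ ≤ X →
      c * X ≤ {b : ℤ | 0 < b ∧ (b : ℝ) ≤ X ∧ ∀ P : Finset ℕ,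
        ∃ M : IntermediateField ℚ (AlgebraicClosure ℚ), InfiniteMultiquadratic P M ∧
          {n : ℤ | Squarefree n ∧ Controlled K M 1 b n ∧
            Controlled K M (-2) (1 - 4 * b) n}.Infinite}.ncard := by
  have key : ∀ β : ℤ, 0 < β → (∃ (n : ℤ) (D : Set ℕ), H88T7.GoodT K 1 (16 * β) n D) →
      16 * β ∈ {b : ℤ | ∀ P : Finset ℕ,
        ∃ M : IntermediateField ℚ (AlgebraicClosure ℚ), InfiniteMultiquadratic P M ∧
          {n : ℤ | Squarefree n ∧ Controlled K M 1 b n ∧
            Controlled K M (-2) (1 - 4 * b) n}.Infinite} := by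
    rintro β hβ ⟨n, D, hG⟩ P
    obtain ⟨M, hM, hinf⟩ := of_good (a := 1) (b := 16 * β) (by omega) (by omega) hG P
    exact ⟨M, hM, hinf⟩
  rcases hK with ⟨K₀, hF, hN, hGal, h₀, ⟨φ⟩⟩ | ⟨hp, h2⟩ | hG | hS
  · exact H88T8.prop_galois h₀ φ key
  · have hp2 : Module.finrank ℚ K ≠ 2 := by
      intro h
      rw [h] at hodd
      exact absurd hodd (by decide)
    rcases h2 with h2 | ⟨α, a, hα, hα'⟩
    · exact H88T8.main8 hodd (H90T8.simpleK_prime hp hp2 rfl h2) key
    · exact H88T8.main8 hodd (H88T8.simple_pure hp hp2 rfl α a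
        (by rw [hα, eq_ratCast]) (fun q => by rw [eq_ratCast]; exact hα' q)) key
  · exact H88T8.main8 hodd (H90T8.simpleK_alt hodd hG) key
  · exact H88T8.main8 hodd (simple_of hS) key

end H88T8Park
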