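import Pool.Agent.H88.T8.Ai
import Pool.Agent.H88.T8.Tq

/-!
ROW Ta (project MP_78d38b_T8, about 130 lines): totally split neutral primes with prescribed residues modulo the primes of `Q0`.

PROOF. `Ψ` from `sepF8 hD ε` (`Ai.lean`). `R` = the finite set consisting of `sc β`, `sc (1 - 64 β)`, `sc (-1)` and `sc q` for the primes `q` dividing
`β (1 - 64 β)` (`(β (1 - 64 β)).natAbs.primeFactors`; `β (1 - 64 β) ≠ 0` as it is squarefree). `hA.cR R Ψ`: infinitely many `l` with `Tot K l` and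
`la v (res K r) = Ψ r` for `r ∈ R` and `v` above `l`. Remove the finitely many `l` dividing `2 β (1 - 64 β)` (a nonzero integer has finitely many prime
divisors; `Set.Infinite.diff`, `.mono`; compare `ds_inf` in `H88/T7/Fi.lean`). For such `l` there is a place `v` of `K` above `l` (`ov K {l}` is nonempty: `tot_card` (`Aa.lean`) and
`Module.finrank_pos`, or `H38T1` lemmas), `rp v = l`, `inertiaDeg = 1` (odd), so `la_int7` (`H88/T7/Aa.lean`) with `res_int`: for an integer `m` prime to `l`: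
`Ψ (sc m) = 0 ↔ SqMod l m`. `m = β`, `1 - 64 β`: `Ψ = 1`: not squares. `m = -1`: `SqMod l (-1)`, so `l % 4 = 1` (`sq_neg8`, `Tq.lean`). `m = q ∈ Q0`: `q ≠ l` since `q` divides
`β (1 - 64 β)`, `q ≠ 2` (`hD.co`, `hD.two`): `rec8`: `SqMod q l ↔ SqMod l q ↔ Ψ (sc q) = 0 ↔ ε q = 0`.
-/

set_option autoImplicit false
set_option linter.unusedSectionVars false
open scoped Classical

open WithZero NumberField IsDedekindDomain H38RT H88T7
open H38T1 (SC sc rep eo la si Pri tp OddP LD XX XX' NS ov rp SqMod)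

namespace H88T8

variable {K : Type} [Field K] [NumberField K] {B : Finset ℕ} {QK : AddSubgroup (SC ℚ)}
  {E0 : Set (SC K)} {β : ℤ} {Qa Qb : Finset ℕ}

private lemma Ta_mem {p : ℕ} (hpp : p.Prime) (v : HeightOneSpectrum (𝓞 K)) :
    v ∈ ov K {p} ↔ rp v = p := by
  rw [H38T1.mem_ov (by
    intro q hq
    rw [Set.mem_singleton_iff.1 hq]
    exact hpp), Set.mem_singleton_iff]

private lemma Ta_la {p : ℕ} (hn : Tot K p) {v : HeightOneSpectrum (𝓞 K)} (hv : v ∈ ov K {p})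
    {m : ℤ} (hm : ¬ (p : ℤ) ∣ m) : la v (res K (sc (m : ℚ))) = 0 ↔ SqMod p m := by
  have h1 : rp v = p := (Ta_mem hn.1 v).1 hv
  have hv' := (H38T1.mem_iff_eq hn.1).2 h1
  have hm0 : m ≠ 0 := by
    rintro rfl
    exact hm (dvd_zero _)
  have hodd : Odd (v.asIdeal.inertiaDeg ℤ) := by
    rw [(hn.2.2 v hv').2]
    exact odd_one
  have h2 := la_int7 (v := v) hodd (by rw [h1]; exact hn.2.1) (m := m)
    (by rw [h1]; exact hm)
  rw [res_int hm0, h2, h1]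

theorem exists_l8 (hD : Dat8 K B QK E0 β Qa Qb) (hA : Adm8 K QK E0) (ε : ℕ → ZMod 2) :
    {l : ℕ | Tot K l ∧ l % 4 = 1 ∧ ¬ (l : ℤ) ∣ 2 * (β * (1 - 64 * β)) ∧ ¬ SqMod l β ∧
      ¬ SqMod l (1 - 64 * β) ∧ ∀ q ∈ Q0 β Qa Qb, (SqMod q (l : ℤ) ↔ ε q = 0)}.Infinite := by
  obtain ⟨Ψ, h0, h1, h2, h3, h4⟩ := sepF8 hD ε
  have hne : β * (1 - 64 * β) ≠ 0 := hD.sqf.ne_zero
  have hne2 : 2 * (β * (1 - 64 * β)) ≠ 0 := mul_ne_zero two_ne_zero hne
  have hinf := hA.cR (insert (sc (β : ℚ)) (insert (sc ((1 - 64 * β : ℤ) : ℚ)) (insert (sc (-1 : ℚ))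
    ((β * (1 - 64 * β)).natAbs.primeFactors.image (fun q : ℕ => sc (q : ℚ)))))) Ψ h0
  have hfin : {p : ℕ | (p : ℤ) ∣ 2 * (β * (1 - 64 * β))}.Finite := by
    refine (Set.finite_Iic (2 * (β * (1 - 64 * β))).natAbs).subset ?_
    intro p hp
    exact Nat.le_of_dvd (Int.natAbs_pos.2 hne2) (Int.natCast_dvd.1 hp)
  refine (hinf.diff hfin).mono ?_
  rintro l ⟨⟨ht, hr⟩, hnd⟩
  have hnd' : ¬ (l : ℤ) ∣ 2 * (β * (1 - 64 * β)) := hnd
  have hnd'' : ¬ (l : ℤ) ∣ β * (1 - 64 * β) := fun h => hnd' (dvd_mul_of_dvd_right h _)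
  have hb' : ¬ (l : ℤ) ∣ β := fun h => hnd'' (dvd_mul_of_dvd_left h _)
  have hd' : ¬ (l : ℤ) ∣ (1 - 64 * β) := fun h => hnd'' (dvd_mul_of_dvd_right h _)
  have hm' : ¬ (l : ℤ) ∣ (-1 : ℤ) := by
    intro h
    exact (Nat.prime_iff_prime_int.1 ht.1).not_unit (isUnit_of_dvd_unit h (by decide))
  obtain ⟨v, hv⟩ : (ov K {l}).Nonempty := by
    apply Set.nonempty_of_ncard_ne_zero
    rw [tot_card ht]
    exact Module.finrank_pos.ne'
  have hb := Ta_la ht hv hb'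
  have hd := Ta_la ht hv hd'
  have hm := Ta_la ht hv hm'
  have e1 : (((-1 : ℤ) : ℤ) : ℚ) = (-1 : ℚ) := by norm_num
  rw [e1] at hm
  rw [hr _ (by simp) v hv, h1] at hb
  rw [hr _ (by simp) v hv, h2] at hd
  rw [hr _ (by simp) v hv, h3] at hm
  have hm2 : SqMod l (-1) := hm.1 rfl
  have h41 : l % 4 = 1 := sq_neg8 ht.1 ht.2.1 hm2
  refine ⟨ht, h41, hnd', fun h => one_ne_zero (hb.2 h), fun h => one_ne_zero (hd.2 h), ?_⟩
  intro q hq
  have hqp : q.Prime ∧ (q : ℤ) ∣ β * (1 - 64 * β) := hq.1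
  have hq2 : q ≠ 2 := by
    rintro rfl
    exact hD.co 2 hqp.1 hqp.2 hD.two
  have hql : q ≠ l := by
    rintro rfl
    exact hnd'' hqp.2
  have hlq : ¬ (l : ℤ) ∣ (q : ℤ) := by
    intro h
    have h5 : l ∣ q := by exact_mod_cast h
    exact hql ((Nat.prime_dvd_prime_iff_eq ht.1 hqp.1).1 h5).symm
  have h5 := Ta_la ht hv hlq
  have e2 : (((q : ℤ)) : ℚ) = (q : ℚ) := by push_cast; rfl
  rw [e2] at h5
  have hmem : q ∈ (β * (1 - 64 * β)).natAbs.primeFactors := by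
    rw [Nat.mem_primeFactors]
    exact ⟨hqp.1, Int.natCast_dvd.1 hqp.2, Int.natAbs_ne_zero.2 hne⟩
  rw [hr _ (by
    rw [Finset.mem_insert, Finset.mem_insert, Finset.mem_insert]
    exact Or.inr (Or.inr (Or.inr (Finset.mem_image_of_mem _ hmem)))) v hv, h4 q hq] at h5
  rw [rec8 hqp.1 ht.1 hq2 h41 hql, ← h5]

end H88T8
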